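import Mathlib

set_option autoImplicit false

namespace Pool.Agent.Lib.MP_70615d_an

open scoped ComplexOrder

/-- The radial profile of `k_{α,β}`. -/
noncomputable def kern (α β r : ℝ) : ℝ :=
  if r = 1 then α / β else (1 - r ^ α) / (1 - r ^ β)

/-- `k_{α,β}` is positive definite on `ℝ^n`. -/
def PosDef (n : ℕ) (α β : ℝ) : Prop :=
  ∀ (m : ℕ) (x : Fin m → EuclideanSpace ℝ (Fin n)) (c : Fin m → ℂ),
    0 ≤ ∑ i, ∑ j, c i * (starRingEnd ℂ) (c j) * (kern α β ‖x i - x j‖ : ℂ)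

/-- `τ_n(β)`; the trivial value `α = β` (constant kernel) is left out. -/
noncomputable def tau (n : ℕ) (β : ℝ) : ℝ :=
  sSup {α : ℝ | 0 < α ∧ α ≠ β ∧ PosDef n α β}

/-- The set whose supremum is `β_n`. -/
def supp (n : ℕ) : Set ℝ := {β : ℝ | 0 < β ∧ 0 < tau n β}

/-- Completely monotone on `(0, ∞)`. -/
def ComplMono (f : ℝ → ℝ) : Prop :=
  ContDiffOn ℝ (⊤ : ℕ∞) f (Set.Ioi 0) ∧ ∀ (n : ℕ) (t : ℝ), 0 < t → 0 ≤ (-1) ^ n * iteratedDeriv n f t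

/-- `log t / (t^b - 1)`. -/
noncomputable def logKern (b t : ℝ) : ℝ :=
  if t = 1 then 1 / b else Real.log t / (t ^ b - 1)

/-- `∑_{j ≥ 1} s^(jb-1) (ψ(jb) - log s) / Γ(jb)`. -/
noncomputable def dens (b s : ℝ) : ℝ :=
  ∑' j : ℕ, s ^ ((j + 1) * b - 1) * (logDeriv Real.Gamma ((j + 1) * b) - Real.log s) /
    Real.Gamma ((j + 1) * b)

end Pool.Agent.Lib.MP_70615d_an
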