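import Mathlib
import Pool.Agent.Lib.MP_70615d_an.Defs

/-!
Discrete complete monotonicity on `(0, ∞)`.
-/

set_option autoImplicit false

namespace Pool.Agent.Lib.MP_70615d_an

open Filter Topology Set MeasureTheory

/-- negative forward difference -/
def nd (h : ℝ) (f : ℝ → ℝ) : ℝ → ℝ := fun t => f t - f (t + h)

def Dn : ℕ → (ℝ → ℝ) → Prop
  | 0, f => ∀ t, 0 < t → 0 ≤ f t
  | n + 1, f => (∀ t, 0 < t → 0 ≤ f t) ∧ ∀ h, 0 < h → Dn n (nd h f)

def DC (f : ℝ → ℝ) : Prop := ∀ n, Dn n f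

theorem Dn.nonneg {n : ℕ} {f : ℝ → ℝ} (hf : Dn n f) {t : ℝ} (ht : 0 < t) : 0 ≤ f t := by
  cases n with
  | zero => exact hf t ht
  | succ n => exact hf.1 t ht

theorem Dn.pred {n : ℕ} : ∀ {f : ℝ → ℝ}, Dn (n + 1) f → Dn n f := by
  induction n with
  | zero => exact fun hf => hf.1
  | succ n ih => exact fun hf => ⟨hf.1, fun h hh => ih (hf.2 h hh)⟩

theorem Dn.congr {n : ℕ} : ∀ {f g : ℝ → ℝ}, Dn n f → (∀ t, 0 < t → g t = f t) → Dn n g := by
  induction n with
  | zero => exact fun hf hg t ht => (hg t ht) ▸ hf t ht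
  | succ n ih =>
    intro f g hf hg
    refine ⟨fun t ht => (hg t ht) ▸ hf.1 t ht, fun h hh => ih (hf.2 h hh) fun t ht => ?_⟩
    simp only [nd, hg t ht, hg (t + h) (by linarith)]

theorem Dn.add {n : ℕ} : ∀ {f g : ℝ → ℝ}, Dn n f → Dn n g → Dn n (fun t => f t + g t) := by
  induction n with
  | zero => exact fun hf hg t ht => add_nonneg (hf t ht) (hg t ht)
  | succ n ih =>
    intro f g hf hg
    refine ⟨fun t ht => add_nonneg (hf.1 t ht) (hg.1 t ht), fun h hh =>
      (ih (hf.2 h hh) (hg.2 h hh)).congr fun t _ => ?_⟩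
    simp only [nd]; ring

theorem Dn.const {n : ℕ} : ∀ {c : ℝ}, 0 ≤ c → Dn n (fun _ => c) := by
  induction n with
  | zero => exact fun hc _ _ => hc
  | succ n ih =>
    intro c hc
    exact ⟨fun _ _ => hc, fun h _ => (ih le_rfl).congr fun t _ => by simp [nd]⟩

theorem Dn.shift {n : ℕ} : ∀ {f : ℝ → ℝ} {v : ℝ}, Dn n f → 0 ≤ v → Dn n (fun t => f (t + v)) := by
  induction n with
  | zero => exact fun hf hv t ht => hf _ (by linarith)
  | succ n ih =>
    intro f v hf hv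
    refine ⟨fun t ht => hf.1 _ (by linarith), fun h hh => (ih (hf.2 h hh) hv).congr fun t _ => ?_⟩
    simp only [nd]; ring_nf

theorem Dn.mul {n : ℕ} : ∀ {f g : ℝ → ℝ}, Dn n f → Dn n g → Dn n (fun t => f t * g t) := by
  induction n with
  | zero => exact fun hf hg t ht => mul_nonneg (hf t ht) (hg t ht)
  | succ n ih =>
    intro f g hf hg
    refine ⟨fun t ht => mul_nonneg (hf.1 t ht) (hg.1 t ht), fun h hh => ?_⟩
    refine ((ih (hf.2 h hh) hg.pred).add (ih (hf.pred.shift hh.le) (hg.2 h hh))).congr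
      fun t _ => ?_
    simp only [nd]; ring

theorem Dn.lim {ι : Type*} {l : Filter ι} [l.NeBot] {n : ℕ} :
    ∀ {F : ι → ℝ → ℝ} {f : ℝ → ℝ}, (∀ᶠ i in l, Dn n (F i)) →
      (∀ t, 0 < t → Tendsto (fun i => F i t) l (𝓝 (f t))) → Dn n f := by
  induction n with
  | zero => exact fun hF hl t ht => ge_of_tendsto (hl t ht) (hF.mono fun i hi => hi t ht)
  | succ n ih =>
    intro F f hF hl
    refine ⟨fun t ht => ge_of_tendsto (hl t ht) (hF.mono fun i hi => hi.1 t ht), fun h hh => ?_⟩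
    exact ih (F := fun i => nd h (F i)) (hF.mono fun i hi => hi.2 h hh)
      fun t ht => (hl t ht).sub (hl _ (by linarith))

theorem Dn.integral {α : Type*} [MeasurableSpace α] {μ : Measure α} {n : ℕ} :
    ∀ {F : α → ℝ → ℝ}, (∀ᵐ u ∂μ, Dn n (F u)) → (∀ t, 0 < t → Integrable (fun u => F u t) μ) →
      Dn n (fun t => ∫ u, F u t ∂μ) := by
  induction n with
  | zero => exact fun hF _ t ht => integral_nonneg_of_ae (hF.mono fun u hu => hu t ht)
  | succ n ih =>
    intro F hF hi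
    refine ⟨fun t ht => integral_nonneg_of_ae (hF.mono fun u hu => hu.1 t ht), fun h hh => ?_⟩
    refine (ih (F := fun u => nd h (F u)) (hF.mono fun u hu => hu.2 h hh)
      fun t ht => (hi t ht).sub (hi _ (by linarith))).congr fun t ht => ?_
    simp only [nd]
    rw [integral_sub (hi t ht) (hi _ (by linarith))]

theorem nd_nonneg_of_deriv {f g : ℝ → ℝ} (hd : ∀ t, 0 < t → HasDerivAt f (-g t) t)
    (hg : ∀ t, 0 < t → 0 ≤ g t) {h : ℝ} (hh : 0 < h) {t : ℝ} (ht : 0 < t) : 0 ≤ nd h f t := by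
  obtain ⟨c, hc, hc'⟩ := exists_hasDerivAt_eq_slope f (fun t => -g t) (a := t) (b := t + h)
    (by linarith) (fun x hx => (hd x (by linarith [hx.1])).continuousAt.continuousWithinAt)
    (fun x hx => hd x (by linarith [hx.1]))
  have h1 := hg c (by linarith [hc.1])
  rw [eq_div_iff (by linarith)] at hc'
  simp only [nd]
  nlinarith

theorem Dn.nd_of_deriv {n : ℕ} : ∀ {f g : ℝ → ℝ}, (∀ t, 0 < t → HasDerivAt f (-g t) t) →
    Dn n g → ∀ h, 0 < h → Dn n (nd h f) := by
  induction n with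
  | zero => exact fun hd hg h hh t ht => nd_nonneg_of_deriv hd hg hh ht
  | succ n ih =>
    intro f g hd hg h hh
    refine ⟨fun t ht => nd_nonneg_of_deriv hd hg.1 hh ht, fun k hk => ?_⟩
    have : ∀ t, 0 < t → HasDerivAt (nd k f) (-nd k g t) t := fun t ht => by
      have h1 := (hd t ht).sub ((hd (t + k) (by linarith)).comp_add_const t k)
      have : -nd k g t = -g t - -g (t + k) := by simp only [nd]; ring
      rw [this]; exact h1
    refine (ih this (hg.2 k hk) h hh).congr fun t _ => ?_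
    simp only [nd]; ring_nf

theorem Dn.of_deriv {n : ℕ} {f g : ℝ → ℝ} (h0 : ∀ t, 0 < t → 0 ≤ f t)
    (hd : ∀ t, 0 < t → HasDerivAt f (-g t) t) (hg : Dn n g) : Dn (n + 1) f :=
  ⟨h0, hg.nd_of_deriv hd⟩

theorem DC.of_deriv {f g : ℝ → ℝ} (h0 : ∀ t, 0 < t → 0 ≤ f t)
    (hd : ∀ t, 0 < t → HasDerivAt f (-g t) t) (hg : DC g) : DC f :=
  fun n => (Dn.of_deriv h0 hd (hg n)).pred

/-- If `f' = - g f` with `g` completely monotone and `f ≥ 0`. -/
theorem DC.of_deriv_mul {f g : ℝ → ℝ} (h0 : ∀ t, 0 < t → 0 ≤ f t)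
    (hd : ∀ t, 0 < t → HasDerivAt f (-(g t * f t)) t) (hg : DC g) : DC f := by
  intro n
  induction n with
  | zero => exact h0
  | succ n ih => exact Dn.of_deriv h0 hd ((hg n).mul ih)

theorem DC.neg_deriv {f g : ℝ → ℝ} (hf : DC f) (hd : ∀ t, 0 < t → HasDerivAt f (-g t) t) :
    DC g := by
  intro n
  refine Dn.lim (l := 𝓝[>] (0 : ℝ)) (F := fun h t => h⁻¹ * nd h f t) ?_ fun t ht => ?_
  · filter_upwards [self_mem_nhdsWithin] with h hh
    exact (Dn.const (inv_nonneg.2 (le_of_lt hh))).mul ((hf (n + 1)).2 h hh)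
  · have := (hd t ht).tendsto_slope_zero_right.neg
    rw [neg_neg] at this
    refine this.congr fun h => ?_
    simp only [nd, smul_eq_mul]; ring

theorem DC.nd {f : ℝ → ℝ} (hf : DC f) {h : ℝ} (hh : 0 < h) : DC (nd h f) :=
  fun n => (hf (n + 1)).2 h hh

theorem DC.mul {f g : ℝ → ℝ} (hf : DC f) (hg : DC g) : DC (fun t => f t * g t) :=
  fun n => (hf n).mul (hg n)

theorem DC.congr {f g : ℝ → ℝ} (hf : DC f) (hg : ∀ t, 0 < t → g t = f t) : DC g :=
  fun n => (hf n).congr hg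

theorem DC.const {c : ℝ} (hc : 0 ≤ c) : DC (fun _ => c) := fun _ => Dn.const hc

theorem DC.nonneg {f : ℝ → ℝ} (hf : DC f) {t : ℝ} (ht : 0 < t) : 0 ≤ f t := (hf 0) t ht

theorem DC.shift {f : ℝ → ℝ} (hf : DC f) {v : ℝ} (hv : 0 ≤ v) : DC (fun t => f (t + v)) :=
  fun n => (hf n).shift hv

theorem DC.integral {α : Type*} [MeasurableSpace α] {μ : Measure α} {F : α → ℝ → ℝ}
    (hF : ∀ᵐ u ∂μ, DC (F u)) (hi : ∀ t, 0 < t → Integrable (fun u => F u t) μ) :
    DC (fun t => ∫ u, F u t ∂μ) :=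
  fun n => Dn.integral (hF.mono fun _ hu => hu n) hi

theorem DC.exp_neg {s : ℝ} (hs : 0 ≤ s) : DC (fun t => Real.exp (-(t * s))) := by
  refine DC.of_deriv_mul (g := fun _ => s) (fun t _ => (Real.exp_pos _).le) (fun t _ => ?_)
    (DC.const hs)
  have := ((hasDerivAt_id t).mul_const s).neg.exp
  simp only [id, one_mul] at this
  refine this.congr_deriv ?_
  simp [mul_comm]

/-- `1 / (p + q t)`. -/
theorem DC.inv_affine {p q : ℝ} (hp : 0 ≤ p) (hq : 0 ≤ q) (hpq : 0 < p + q) :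
    DC (fun t => (p + q * t)⁻¹) := by
  have hpos : ∀ t, 0 < t → 0 < p + q * t := fun t ht => by
    rcases hq.eq_or_lt with h | h
    · subst h; simpa using hpq
    · nlinarith [mul_pos h ht]
  intro n
  induction n with
  | zero => exact fun t ht => (inv_pos.2 (hpos t ht)).le
  | succ n ih =>
    refine Dn.of_deriv (g := fun t => q * ((p + q * t)⁻¹ * (p + q * t)⁻¹))
      (fun t ht => (inv_pos.2 (hpos t ht)).le) (fun t ht => ?_) ((Dn.const hq).mul (ih.mul ih))
    have := (((hasDerivAt_id t).const_mul q).const_add p).inv (hpos t ht).ne'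
    refine this.congr_deriv ?_
    simp only [id]
    field_simp

theorem DC.rpow_neg {x : ℝ} (hx : 0 ≤ x) : DC (fun t => t ^ (-x)) := by
  refine DC.of_deriv_mul (g := fun t => x * (0 + 1 * t)⁻¹)
    (fun t ht => (Real.rpow_pos_of_pos ht _).le) (fun t ht => ?_)
    ((DC.const hx).mul (DC.inv_affine le_rfl zero_le_one (by norm_num)))
  have := Real.hasDerivAt_rpow_const (x := t) (p := -x) (Or.inl ht.ne')
  refine this.congr_deriv ?_
  rw [Real.rpow_sub_one ht.ne']
  field_simp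
  simp

/-- A tower of signed derivatives. -/
def Tower (g : ℕ → ℝ → ℝ) : Prop := ∀ k t, 0 < t → HasDerivAt (g k) (-g (k + 1) t) t

theorem Tower.dc {g : ℕ → ℝ → ℝ} (hg : Tower g) (h0 : DC (g 0)) (k : ℕ) : DC (g k) := by
  induction k with
  | zero => exact h0
  | succ k ih => exact ih.neg_deriv (hg k)

theorem Tower.comp {g : ℕ → ℝ → ℝ} (hg : Tower g) (h0 : ∀ k t, 0 < t → 0 ≤ g k t)
    {φ φ' : ℝ → ℝ} (hφ : ∀ t, 0 < t → 0 < φ t) (hd : ∀ t, 0 < t → HasDerivAt φ (φ' t) t)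
    (hφ' : DC φ') (k : ℕ) : DC (fun t => g k (φ t)) := by
  intro n
  induction n generalizing k with
  | zero => exact fun t ht => h0 k _ (hφ t ht)
  | succ n ih =>
    refine Dn.of_deriv (g := fun t => g (k + 1) (φ t) * φ' t) (fun t ht => h0 k _ (hφ t ht))
      (fun t ht => ?_) ((ih (k + 1)).mul (hφ' n))
    refine ((hg k _ (hφ t ht)).comp t (hd t ht)).congr_deriv ?_
    ring

theorem tower_of_contDiffOn {f : ℝ → ℝ} (hf : ContDiffOn ℝ (⊤ : ℕ∞) f (Ioi 0)) :
    Tower (fun k t => (-1) ^ k * iteratedDeriv k f t) := by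
  intro k t ht
  have h2 : DifferentiableAt ℝ (iteratedDeriv k f) t := by
    have h3 : DifferentiableOn ℝ (iteratedDerivWithin k f (Ioi 0)) (Ioi 0) :=
      hf.differentiableOn_iteratedDerivWithin (by exact_mod_cast ENat.natCast_lt_top k)
        (uniqueDiffOn_Ioi 0)
    refine (h3.differentiableAt (Ioi_mem_nhds ht)).congr_of_eventuallyEq ?_
    filter_upwards [Ioi_mem_nhds ht] with x hx
    exact (iteratedDerivWithin_of_isOpen isOpen_Ioi hx).symm
  refine (h2.hasDerivAt.const_mul ((-1 : ℝ) ^ k)).congr_deriv ?_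
  simp only [iteratedDeriv_succ]; ring

theorem complMono_iff {f : ℝ → ℝ} (hf : ContDiffOn ℝ (⊤ : ℕ∞) f (Ioi 0)) :
    ComplMono f ↔ DC f := by
  have hT := tower_of_contDiffOn hf
  constructor
  · intro h
    have := hT.comp h.2 (φ := id) (φ' := fun _ => 1) (fun t ht => ht)
      (fun t _ => hasDerivAt_id t) (DC.const zero_le_one) 0
    simpa using this
  · intro h
    exact ⟨hf, fun n t ht => (hT.dc (by simpa using h) n).nonneg ht⟩

/-- composition with `t ^ c`. -/
theorem DC.comp_rpow {f : ℝ → ℝ} (hf : ContDiffOn ℝ (⊤ : ℕ∞) f (Ioi 0)) (h : DC f) {c : ℝ}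
    (hc : 0 ≤ c) (hc1 : c ≤ 1) : DC (fun t => f (t ^ c)) := by
  have hT := tower_of_contDiffOn hf
  have := hT.comp ((complMono_iff hf).2 h).2 (φ := fun t => t ^ c)
    (φ' := fun t => c * t ^ (-(1 - c))) (fun t ht => Real.rpow_pos_of_pos ht _)
    (fun t ht => by
      have := Real.hasDerivAt_rpow_const (x := t) (p := c) (Or.inl ht.ne')
      rwa [show c - 1 = -(1 - c) by ring] at this)
    ((DC.const hc).mul (DC.rpow_neg (by linarith))) 0
  simpa using this

end Pool.Agent.Lib.MP_70615d_an
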