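import Mathlib
import Pool.Agent.Lib.MP_70615d_an.Disc

/-!
The normalised kernels `K a b t = (t^a - 1) / (a (t^b - 1))`.
-/

set_option autoImplicit false

namespace Pool.Agent.Lib.MP_70615d_an

open Filter Topology Set MeasureTheory

noncomputable def Ec (z : ℂ) : ℂ := dslope Complex.exp 0 z

noncomputable def E (x : ℝ) : ℝ := ∫ y in (0 : ℝ)..1, Real.exp (x * y)

theorem Ec_diff : Differentiable ℂ Ec :=
  differentiableOn_univ.1 ((Complex.differentiableOn_dslope univ_mem).2
    Complex.differentiable_exp.differentiableOn)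

theorem Ec_zero : Ec 0 = 1 := by simp [Ec]

theorem mul_Ec (z : ℂ) : z * Ec z = Complex.exp z - 1 := by
  simpa [Ec] using sub_smul_dslope Complex.exp 0 z

theorem Ec_eq_div {z : ℂ} (hz : z ≠ 0) : Ec z = (Complex.exp z - 1) / z := by
  rw [← mul_Ec]; field_simp

theorem Ec_integral (z : ℂ) : Ec z = ∫ y in (0 : ℝ)..1, Complex.exp (z * y) := by
  rcases eq_or_ne z 0 with rfl | hz
  · simp [Ec_zero]
  · rw [integral_exp_mul_complex hz, Ec_eq_div hz]; simp

theorem Ec_conj (z : ℂ) : Ec ((starRingEnd ℂ) z) = (starRingEnd ℂ) (Ec z) := by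
  rcases eq_or_ne z 0 with rfl | hz
  · simp [Ec_zero]
  · rw [Ec_eq_div hz, Ec_eq_div (by simpa using hz)]
    simp [Complex.exp_conj]

theorem Ec_ofReal (x : ℝ) : Ec x = E x := by
  rw [Ec_integral, E, ← intervalIntegral.integral_ofReal]; simp

theorem norm_Ec_le (z : ℂ) : ‖Ec z‖ ≤ E z.re := by
  rw [Ec_integral, E]
  refine (intervalIntegral.norm_integral_le_integral_norm zero_le_one).trans (le_of_eq ?_)
  simp [Complex.norm_exp]

theorem E_zero : E 0 = 1 := by simp [E]

theorem mul_E (x : ℝ) : x * E x = Real.exp x - 1 := by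
  have := mul_Ec x
  rw [Ec_ofReal] at this
  exact_mod_cast this

theorem E_mono : Monotone E := fun x x' h => by
  refine intervalIntegral.integral_mono_on zero_le_one (Continuous.intervalIntegrable (by fun_prop) _ _)
    (Continuous.intervalIntegrable (by fun_prop) _ _) fun y hy => ?_
  exact Real.exp_le_exp.2 (mul_le_mul_of_nonneg_right h hy.1)

theorem E_pos (x : ℝ) : 0 < E x :=
  intervalIntegral.intervalIntegral_pos_of_pos (Continuous.intervalIntegrable (by fun_prop) _ _)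
    (fun _ => Real.exp_pos _) one_pos

theorem E_le_exp (x : ℝ) : E x ≤ Real.exp (max x 0) := by
  have : E x ≤ ∫ _ in (0 : ℝ)..1, Real.exp (max x 0) := by
    refine intervalIntegral.integral_mono_on zero_le_one
      (Continuous.intervalIntegrable (by fun_prop) _ _) (by simp) fun y hy => ?_
    refine Real.exp_le_exp.2 ?_
    nlinarith [le_max_left x 0, le_max_right x 0, hy.1, hy.2]
  simpa using this

theorem E_contDiff : ContDiff ℝ (⊤ : ℕ∞) E := by
  have : E = fun x : ℝ => (Ec x).re := funext fun x => by simp [Ec_ofReal]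
  rw [this]
  exact Complex.reCLM.contDiff.comp
    (((Ec_diff.contDiff (n := (⊤ : ℕ∞))).restrict_scalars ℝ).comp Complex.ofRealCLM.contDiff)

theorem E_cont : Continuous E := E_contDiff.continuous

noncomputable def K (a b t : ℝ) : ℝ := E (a * Real.log t) / (b * E (b * Real.log t))

theorem K_pos {a b : ℝ} (hb : 0 < b) (t : ℝ) : 0 < K a b t :=
  div_pos (E_pos _) (mul_pos hb (E_pos _))

theorem log_mul_E (a : ℝ) {t : ℝ} (ht : 0 < t) :
    a * Real.log t * E (a * Real.log t) = t ^ a - 1 := by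
  rw [mul_E, Real.rpow_def_of_pos ht, mul_comm]

theorem K_one (a b : ℝ) : K a b 1 = 1 / b := by simp [K, E_zero]

theorem K_eq {a b t : ℝ} (hb : b ≠ 0) (ht : 0 < t) (ht1 : t ≠ 1) :
    K a b t = Real.log t * E (a * Real.log t) / (t ^ b - 1) := by
  have hl : Real.log t ≠ 0 := Real.log_ne_zero_of_pos_of_ne_one ht ht1
  have := (E_pos (b * Real.log t)).ne'
  rw [K, ← log_mul_E b ht]; field_simp

theorem mul_K {a b t : ℝ} (hb : b ≠ 0) (ht : 0 < t) (ht1 : t ≠ 1) :
    a * K a b t = (1 - t ^ a) / (1 - t ^ b) := by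
  rw [K_eq hb ht ht1, ← mul_div_assoc, ← mul_assoc, log_mul_E a ht, ← neg_div_neg_eq]
  simp

theorem kern_eq {a b r : ℝ} (hb : b ≠ 0) (hr : 0 < r) :
    kern (2 * a) (2 * b) r = a * K a b (r ^ 2) := by
  unfold kern
  split_ifs with h
  · subst h; rw [one_pow, K_one]; field_simp
  · rw [mul_K hb (by positivity) (by
      intro h1; exact h (by nlinarith)), ← Real.rpow_natCast, ← Real.rpow_mul hr.le,
      ← Real.rpow_mul hr.le]
    norm_num

theorem kern_zero {α β : ℝ} (hα : α ≠ 0) (hβ : β ≠ 0) : kern α β 0 = 1 := by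
  simp [kern, Real.zero_rpow hα, Real.zero_rpow hβ]

theorem logKern_eq {b t : ℝ} (hb : b ≠ 0) (ht : 0 < t) : logKern b t = K 0 b t := by
  unfold logKern
  split_ifs with h
  · rw [h, K_one]
  · rw [K_eq hb ht h]; simp [E_zero]

theorem K_contDiffOn (a : ℝ) {b : ℝ} (hb : b ≠ 0) : ContDiffOn ℝ (⊤ : ℕ∞) (K a b) (Ioi 0) := by
  have hl : ContDiffOn ℝ (⊤ : ℕ∞) Real.log (Ioi 0) :=
    Real.contDiffOn_log.mono fun x hx => ne_of_gt hx
  exact (E_contDiff.comp_contDiffOn (contDiffOn_const.mul hl)).div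
    (contDiffOn_const.mul (E_contDiff.comp_contDiffOn (contDiffOn_const.mul hl)))
    fun x _ => mul_ne_zero hb (E_pos _).ne'

theorem K_contAt {a b t : ℝ} (hb : b ≠ 0) (ht : 0 < t) :
    ContinuousAt (fun p : ℝ × ℝ × ℝ => K p.1 p.2.1 p.2.2) (a, b, t) := by
  have hl : ContinuousAt (fun p : ℝ × ℝ × ℝ => Real.log p.2.2) (a, b, t) :=
    ContinuousAt.log (by fun_prop) ht.ne'
  exact (E_cont.continuousAt.comp (continuousAt_fst.mul hl)).div
    ((by fun_prop : ContinuousAt (fun p : ℝ × ℝ × ℝ => p.2.1) (a, b, t)).mul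
      (E_cont.continuousAt.comp ((by fun_prop : ContinuousAt (fun p : ℝ × ℝ × ℝ => p.2.1)
        (a, b, t)).mul hl))) (mul_ne_zero hb (E_pos _).ne')

theorem K_rpow {b c t : ℝ} (hc : c ≠ 0) (ht : 0 < t) : K 0 b (t ^ c) = c * K 0 (c * b) t := by
  simp only [K, Real.log_rpow ht, zero_mul]
  rw [show b * (c * Real.log t) = c * b * Real.log t by ring]
  field_simp

theorem DC_K01 : DC (K 0 1) := by
  have h1 : DC fun t => ∫ x in Ioc (0 : ℝ) 1, ((1 - x) + x * t)⁻¹ := by
    refine DC.integral ?_ fun t ht => ?_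
    · filter_upwards [ae_restrict_mem measurableSet_Ioc] with x hx
      exact DC.inv_affine (by linarith [hx.2]) hx.1.le (by linarith)
    · refine (ContinuousOn.integrableOn_Icc ?_).mono_set Ioc_subset_Icc_self
      refine ContinuousOn.inv₀ (by fun_prop) fun x hx => ?_
      nlinarith [mul_nonneg hx.1 ht.le, hx.1, hx.2, mul_pos ht ht]
  refine h1.congr fun t ht => ?_
  rw [← intervalIntegral.integral_of_le zero_le_one]
  rcases eq_or_ne t 1 with rfl | h
  · simp [K_one]
  have hpos : ∀ x ∈ uIcc (0 : ℝ) 1, 0 < 1 - x + x * t := fun x hx => by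
    rw [uIcc_of_le zero_le_one] at hx
    rcases hx.1.eq_or_lt with h0 | h0
    · simp [← h0]
    · nlinarith [mul_pos h0 ht, hx.2]
  have h2 : t - 1 ≠ 0 := sub_ne_zero.2 h
  rw [intervalIntegral.integral_eq_sub_of_hasDerivAt
    (f := fun x => Real.log (1 - x + x * t) / (t - 1)), K_eq one_ne_zero ht h]
  · simp [E_zero]
  · intro x hx
    have := ((((hasDerivAt_id x).const_sub 1).add ((hasDerivAt_id x).mul_const t)).log
      (hpos x hx).ne').div_const (t - 1)
    refine this.congr_deriv ?_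
    have := (hpos x hx).ne'
    simp only [id, Pi.add_apply]
    field_simp
    ring
  · exact (ContinuousOn.inv₀ (by fun_prop) fun x hx => (hpos x hx).ne').intervalIntegrable

theorem DC_K0_down {b b' : ℝ} (h : DC (K 0 b)) (hb' : 0 < b') (hbb : b' ≤ b) : DC (K 0 b') := by
  have hb : 0 < b := hb'.trans_le hbb
  have hc : 0 < b' / b := by positivity
  have := (DC.const (inv_pos.2 hc).le).mul
    (h.comp_rpow (K_contDiffOn 0 hb.ne') hc.le ((div_le_one hb).2 hbb))
  refine this.congr fun t ht => ?_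
  rw [K_rpow hc.ne' ht, div_mul_cancel₀ _ hb.ne']
  field_simp

theorem DC_K0_of {a b : ℝ} (h : DC (K a b)) (ha : 0 ≤ a) (ha1 : a ≤ 1) : DC (K 0 b) := by
  rcases ha.eq_or_lt with rfl | ha
  · exact h
  refine (h.mul ((DC.const ha.le).mul (DC_K0_down DC_K01 ha ha1))).congr fun t _ => ?_
  have := (E_pos (a * Real.log t)).ne'
  simp only [K, zero_mul, E_zero]
  generalize E (a * Real.log t) = u at this
  field_simp

theorem K_le_inv {a b t : ℝ} (hb : 0 < b) (hab : a ≤ b) (ht : 1 ≤ t) : K a b t ≤ 1 / b := by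
  rw [K, div_le_div_iff₀ (mul_pos hb (E_pos _)) hb, one_mul, mul_comm]
  exact mul_le_mul_of_nonneg_left
    (E_mono (mul_le_mul_of_nonneg_right hab (Real.log_nonneg ht))) hb.le

theorem K_le_log {a b t : ℝ} (ha : 0 ≤ a) (hb : 0 < b) (ht : 0 < t) (ht1 : t < 1) :
    K a b t ≤ -Real.log t / (1 - t ^ b) := by
  have hl := Real.log_neg ht ht1
  have h1 : t ^ b < 1 := Real.rpow_lt_one ht.le ht1 hb
  rw [K_eq hb.ne' ht ht1.ne, ← neg_div_neg_eq, neg_sub]
  refine div_le_div_of_nonneg_right ?_ (by linarith)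
  have : E (a * Real.log t) ≤ 1 := E_zero ▸ E_mono (by nlinarith)
  nlinarith

theorem K_le_sing {a b t w : ℝ} (ha : 0 ≤ a) (ha1 : a ≤ 1) (hb : 1 ≤ b) (hw : 0 < w)
    (ht : w ^ 4 ≤ t) : K a b t ≤ 1 + 4 / w := by
  have ht0 : 0 < t := lt_of_lt_of_le (by positivity) ht
  have h4 : 0 < 4 / w := by positivity
  rcases le_or_gt 1 t with h | h
  · have := K_le_inv (by linarith : 0 < b) (ha1.trans hb) h
    have : 1 / b ≤ 1 := by rw [div_le_one (by linarith)]; exact hb
    linarith
  refine (K_le_log ha (by linarith) ht0 h).trans ?_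
  have h1 : t ^ b ≤ t := by
    simpa using Real.rpow_le_rpow_of_exponent_ge ht0 h.le hb
  set v := t ^ (1 / 4 : ℝ) with hv
  have hv0 : 0 < v := Real.rpow_pos_of_pos ht0 _
  have hv4 : v ^ 4 = t := by
    rw [hv, ← Real.rpow_natCast, ← Real.rpow_mul ht0.le]; norm_num
  have hwv : w ≤ v := by
    refine le_of_not_gt fun hc => ?_
    have := pow_lt_pow_left₀ hc hv0.le (by norm_num : (4 : ℕ) ≠ 0)
    linarith
  have hv1 : t ≤ v := by
    have := Real.rpow_le_rpow_of_exponent_ge ht0 h.le (by norm_num : (1 / 4 : ℝ) ≤ 1)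
    rwa [Real.rpow_one] at this
  have h2 : -Real.log t ≤ 4 * (v⁻¹ - 1) := by
    have := Real.log_le_sub_one_of_pos (inv_pos.2 hv0)
    rw [Real.log_inv] at this
    rw [← hv4, Real.log_pow]; push_cast; linarith
  have h3 : -Real.log t / (1 - t ^ b) ≤ 4 / v := by
    rw [div_le_div_iff₀ (by linarith) hv0]
    have : v⁻¹ * v = 1 := inv_mul_cancel₀ hv0.ne'
    nlinarith
  have : 4 / v ≤ 4 / w := div_le_div_of_nonneg_left (by norm_num) hw hwv
  linarith

theorem mul_K_le_one {a b t : ℝ} (ha : 0 < a) (hab : a ≤ b) (ht : 0 < t) : a * K a b t ≤ 1 := by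
  have hb : 0 < b := ha.trans_le hab
  rcases le_or_gt 1 t with h | h
  · have := mul_le_mul_of_nonneg_left (K_le_inv hb hab h) ha.le
    refine this.trans ?_
    rw [mul_one_div, div_le_one hb]; exact hab
  · rw [mul_K hb.ne' ht h.ne, div_le_one (by linarith [Real.rpow_lt_one ht.le h hb])]
    linarith [Real.rpow_le_rpow_of_exponent_ge ht h.le hab]

end Pool.Agent.Lib.MP_70615d_an
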