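import Mathlib

/-!
A residue theorem for the strip `|Im z| ≤ π`.
-/

set_option autoImplicit false

namespace Pool.Agent.Lib.MP_70615d_an

open Filter Topology Set MeasureTheory Complex

theorem exp_ne_of_strip {z p : ℂ} (hz : |z.im| ≤ Real.pi) (hp : |p.im| < Real.pi) (h : z ≠ p) :
    cexp z - cexp p ≠ 0 := by
  intro h0
  obtain ⟨n, hn⟩ := Complex.exp_eq_exp_iff_exists_int.1 (sub_eq_zero.1 h0)
  have h1 := congrArg Complex.im hn
  simp at h1
  have h2 := abs_le.1 hz
  have h3 := abs_lt.1 hp
  have hpi := Real.pi_pos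
  have h4 : (n : ℝ) < 1 := by nlinarith
  have h5 : (-1 : ℝ) < n := by nlinarith
  have h6 : n = 0 := by
    have a : n < 1 := by exact_mod_cast h4
    have b : -1 < n := by exact_mod_cast h5
    omega
  apply h; simpa [h6] using hn

theorem tendsto_sub_div {f : ℂ → ℂ} {p d : ℂ} (hf : HasDerivAt f d p) (h0 : f p = 0) (hd : d ≠ 0) :
    Tendsto (fun z => (z - p) / f z) (𝓝[≠] p) (𝓝 d⁻¹) := by
  have := (hasDerivAt_iff_tendsto_slope.1 hf).inv₀ hd
  refine this.congr fun z => ?_
  simp [slope_def_field, h0]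

theorem strip_residue {H : ℂ → ℂ} (P : Finset ℂ) (ρ : ℂ → ℂ)
    (hP : ∀ p ∈ P, |p.im| < Real.pi)
    (hd : ∀ z : ℂ, |z.im| ≤ Real.pi → z ∉ P → DifferentiableAt ℂ H z)
    (hρ : ∀ p ∈ P, Tendsto (fun z => (z - p) * H z) (𝓝[≠] p) (𝓝 (ρ p)))
    (hi : Integrable fun x : ℝ => H (x - Real.pi * I) - H (x + Real.pi * I))
    {β : ℝ → ℝ} (hβ : Tendsto β atTop (𝓝 0))
    (hv : ∀ᶠ R : ℝ in atTop, ∀ y : ℝ, |y| ≤ Real.pi →
      ‖H (R + y * I)‖ ≤ β R ∧ ‖H (-R + y * I)‖ ≤ β R) :
    ∫ x : ℝ, (H (x - Real.pi * I) - H (x + Real.pi * I)) = 2 * Real.pi * I * ∑ p ∈ P, ρ p := by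
  classical
  have hpi := Real.pi_pos
  set Q : ℂ → ℂ → ℂ := fun p z => cexp z / (cexp z - cexp p) with hQ
  set G : ℂ → ℂ := fun z => H z - ∑ p ∈ P, ρ p * Q p z with hG
  set G' : ℂ → ℂ := fun z => if z ∈ P then limUnder (𝓝[≠] z) G else G z with hG'
  have hQd : ∀ p ∈ P, ∀ z : ℂ, |z.im| ≤ Real.pi → z ≠ p → DifferentiableAt ℂ (Q p) z :=
    fun p hp z hz h => (differentiable_exp z).div (by fun_prop) (exp_ne_of_strip hz (hP p hp) h)
  have hGd : ∀ z : ℂ, |z.im| ≤ Real.pi → z ∉ P → DifferentiableAt ℂ G z := fun z hz h =>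
    (hd z hz h).sub (DifferentiableAt.fun_sum fun p hp =>
      (hQd p hp z hz (fun e => h (e ▸ hp))).const_mul _)
  have hnot : ∀ z : ℂ, ∀ᶠ w in 𝓝[≠] z, w ∉ P := fun z => by
    have h1 : ∀ᶠ w in 𝓝 z, w ∉ P.erase z :=
      (P.erase z).finite_toSet.isClosed.isOpen_compl.mem_nhds (by simp)
    filter_upwards [nhdsWithin_le_nhds h1, self_mem_nhdsWithin] with w hw hw' hP'
    exact hw (Finset.mem_erase.2 ⟨hw', hP'⟩)
  have hG'd : ∀ z : ℂ, |z.im| ≤ Real.pi → z ∉ P → DifferentiableAt ℂ G' z := fun z hz h => by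
    refine (hGd z hz h).congr_of_eventuallyEq ?_
    filter_upwards [P.finite_toSet.isClosed.isOpen_compl.mem_nhds h] with w hw
    have hw' : w ∉ P := hw
    simp only [hG']; rw [if_neg hw']
  have hG'c : ∀ z : ℂ, |z.im| ≤ Real.pi → ContinuousAt G' z := fun z hz => by
    by_cases h : z ∈ P
    swap
    · exact (hG'd z hz h).continuousAt
    have hstrip : ∀ᶠ w in 𝓝 z, |w.im| < Real.pi :=
      (continuous_abs.comp continuous_im).continuousAt.eventually_lt continuousAt_const (hP z h)
    have h1 : Tendsto (fun w => (w - z) * G w) (𝓝[≠] z) (𝓝 0) := by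
      have h2 : ∀ p ∈ P, Tendsto (fun w => ρ p * ((w - z) * Q p w)) (𝓝[≠] z)
          (𝓝 (ρ p * if p = z then 1 else 0)) := fun p hp => by
        refine Tendsto.const_mul _ ?_
        split_ifs with e
        · subst e
          have h3 := tendsto_sub_div (f := fun w => cexp w - cexp p)
            ((Complex.hasDerivAt_exp p).sub_const _) (sub_self _) (exp_ne_zero p)
          have h4 : Tendsto cexp (𝓝[≠] p) (𝓝 (cexp p)) :=
            continuous_exp.continuousAt.mono_left nhdsWithin_le_nhds
          have := h3.mul h4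
          rw [inv_mul_cancel₀ (exp_ne_zero p)] at this
          refine this.congr fun w => ?_
          simp only [hQ]; ring
        · have h3 : ContinuousAt (fun w => (w - z) * Q p w) z :=
            (by fun_prop : ContinuousAt (fun w => w - z) z).mul
              (hQd p hp z hz (Ne.symm e)).continuousAt
          simpa using h3.tendsto.mono_left nhdsWithin_le_nhds
      have h3 := (hρ z h).sub (tendsto_finsetSum P h2)
      simp only [mul_ite, mul_one, mul_zero, Finset.sum_ite_eq', h, if_true, sub_self] at h3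
      refine h3.congr fun w => ?_
      simp only [hG, mul_sub, Finset.mul_sum]
      congr 1
      exact Finset.sum_congr rfl fun p _ => by ring
    have h2 : Tendsto G (𝓝[≠] z) (𝓝 (limUnder (𝓝[≠] z) G)) := by
      refine tendsto_limUnder_of_differentiable_on_punctured_nhds_of_isLittleO ?_ ?_
      · filter_upwards [hnot z, nhdsWithin_le_nhds hstrip] with w hw hw'
        exact hGd w hw'.le hw
      · refine Asymptotics.isLittleO_of_tendsto' ?_ ?_
        · filter_upwards [self_mem_nhdsWithin] with w hw h0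
          exact absurd (sub_eq_zero.1 (inv_eq_zero.1 h0)) hw
        · have h3 : Tendsto (fun w => (w - z) * G z) (𝓝[≠] z) (𝓝 0) := by
            have : ContinuousAt (fun w => (w - z) * G z) z := by fun_prop
            simpa using this.tendsto.mono_left nhdsWithin_le_nhds
          have := h1.sub h3
          rw [sub_zero] at this
          refine this.congr fun w => ?_
          rw [div_inv_eq_mul]; ring
    rw [← continuousWithinAt_compl_self, ContinuousWithinAt]
    have : G' z = limUnder (𝓝[≠] z) G := by simp only [hG']; rw [if_pos h]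
    rw [this]
    refine h2.congr' ?_
    filter_upwards [hnot z] with w hw
    simp only [hG']; rw [if_neg hw]
  set S := ∑ p ∈ P, ρ p
  -- the vertical sides
  set γ : ℝ → ℝ := fun R => β R + ∑ p ∈ P, ‖ρ p‖ *
    (‖cexp p‖ / (Real.exp R - ‖cexp p‖) + Real.exp (-R) / (‖cexp p‖ - Real.exp (-R))) with hγ
  have hγ0 : Tendsto γ atTop (𝓝 0) := by
    have : ∀ p ∈ P, Tendsto (fun R => ‖ρ p‖ * (‖cexp p‖ / (Real.exp R - ‖cexp p‖) +
        Real.exp (-R) / (‖cexp p‖ - Real.exp (-R)))) atTop (𝓝 0) := fun p _ => by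
      have a := (tendsto_atTop_add_const_right _ (-‖cexp p‖) Real.tendsto_exp_atTop).const_div_atTop
        ‖cexp p‖
      have b := Real.tendsto_exp_neg_atTop_nhds_zero.div
        (Real.tendsto_exp_neg_atTop_nhds_zero.const_sub ‖cexp p‖) (by simp)
      simpa [sub_eq_add_neg] using (a.add b).const_mul ‖ρ p‖
    simpa using hβ.add (tendsto_finsetSum P this)
  have hbig : ∀ᶠ R : ℝ in atTop, ∀ p ∈ P, |p.re| < R :=
    (eventually_all_finset P).2 fun p _ => eventually_gt_atTop _
  have hcont : ∀ (f : ℝ → ℂ), Continuous f → (∀ x, |(f x).im| ≤ Real.pi) →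
      Continuous fun x => G' (f x) := fun f hf h =>
    continuous_iff_continuousAt.2 fun x => (hG'c _ (h x)).comp hf.continuousAt
  have main : ∀ᶠ R : ℝ in atTop, ‖(∫ x in -R..R, (H (x - Real.pi * I) - H (x + Real.pi * I))) -
      2 * Real.pi * I * S‖ ≤ 4 * Real.pi * γ R := by
    filter_upwards [hv, hbig, eventually_gt_atTop 0] with R hvR hR hR0
    have key := integral_boundary_rect_eq_zero_of_differentiable_on_off_countable G'
      ⟨-R, -Real.pi⟩ ⟨R, Real.pi⟩ P P.countable_toSet
      (fun z hz => (hG'c z (by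
        have := (mem_reProdIm.1 hz).2
        rw [uIcc_of_le (by simp only; linarith)] at this
        exact abs_le.2 this)).continuousWithinAt)
      (fun z hz => hG'd z (by
        have := (mem_reProdIm.1 hz.1).2
        simp only [min_eq_left (by linarith : -Real.pi ≤ Real.pi),
          max_eq_right (by linarith : -Real.pi ≤ Real.pi)] at this
        exact (abs_lt.2 this).le) hz.2)
    simp only [smul_eq_mul] at key
    have hb1 : ∀ x : ℝ, |((x : ℂ) + ((-Real.pi : ℝ) : ℂ) * I).im| ≤ Real.pi := fun x => by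
      simp [abs_of_pos hpi]
    have hb2 : ∀ x : ℝ, |((x : ℂ) + (Real.pi : ℂ) * I).im| ≤ Real.pi := fun x => by
      simp [abs_of_pos hpi]
    rw [← intervalIntegral.integral_sub
      ((hcont (fun x : ℝ => (x : ℂ) + ((-Real.pi : ℝ) : ℂ) * I) (by fun_prop) hb1).intervalIntegrable _ _)
      ((hcont (fun x : ℝ => (x : ℂ) + (Real.pi : ℂ) * I) (by fun_prop) hb2).intervalIntegrable _ _)]
      at key
    have e1 : ∀ x : ℝ, G' (x + ((-Real.pi : ℝ) : ℂ) * I) - G' (x + (Real.pi : ℂ) * I) =
        H (x - Real.pi * I) - H (x + Real.pi * I) := fun x => by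
      have n1 : (x : ℂ) + ((-Real.pi : ℝ) : ℂ) * I ∉ P := fun h => by
        simpa [abs_of_pos hpi] using hP _ h
      have n2 : (x : ℂ) + (Real.pi : ℂ) * I ∉ P := fun h => by
        simpa [abs_of_pos hpi] using hP _ h
      have e : (x : ℂ) + ((-Real.pi : ℝ) : ℂ) * I = x - Real.pi * I := by push_cast; ring
      simp only [hG']
      rw [if_neg n1, if_neg n2, e]
      simp only [hG, hQ, Complex.exp_sub, Complex.exp_add, exp_pi_mul_I, div_neg, div_one, mul_neg,
        mul_one]
      ring
    simp only [e1] at key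
    have hnP : ∀ (σ y : ℝ), |σ| = R → (σ : ℂ) + y * I ∉ P := fun σ y hσ h => by
      have := hR _ h
      simp [hσ] at this
    have hexp : ∀ p ∈ P, Real.exp (-R) < ‖cexp p‖ ∧ ‖cexp p‖ < Real.exp R := fun p hp => by
      rw [Complex.norm_exp]
      have := abs_lt.1 (hR p hp)
      exact ⟨Real.exp_lt_exp.2 this.1, Real.exp_lt_exp.2 this.2⟩
    have hr : ∀ y ∈ uIoc (-Real.pi) Real.pi, ‖G' (R + y * I) + S‖ ≤ γ R := fun y hy => by
      rw [uIoc_of_le (by linarith)] at hy
      simp only [hG']
      rw [if_neg (hnP R y (abs_of_pos hR0))]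
      have : G (R + y * I) + S = H (R + y * I) + ∑ p ∈ P, ρ p * (1 - Q p (R + y * I)) := by
        simp only [hG, S, mul_sub, Finset.sum_sub_distrib, mul_one]; ring
      rw [this]
      refine (norm_add_le _ _).trans (add_le_add (hvR y (abs_le.2 ⟨hy.1.le, hy.2⟩)).1
        ((norm_sum_le _ _).trans (Finset.sum_le_sum fun p hp => ?_)))
      rw [norm_mul]
      refine mul_le_mul_of_nonneg_left ?_ (norm_nonneg _)
      obtain ⟨a, b⟩ := hexp p hp
      have c : Real.exp R - ‖cexp p‖ ≤ ‖cexp (R + y * I) - cexp p‖ := by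
        refine le_trans ?_ (norm_sub_norm_le _ _)
        simp [Complex.norm_exp]
      have d : cexp (R + y * I) - cexp p ≠ 0 := norm_pos_iff.1 (by linarith)
      have e : 1 - Q p (R + y * I) = -cexp p / (cexp (R + y * I) - cexp p) := by
        simp only [hQ]; field_simp; ring
      rw [e, norm_div, norm_neg]
      refine le_add_of_le_of_nonneg (div_le_div_of_nonneg_left (norm_nonneg _) (by linarith) c)
        (div_nonneg (Real.exp_pos _).le (by linarith))
    have hl : ∀ y ∈ uIoc (-Real.pi) Real.pi, ‖G' (((-R : ℝ) : ℂ) + y * I)‖ ≤ γ R := fun y hy => by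
      rw [uIoc_of_le (by linarith)] at hy
      simp only [hG']
      rw [if_neg (hnP (-R) y (by rw [abs_neg, abs_of_pos hR0]))]
      simp only [hG]
      refine (norm_sub_le _ _).trans (add_le_add
        (by simpa using (hvR y (abs_le.2 ⟨hy.1.le, hy.2⟩)).2)
        ((norm_sum_le _ _).trans (Finset.sum_le_sum fun p hp => ?_)))
      rw [norm_mul]
      refine mul_le_mul_of_nonneg_left ?_ (norm_nonneg _)
      obtain ⟨a, b⟩ := hexp p hp
      have n : ‖cexp (((-R : ℝ) : ℂ) + y * I)‖ = Real.exp (-R) := by simp [Complex.norm_exp]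
      have c : ‖cexp p‖ - Real.exp (-R) ≤ ‖cexp (((-R : ℝ) : ℂ) + y * I) - cexp p‖ := by
        rw [norm_sub_rev, ← n]; exact norm_sub_norm_le _ _
      simp only [hQ]
      rw [norm_div, n]
      refine le_add_of_nonneg_of_le (div_nonneg (norm_nonneg _) (by linarith))
        (div_le_div_of_nonneg_left (Real.exp_pos _).le (by linarith) c)
    have i1 := intervalIntegral.norm_integral_le_of_norm_le_const hr
    have i2 := intervalIntegral.norm_integral_le_of_norm_le_const hl
    have hci : IntervalIntegrable (fun y : ℝ => G' (R + y * I)) volume (-Real.pi) Real.pi := by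
      refine ContinuousOn.intervalIntegrable fun y hy => ?_
      rw [uIcc_of_le (by linarith)] at hy
      refine ContinuousAt.continuousWithinAt ?_
      exact ContinuousAt.comp (g := G') (f := fun y : ℝ => (R : ℂ) + y * I)
        (hG'c _ (by simpa using abs_le.2 hy)) (by fun_prop)
    rw [intervalIntegral.integral_add hci intervalIntegrable_const,
      intervalIntegral.integral_const] at i1
    have e2 : (∫ x in -R..R, (H (x - Real.pi * I) - H (x + Real.pi * I))) - 2 * Real.pi * I * S =
        I * (∫ y in -Real.pi..Real.pi, G' (((-R : ℝ) : ℂ) + y * I)) -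
          I * ((∫ y in -Real.pi..Real.pi, G' (R + y * I)) + (Real.pi - -Real.pi) • S) := by
      rw [Complex.real_smul]; push_cast at key ⊢
      linear_combination key
    rw [e2]
    refine (norm_sub_le _ _).trans ?_
    rw [norm_mul, norm_mul, norm_I, one_mul, one_mul]
    rw [abs_of_pos (by linarith)] at i1 i2
    linarith
  have lim1 := intervalIntegral_tendsto_integral hi tendsto_neg_atTop_atBot tendsto_id
  have lim2 : Tendsto (fun R : ℝ => ∫ x in -R..R, (H (x - Real.pi * I) - H (x + Real.pi * I)))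
      atTop (𝓝 (2 * Real.pi * I * S)) := by
    rw [tendsto_iff_norm_sub_tendsto_zero]
    refine squeeze_zero' (Eventually.of_forall fun _ => norm_nonneg _) main ?_
    simpa using hγ0.const_mul (4 * Real.pi)
  exact tendsto_nhds_unique lim1 lim2

end Pool.Agent.Lib.MP_70615d_an
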