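import Mathlib
import Pool.Agent.Lib.MP_70615d_an.Kern
import Pool.Agent.Lib.MP_70615d_an.Strip

/-!
The Laplace representation of `K a b` for `2 < b < 4`.
-/

set_option autoImplicit false

namespace Pool.Agent.Lib.MP_70615d_an

open Filter Topology Set MeasureTheory Complex

noncomputable def F (a b : ℝ) (z : ℂ) : ℂ := Ec (a * z) / (b * Ec (b * z))

noncomputable def W (a b x : ℝ) : ℝ := (F a b (x - Real.pi * I)).im

noncomputable def pole (b : ℝ) : ℂ := ((2 * Real.pi / b : ℝ) : ℂ) * I

noncomputable def resid (a b : ℝ) : ℂ := pole b * Ec (a * pole b) / b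

noncomputable def mm (a b s : ℝ) : ℝ :=
  1 / Real.pi * (∫ x : ℝ, W a b x * (Real.exp x * Real.exp (-(s * Real.exp x)))) +
    2 * (resid a b * cexp (pole b) * cexp (cexp (pole b) * s)).re

noncomputable def dom (x : ℝ) : ℝ := (|x| + Real.pi) * Real.exp (-|x|)

theorem integrable_dom : Integrable dom := by
  refine (integrable_inv_one_add_sq.const_mul 40).mono' (by unfold dom; fun_prop)
    (Eventually.of_forall fun x => ?_)
  have h0 : 0 ≤ |x| := abs_nonneg x
  have hpi := Real.pi_lt_four
  have hpi' := Real.pi_pos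
  rw [dom, Real.norm_of_nonneg (by positivity), ← sq_abs x]
  generalize |x| = y at h0
  have h1 := Real.sum_le_exp_of_nonneg h0 4
  simp only [Finset.sum_range_succ, Finset.range_zero, Finset.sum_empty, Nat.factorial] at h1
  norm_num at h1
  rw [Real.exp_neg, ← div_eq_mul_inv, ← div_eq_mul_inv, div_le_div_iff₀ (Real.exp_pos _)
    (by positivity)]
  nlinarith [pow_nonneg h0 3, pow_nonneg h0 2]

theorem F_ofReal (a b x : ℝ) : F a b x = E (a * x) / (b * E (b * x)) := by
  rw [F, ← ofReal_mul, ← ofReal_mul, Ec_ofReal, Ec_ofReal]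

theorem F_eq (a : ℝ) {b : ℝ} (hb : b ≠ 0) {z : ℂ} (hz : z ≠ 0) :
    F a b z = z * Ec (a * z) / (cexp (b * z) - 1) := by
  have hb' : (b : ℂ) ≠ 0 := by exact_mod_cast hb
  rw [F, ← mul_Ec, mul_right_comm (b : ℂ) z, mul_comm z, mul_div_mul_right _ _ hz]

theorem F_conj (a b : ℝ) (z : ℂ) : F a b ((starRingEnd ℂ) z) = (starRingEnd ℂ) (F a b z) := by
  simp [F, ← Ec_conj]

theorem pole_im {b : ℝ} (hb : 2 < b) (hb4 : b < 4) :
    Real.pi / 2 < 2 * Real.pi / b ∧ 2 * Real.pi / b < Real.pi := by
  have := Real.pi_pos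
  constructor
  · rw [lt_div_iff₀ (by linarith)]; nlinarith
  · rw [div_lt_iff₀ (by linarith)]; nlinarith

theorem Ec_ne {b : ℝ} (hb : 2 < b) (hb4 : b < 4) {z : ℂ} (hz : |z.im| ≤ Real.pi)
    (h1 : z ≠ pole b) (h2 : z ≠ -pole b) : Ec (b * z) ≠ 0 := by
  have hb' : (b : ℂ) ≠ 0 := by exact_mod_cast (by linarith : b ≠ 0)
  intro h
  have h3 : cexp (b * z) = 1 := by rw [← sub_eq_zero, ← mul_Ec, h, mul_zero]
  obtain ⟨n, hn⟩ := Complex.exp_eq_one_iff.1 h3
  have h4 : z = n * pole b := by
    rw [pole]; push_cast; field_simp; linear_combination hn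
  obtain ⟨p1, p2⟩ := pole_im hb hb4
  have h5 : z.im = n * (2 * Real.pi / b) := by rw [h4, pole]; simp [-ofReal_div, -ofReal_mul]
  have h6 := abs_le.1 hz
  have hpi := Real.pi_pos
  have a : n < 2 := by
    have : (n : ℝ) < 2 := by nlinarith
    exact_mod_cast this
  have a' : -2 < n := by
    have : (-2 : ℝ) < n := by nlinarith
    exact_mod_cast this
  interval_cases n
  · exact h2 (by simpa using h4)
  · have : z = 0 := by simpa using h4
    simp [this, Ec_zero] at h
  · exact h1 (by simpa using h4)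

theorem F_diff (a : ℝ) {b : ℝ} (hb : 2 < b) (hb4 : b < 4) {z : ℂ} (hz : |z.im| ≤ Real.pi)
    (h1 : z ≠ pole b) (h2 : z ≠ -pole b) : DifferentiableAt ℂ (F a b) z := by
  have hb' : (b : ℂ) ≠ 0 := by exact_mod_cast (by linarith : b ≠ 0)
  have := Ec_diff
  exact DifferentiableAt.div (by fun_prop) (by fun_prop) (mul_ne_zero hb' (Ec_ne hb hb4 hz h1 h2))

theorem line_im (x : ℝ) : ((x : ℂ) - Real.pi * I).im = -Real.pi := by simp

theorem line_Ec_ne {b : ℝ} (hb : 2 < b) (hb4 : b < 4) (x : ℝ) :
    Ec (b * (x - Real.pi * I)) ≠ 0 := by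
  obtain ⟨p1, p2⟩ := pole_im hb hb4
  have hpi := Real.pi_pos
  refine Ec_ne hb hb4 (by rw [line_im, abs_neg, abs_of_pos hpi]) (fun h => ?_) (fun h => ?_)
  · have := congrArg Complex.im h
    rw [line_im, pole] at this
    simp [-ofReal_div, -ofReal_mul] at this
    linarith
  · have := congrArg Complex.im h
    rw [line_im, pole] at this
    simp [-ofReal_div, -ofReal_mul] at this
    linarith

theorem W_contAt {a b : ℝ} (hb : 2 < b) (hb4 : b < 4) (x : ℝ) :
    ContinuousAt (fun p : ℝ × ℝ × ℝ => W p.1 p.2.1 p.2.2) (a, b, x) := by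
  have hb' : (b : ℂ) ≠ 0 := by exact_mod_cast (by linarith : b ≠ 0)
  have := Ec_diff.continuous
  unfold W F
  exact continuous_im.continuousAt.comp (ContinuousAt.div (by fun_prop) (by fun_prop)
    (mul_ne_zero hb' (line_Ec_ne hb hb4 x)))

theorem W_cont (a : ℝ) {b : ℝ} (hb : 2 < b) (hb4 : b < 4) : Continuous (W a b) :=
  continuous_iff_continuousAt.2 fun x =>
    ContinuousAt.comp (f := fun x : ℝ => (a, b, x)) (W_contAt hb hb4 x) (by fun_prop)

theorem norm_num_le {a : ℝ} (ha : 0 ≤ a) (ha1 : a ≤ 1) {z : ℂ} (hz : |z.im| ≤ Real.pi) :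
    ‖z * Ec (a * z)‖ ≤ (|z.re| + Real.pi) * Real.exp (max z.re 0) := by
  rw [norm_mul]
  refine mul_le_mul ((Complex.norm_le_abs_re_add_abs_im z).trans (by linarith))
    ((norm_Ec_le _).trans ((E_le_exp _).trans (Real.exp_le_exp.2 ?_))) (norm_nonneg _)
    (by positivity)
  simp only [re_ofReal_mul]
  refine max_le ?_ (le_max_right _ _)
  nlinarith [le_max_left z.re 0, le_max_right z.re 0]

theorem normSq_line (b x : ℝ) : ‖cexp (b * (x - Real.pi * I)) - 1‖ ^ 2 =
    Real.exp (b * x) ^ 2 - 2 * Real.exp (b * x) * Real.cos (Real.pi * b) + 1 := by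
  rw [Complex.sq_norm, Complex.normSq_apply]
  simp only [sub_re, sub_im, exp_re, exp_im, one_re, one_im]
  have e1 : ((b : ℂ) * (x - Real.pi * I)).re = b * x := by simp
  have e2 : ((b : ℂ) * (x - Real.pi * I)).im = -(Real.pi * b) := by simp; ring
  rw [e1, e2, Real.cos_neg, Real.sin_neg]
  linear_combination Real.exp (b * x) ^ 2 * Real.sin_sq_add_cos_sq (Real.pi * b)

theorem W_bound {a b κ : ℝ} (ha : 0 ≤ a) (ha1 : a ≤ 1) (hb : 2 ≤ b) (hκ : 0 < κ)
    (hκb : κ ^ 2 ≤ (1 - Real.cos (Real.pi * b)) / 2) (x : ℝ) {v C : ℝ} (hv0 : 0 ≤ v)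
    (hv : v ≤ C * Real.exp (min x 0)) : |W a b x * v| ≤ C / κ * dom x := by
  have hpi := Real.pi_pos
  have hz : (x : ℂ) - Real.pi * I ≠ 0 := fun h => by
    have := congrArg Complex.im h
    rw [line_im] at this; simp at this
  have h1 := norm_num_le ha ha1 (z := x - Real.pi * I) (by rw [line_im, abs_neg, abs_of_pos hpi])
  have e : ((x : ℂ) - Real.pi * I).re = x := by simp
  rw [e] at h1
  have h2 : κ * Real.exp (2 * max x 0) ≤ ‖cexp (b * (x - Real.pi * I)) - 1‖ := by
    refine (sq_le_sq₀ (by positivity) (norm_nonneg _)).1 ?_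
    rw [normSq_line]
    set R := Real.exp (b * x)
    have hR : Real.exp (2 * max x 0) ^ 2 ≤ 1 + R ^ 2 := by
      rcases le_total x 0 with h | h
      · rw [max_eq_right h]; simp; positivity
      · rw [max_eq_left h]
        have : Real.exp (2 * x) ≤ R := Real.exp_le_exp.2 (by nlinarith)
        nlinarith [Real.exp_pos (2 * x)]
    have hR0 : 0 < R := Real.exp_pos _
    have hc := Real.neg_one_le_cos (Real.pi * b)
    have hc' := Real.cos_le_one (Real.pi * b)
    generalize Real.cos (Real.pi * b) = c at *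
    have : κ ^ 2 * Real.exp (2 * max x 0) ^ 2 ≤ (1 - c) / 2 * (1 + R ^ 2) :=
      mul_le_mul hκb hR (by positivity) (by linarith)
    nlinarith [mul_nonneg (by linarith : 0 ≤ 1 + c) (sq_nonneg (R - 1)),
      mul_nonneg (by linarith : 0 ≤ 1 - c) hR0.le]
  have h3 : |W a b x| ≤ (|x| + Real.pi) * Real.exp (max x 0) / (κ * Real.exp (2 * max x 0)) := by
    refine (Complex.abs_im_le_norm _).trans ?_
    rw [F_eq a (by linarith) hz, norm_div]
    exact div_le_div₀ (by positivity) h1 (by positivity) h2
  rw [abs_mul, abs_of_nonneg hv0]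
  refine (mul_le_mul h3 hv hv0 (by positivity)).trans (le_of_eq ?_)
  have : Real.exp (-|x|) = Real.exp (max x 0) * Real.exp (min x 0) / Real.exp (2 * max x 0) := by
    rw [← Real.exp_add, ← Real.exp_sub]
    congr 1
    rcases le_total x 0 with h | h
    · rw [max_eq_right h, min_eq_left h, abs_of_nonpos h]; ring
    · rw [max_eq_left h, min_eq_right h, abs_of_nonneg h]; ring
  rw [dom, this]
  field_simp

theorem cos_lt_one' {b : ℝ} (hb : 2 < b) (hb4 : b < 4) : Real.cos (Real.pi * b) < 1 := by
  have hpi := Real.pi_pos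
  rw [← Real.cos_sub_two_pi]
  refine (Real.cos_le_one _).lt_of_ne fun h => ?_
  have := (Real.cos_eq_one_iff_of_lt_of_lt (by nlinarith) (by nlinarith)).1 h
  nlinarith

theorem exists_kappa {b : ℝ} (hb : 2 < b) (hb4 : b < 4) :
    ∃ κ, 0 < κ ∧ κ ^ 2 < (1 - Real.cos (Real.pi * b)) / 2 := by
  have := cos_lt_one' hb hb4
  refine ⟨√((1 - Real.cos (Real.pi * b)) / 4), Real.sqrt_pos.2 (by linarith), ?_⟩
  rw [Real.sq_sqrt (by linarith)]; linarith

theorem wt1 {t : ℝ} (ht : 0 < t) (x : ℝ) :
    Real.exp x / (Real.exp x + t) ≤ (1 + 1 / t) * Real.exp (min x 0) := by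
  have := Real.exp_pos x
  rw [div_le_iff₀ (by positivity)]
  rcases le_total x 0 with h | h
  · rw [min_eq_left h]
    have : 1 / t * t = 1 := by field_simp
    have h2 : 0 < 1 / t := by positivity
    nlinarith [mul_pos h2 ‹0 < Real.exp x›]
  · rw [min_eq_right h, Real.exp_zero]
    have h2 : 0 < 1 / t := by positivity
    nlinarith [mul_pos h2 ‹0 < Real.exp x›, mul_pos h2 ht]

theorem wt2 {s s₁ : ℝ} (hs₁ : 0 < s₁) (hs : s₁ ≤ s) (x : ℝ) :
    Real.exp x * Real.exp (-(s * Real.exp x)) ≤ (1 + 1 / s₁) * Real.exp (min x 0) := by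
  have hx := Real.exp_pos x
  have h2 : 0 < 1 / s₁ := by positivity
  rcases le_total x 0 with h | h
  · rw [min_eq_left h]
    have : Real.exp (-(s * Real.exp x)) ≤ 1 := Real.exp_le_one_iff.2 (by nlinarith)
    nlinarith
  · rw [min_eq_right h, Real.exp_zero, Real.exp_neg, ← div_eq_mul_inv,
      div_le_iff₀ (Real.exp_pos _)]
    have h3 := Real.add_one_le_exp (s * Real.exp x)
    have : 1 / s₁ * s₁ = 1 := by field_simp
    have h4 : 1 / s₁ * (s₁ * Real.exp x) ≤ 1 / s₁ * Real.exp (s * Real.exp x) :=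
      mul_le_mul_of_nonneg_left (by nlinarith) h2.le
    nlinarith [Real.exp_pos (s * Real.exp x)]

theorem integrable_W {a b : ℝ} (ha : 0 ≤ a) (ha1 : a ≤ 1) (hb : 2 < b) (hb4 : b < 4) {v : ℝ → ℝ}
    (hv : Continuous v) (hv0 : ∀ x, 0 ≤ v x) {C : ℝ} (hC : ∀ x, v x ≤ C * Real.exp (min x 0)) :
    Integrable fun x => W a b x * v x := by
  obtain ⟨κ, hκ, hκ'⟩ := exists_kappa hb hb4
  exact (integrable_dom.const_mul (C / κ)).mono' ((W_cont a hb hb4).mul hv).aestronglyMeasurable
    (Eventually.of_forall fun x => W_bound ha ha1 hb.le hκ hκ'.le x (hv0 x) (hC x))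

theorem exp_pole_re {b : ℝ} (hb : 2 < b) (hb4 : b < 4) : (cexp (pole b)).re < 0 := by
  obtain ⟨p1, p2⟩ := pole_im hb hb4
  rw [pole, exp_ofReal_mul_I_re]
  exact Real.cos_neg_of_pi_div_two_lt_of_lt p1 (by linarith [Real.pi_pos])

theorem stieltjes {a b t : ℝ} (ha : 0 ≤ a) (ha1 : a ≤ 1) (hb : 2 < b) (hb4 : b < 4) (ht : 0 < t) :
    K a b t = 1 / Real.pi * (∫ x : ℝ, W a b x * (Real.exp x / (Real.exp x + t))) +
      2 * (resid a b * cexp (pole b) / (t - cexp (pole b))).re := by
  classical
  have hpi := Real.pi_pos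
  have hb0 : b ≠ 0 := by linarith
  have hb' : (b : ℂ) ≠ 0 := by exact_mod_cast hb0
  obtain ⟨p1, p2⟩ := pole_im hb hb4
  set θ := 2 * Real.pi / b with hθ
  have hp : pole b = (θ : ℂ) * I := rfl
  have hpim : (pole b).im = θ := by simp [hp]
  set u : ℂ := (Real.log t : ℂ) with hu
  have hut : cexp u = t := by rw [hu, ← ofReal_exp, Real.exp_log ht]
  have huim : u.im = 0 := Complex.ofReal_im _
  have n1 : u ≠ pole b := fun h => by rw [h, hpim] at huim; linarith
  have n2 : u ≠ -pole b := fun h => by rw [h, neg_im, hpim] at huim; linarith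
  have n3 : pole b ≠ -pole b := fun h => by
    have := congrArg Complex.im h; rw [neg_im, hpim] at this; linarith
  set H : ℂ → ℂ := fun z => F a b z * (cexp z / (cexp z - cexp u)) with hH
  set ρ : ℂ → ℂ := fun p => if p = u then F a b u else
    p * Ec (a * p) / b * (cexp p / (cexp p - cexp u)) with hρ
  have hline : ∀ x : ℝ, H (x - Real.pi * I) - H (x + Real.pi * I) =
      2 * I * (W a b x * (Real.exp x / (Real.exp x + t)) : ℝ) := fun x => by
    have e : (x : ℂ) + Real.pi * I = (starRingEnd ℂ) (x - Real.pi * I) := by simp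
    have e2 : F a b (x - Real.pi * I) - F a b (x + Real.pi * I) = 2 * I * (W a b x : ℝ) := by
      rw [e, F_conj, Complex.sub_conj, W]; push_cast; ring
    have e3 : -cexp x / (-cexp x - t) = cexp x / (cexp x + t) := by
      rw [← neg_div_neg_eq]; congr 1 <;> ring
    simp only [hH, Complex.exp_sub, Complex.exp_add, exp_pi_mul_I, div_neg, div_one, mul_neg,
      mul_one, hut, e3]
    rw [← sub_mul, e2]; push_cast; ring
  have hint := integrable_W ha ha1 hb hb4 (v := fun x => Real.exp x / (Real.exp x + t))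
    (Continuous.div (by fun_prop) (by fun_prop) fun x => by positivity) (fun x => by positivity)
    (wt1 ht)
  have key := strip_residue (H := H) {u, pole b, -pole b} ρ ?_ ?_ ?_ ?_
    (β := fun R => (4 + 4 / t) * ((R + Real.pi) * Real.exp (-R))) ?_ ?_
  · simp only [hline] at key
    rw [integral_const_mul, integral_complex_ofReal, Finset.sum_insert (by simp [n1, n2]),
      Finset.sum_insert (by simp [n3]), Finset.sum_singleton] at key
    simp only [hρ, if_true, if_neg n1.symm, if_neg n2.symm, hut] at key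
    have hc : -pole b = (starRingEnd ℂ) (pole b) := by simp [hp]
    have e : -pole b * Ec (a * -pole b) / b * (cexp (-pole b) / (cexp (-pole b) - t)) =
        (starRingEnd ℂ) (pole b * Ec (a * pole b) / b * (cexp (pole b) / (cexp (pole b) - t))) := by
      simp [hc, ← Ec_conj, ← Complex.exp_conj]
    rw [e, Complex.add_conj, hu, F_ofReal] at key
    have e2 : pole b * Ec (a * pole b) / b * (cexp (pole b) / (cexp (pole b) - t)) =
        -(resid a b * cexp (pole b) / (t - cexp (pole b))) := by
      rw [resid, ← neg_sub (t : ℂ), div_neg]; ring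
    rw [e2, neg_re] at key
    rw [← ofReal_mul, ← ofReal_div, ← K, ← ofReal_add] at key
    generalize (∫ x : ℝ, W a b x * (Real.exp x / (Real.exp x + t))) = A at key
    generalize (resid a b * cexp (pole b) / (t - cexp (pole b))).re = B at key
    have := congrArg Complex.im key
    simp at this
    field_simp
    linarith
  · intro p hp'
    simp only [Finset.mem_insert, Finset.mem_singleton] at hp'
    rcases hp' with rfl | rfl | rfl
    · rw [huim]; simpa using hpi
    · rw [hpim, abs_of_pos (by linarith)]; exact p2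
    · rw [neg_im, abs_neg, hpim, abs_of_pos (by linarith)]; exact p2
  · intro z hz hz'
    simp only [Finset.mem_insert, Finset.mem_singleton, not_or] at hz'
    exact (F_diff a hb hb4 hz hz'.2.1 hz'.2.2).mul ((differentiable_exp z).div (by fun_prop)
      (exp_ne_of_strip hz (by rw [huim]; simpa using hpi) hz'.1))
  · have hpole : ∀ p : ℂ, p ≠ 0 → p ≠ u → |p.im| ≤ Real.pi → cexp (b * p) = 1 →
        Tendsto (fun z => (z - p) * H z) (𝓝[≠] p) (𝓝 (ρ p)) := fun p h0 h1 h2 h3 => by
      have d : HasDerivAt (fun z : ℂ => cexp (b * z) - 1) b p := by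
        simpa [h3] using (((hasDerivAt_id p).const_mul (b : ℂ)).cexp).sub_const 1
      have t1 := tendsto_sub_div d (by simp [h3]) hb'
      have hE := Ec_diff.continuous
      have t2 : ContinuousAt (fun z : ℂ => z * Ec (a * z) * (cexp z / (cexp z - cexp u))) p :=
        ContinuousAt.mul (by fun_prop) (ContinuousAt.div (by fun_prop) (by fun_prop)
          (exp_ne_of_strip h2 (by rw [huim]; simpa using hpi) h1))
      have t3 := t1.mul (t2.tendsto.mono_left nhdsWithin_le_nhds)
      have : ρ p = (b : ℂ)⁻¹ * (p * Ec (a * p) * (cexp p / (cexp p - cexp u))) := by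
        simp only [hρ, if_neg h1]; ring
      rw [this]
      refine t3.congr' ?_
      filter_upwards [nhdsWithin_le_nhds (isOpen_ne.mem_nhds h0)] with z hz
      simp only [hH]
      rw [F_eq a hb0 hz]; ring
    have hbp : cexp (b * pole b) = 1 := by
      rw [hp, hθ]; push_cast
      rw [show (b : ℂ) * (2 * Real.pi / b * I) = 2 * Real.pi * I by field_simp]
      exact exp_two_pi_mul_I
    have hp0 : pole b ≠ 0 := fun h => by rw [h] at hpim; simp at hpim; linarith
    intro p hp'
    simp only [Finset.mem_insert, Finset.mem_singleton] at hp'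
    rcases hp' with rfl | rfl | rfl
    · have t1 := tendsto_sub_div (f := fun w => cexp w - cexp u)
        ((Complex.hasDerivAt_exp u).sub_const _) (sub_self _) (exp_ne_zero u)
      have t2 : ContinuousAt (fun z => F a b z * cexp z) u :=
        (F_diff a hb hb4 (by rw [huim]; simpa using hpi.le) n1 n2).continuousAt.mul (by fun_prop)
      have t3 := t1.mul (t2.tendsto.mono_left nhdsWithin_le_nhds)
      have : ρ u = (cexp u)⁻¹ * (F a b u * cexp u) := by
        simp only [hρ, if_true]; field_simp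
      rw [this]
      refine t3.congr fun z => ?_
      simp only [hH]; ring
    · exact hpole _ hp0 n1.symm (by rw [hpim, abs_of_pos (by linarith)]; exact p2.le) hbp
    · exact hpole _ (neg_ne_zero.2 hp0) n2.symm
        (by rw [neg_im, abs_neg, hpim, abs_of_pos (by linarith)]; exact p2.le)
        (by rw [mul_neg, Complex.exp_neg, hbp, inv_one])
  · simp only [hline]
    exact hint.ofReal.const_mul _
  · have h1 := Real.tendsto_pow_mul_exp_neg_atTop_nhds_zero 1
    have h2 := Real.tendsto_exp_neg_atTop_nhds_zero.const_mul Real.pi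
    simpa [add_mul] using (h1.add h2).const_mul (4 + 4 / t)
  · have ev1 : ∀ᶠ R : ℝ in atTop, 2 * t ≤ Real.exp R := Real.tendsto_exp_atTop.eventually_ge_atTop _
    have ev2 : ∀ᶠ R : ℝ in atTop, Real.exp (-R) ≤ t / 2 :=
      Real.tendsto_exp_neg_atTop_nhds_zero.eventually_le_const (by positivity)
    filter_upwards [ev1, ev2, eventually_ge_atTop 1] with R r1 r2 r3 y hy
    have hR := Real.exp_pos R
    have hR' := Real.exp_pos (-R)
    have hRR : Real.exp R * Real.exp (-R) = 1 := by rw [← Real.exp_add]; simp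
    have hR2 : 2 ≤ Real.exp R := by linarith [Real.add_one_le_exp R]
    have ht4 : 0 < 4 / t := by positivity
    constructor
    · have hz : (R : ℂ) + y * I ≠ 0 := fun h => by
        have := congrArg Complex.re h; simp at this; linarith
      have b1 := norm_num_le ha ha1 (z := R + y * I) (by simpa using hy)
      simp only [add_re, ofReal_re, mul_re, I_re, mul_zero, ofReal_im, I_im, mul_one, sub_self,
        add_zero, abs_of_pos (by linarith : 0 < R), max_eq_left (by linarith : 0 ≤ R)] at b1
      have b2 : Real.exp R ^ 2 / 2 ≤ ‖cexp (b * (R + y * I)) - 1‖ := by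
        refine le_trans ?_ (norm_sub_norm_le _ _)
        have : Real.exp R ^ 2 ≤ Real.exp (b * R) := by
          rw [← Real.exp_nat_mul]; exact Real.exp_le_exp.2 (by push_cast; nlinarith)
        simp [Complex.norm_exp]; nlinarith
      have n : ‖cexp (R + y * I)‖ = Real.exp R := by simp [Complex.norm_exp]
      have b3 : Real.exp R / 2 ≤ ‖cexp (R + y * I) - cexp u‖ := by
        refine le_trans ?_ (norm_sub_norm_le _ _)
        rw [n, hut, norm_real, Real.norm_of_nonneg ht.le]; linarith
      simp only [hH]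
      rw [F_eq a hb0 hz, norm_mul, norm_div, norm_div, n]
      refine (mul_le_mul (div_le_div₀ (by positivity) b1 (by positivity) b2)
        (div_le_div_of_nonneg_left hR.le (by positivity) b3) (by positivity) (by positivity)).trans ?_
      have : (R + Real.pi) * Real.exp R / (Real.exp R ^ 2 / 2) * (Real.exp R / (Real.exp R / 2)) =
          4 * ((R + Real.pi) * Real.exp (-R)) := by
        rw [Real.exp_neg]; field_simp; ring
      rw [this]
      exact mul_le_mul_of_nonneg_right (by linarith) (by positivity)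
    · have hz : -(R : ℂ) + y * I ≠ 0 := fun h => by
        have := congrArg Complex.re h; simp at this; linarith
      have b1 := norm_num_le ha ha1 (z := -R + y * I) (by simpa using hy)
      simp only [add_re, neg_re, ofReal_re, mul_re, I_re, mul_zero, ofReal_im, I_im, mul_one,
        sub_self, add_zero, abs_neg, abs_of_pos (by linarith : 0 < R),
        max_eq_right (by linarith : -R ≤ 0), Real.exp_zero] at b1
      have b2 : 1 / 2 ≤ ‖cexp (b * (-R + y * I)) - 1‖ := by
        rw [norm_sub_rev]
        refine le_trans ?_ (norm_sub_norm_le _ _)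
        have : Real.exp (-(b * R)) ≤ Real.exp (-R) := Real.exp_le_exp.2 (by nlinarith)
        simp [Complex.norm_exp]; nlinarith
      have n : ‖cexp (-R + y * I)‖ = Real.exp (-R) := by simp [Complex.norm_exp]
      have b3 : t / 2 ≤ ‖cexp (-R + y * I) - cexp u‖ := by
        rw [norm_sub_rev]
        refine le_trans ?_ (norm_sub_norm_le _ _)
        rw [n, hut, norm_real, Real.norm_of_nonneg ht.le]; linarith
      simp only [hH]
      rw [F_eq a hb0 hz, norm_mul, norm_div, norm_div, n]
      refine (mul_le_mul (div_le_div₀ (by positivity) b1 (by positivity) b2)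
        (div_le_div_of_nonneg_left hR'.le (by positivity) b3) (by positivity) (by positivity)).trans ?_
      have : (R + Real.pi) / (1 / 2) * (Real.exp (-R) / (t / 2)) =
          4 / t * ((R + Real.pi) * Real.exp (-R)) := by
        field_simp; ring
      rw [this]
      exact mul_le_mul_of_nonneg_right (by linarith) (by positivity)

theorem laplace {a b t : ℝ} (ha : 0 ≤ a) (ha1 : a ≤ 1) (hb : 2 < b) (hb4 : b < 4) (ht : 0 < t) :
    IntegrableOn (fun s => Real.exp (-(t * s)) * mm a b s) (Ioi 0) ∧
      K a b t = ∫ s in Ioi 0, Real.exp (-(t * s)) * mm a b s := by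
  set Φ : ℝ → ℝ → ℝ := fun s x => W a b x * Real.exp x * Real.exp (-(t + Real.exp x) * s) with hΦ
  have hW := W_cont a hb hb4
  have hneg : ∀ x, -(t + Real.exp x) < 0 := fun x => by linarith [Real.exp_pos x]
  have hin : ∀ x, ∫ s in Ioi 0, Real.exp (-(t + Real.exp x) * s) = 1 / (Real.exp x + t) := fun x => by
    have := Real.exp_pos x
    rw [integral_exp_mul_Ioi (hneg x), mul_zero, Real.exp_zero, neg_div_neg_eq, add_comm]
  have hint := integrable_W ha ha1 hb hb4 (v := fun x => Real.exp x / (Real.exp x + t))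
    (Continuous.div (by fun_prop) (by fun_prop) fun x => by positivity) (fun x => by positivity)
    (wt1 ht)
  have hprod : Integrable (Function.uncurry Φ) ((volume.restrict (Ioi 0)).prod volume) := by
    rw [integrable_prod_iff' (Continuous.aestronglyMeasurable (by simp only [hΦ]; fun_prop))]
    refine ⟨Eventually.of_forall fun x =>
      (integrableOn_exp_mul_Ioi (hneg x) 0).const_mul (W a b x * Real.exp x), ?_⟩
    refine hint.norm.congr (Eventually.of_forall fun x => ?_)
    simp only [Function.uncurry, hΦ, norm_mul, Real.norm_eq_abs, Real.abs_exp]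
    rw [integral_const_mul, hin, abs_of_pos (by positivity : 0 < Real.exp x / (Real.exp x + t))]
    ring
  have e1 : ∀ s, ∫ x, Φ s x = Real.exp (-(t * s)) *
      ∫ x : ℝ, W a b x * (Real.exp x * Real.exp (-(s * Real.exp x))) := fun s => by
    rw [← integral_const_mul]
    refine integral_congr_ae (Eventually.of_forall fun x => ?_)
    simp only [hΦ]
    rw [show -(t + Real.exp x) * s = -(t * s) + -(s * Real.exp x) by ring, Real.exp_add]; ring
  have i1 := hprod.integral_prod_left
  have s1 := integral_integral_swap hprod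
  simp only [Function.uncurry, e1] at i1
  simp only [e1] at s1
  have s2 : ∫ x, ∫ s in Ioi 0, Φ s x = ∫ x : ℝ, W a b x * (Real.exp x / (Real.exp x + t)) := by
    refine integral_congr_ae (Eventually.of_forall fun x => ?_)
    simp only [hΦ]
    rw [integral_const_mul, hin]; ring
  set c := resid a b * cexp (pole b)
  set ω := cexp (pole b)
  have hω : (ω - t).re < 0 := by
    have := exp_pole_re hb hb4
    simp only [sub_re, ofReal_re]; linarith
  have i2 : IntegrableOn (fun s : ℝ => c * cexp ((ω - t) * s)) (Ioi 0) :=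
    (integrableOn_exp_mul_complex_Ioi hω 0).const_mul c
  have e2 : ∀ s : ℝ, (c * cexp ((ω - t) * s)).re = Real.exp (-(t * s)) * (c * cexp (ω * s)).re :=
    fun s => by
      rw [← re_ofReal_mul, show (ω - t) * s = -(t * s) + ω * s by ring, Complex.exp_add]
      push_cast; ring_nf
  have i3 : IntegrableOn (fun s : ℝ => Real.exp (-(t * s)) * (c * cexp (ω * s)).re) (Ioi 0) := by
    simp only [← e2]
    exact i2.re
  have s3 : ∫ s in Ioi 0, Real.exp (-(t * s)) * (c * cexp (ω * s)).re = (c / (t - ω)).re := by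
    simp only [← e2]
    have := integral_re i2
    simp only [RCLike.re_to_complex] at this
    rw [this, integral_const_mul, integral_exp_mul_complex_Ioi hω, ← neg_sub (t : ℂ) ω,
      neg_div_neg_eq]
    simp [div_eq_mul_inv]
  have e3 : ∀ s, Real.exp (-(t * s)) * mm a b s = 1 / Real.pi * (Real.exp (-(t * s)) *
      ∫ x : ℝ, W a b x * (Real.exp x * Real.exp (-(s * Real.exp x)))) +
      2 * (Real.exp (-(t * s)) * (c * cexp (ω * s)).re) := fun s => by rw [mm]; ring
  simp only [e3]
  refine ⟨(i1.const_mul _).add (i3.const_mul _), ?_⟩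
  rw [integral_add (i1.const_mul _) (i3.const_mul _), integral_const_mul, integral_const_mul, s1,
    s2, s3, stieltjes ha ha1 hb hb4 ht]

theorem mm_cont {a b s : ℝ} (hb : 2 < b) (hb4 : b < 4) (hs : 0 < s) :
    ContinuousWithinAt (fun p : ℝ × ℝ × ℝ => mm p.1 p.2.1 p.2.2) (Icc 0 1 ×ˢ univ) (a, b, s) := by
  obtain ⟨κ, hκ, hκ'⟩ := exists_kappa hb hb4
  have hb' : (b : ℂ) ≠ 0 := by exact_mod_cast (by linarith : b ≠ 0)
  have hE := Ec_diff.continuous
  have ev : ∀ᶠ p : ℝ × ℝ × ℝ in 𝓝 (a, b, s), (2 < p.2.1 ∧ p.2.1 < 4) ∧ s / 2 < p.2.2 ∧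
      κ ^ 2 < (1 - Real.cos (Real.pi * p.2.1)) / 2 := by
    refine Eventually.and (Eventually.and ?_ ?_) (Eventually.and ?_ ?_)
    · exact ContinuousAt.eventually_lt (by fun_prop) (by fun_prop) hb
    · exact ContinuousAt.eventually_lt (by fun_prop) (by fun_prop) hb4
    · exact ContinuousAt.eventually_lt (by fun_prop) (by fun_prop) (by simpa using hs)
    · exact ContinuousAt.eventually_lt (by fun_prop) (by fun_prop) hκ'
  refine ContinuousWithinAt.add (ContinuousWithinAt.mul continuousWithinAt_const ?_) ?_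
  · refine continuousWithinAt_of_dominated (bound := fun x => (1 + 1 / (s / 2)) / κ * dom x) ?_ ?_
      (integrable_dom.const_mul _) (Eventually.of_forall fun x => ?_)
    · filter_upwards [nhdsWithin_le_nhds ev] with p hp
      have := W_cont p.1 hp.1.1 hp.1.2
      exact Continuous.aestronglyMeasurable (by fun_prop)
    · filter_upwards [nhdsWithin_le_nhds ev, self_mem_nhdsWithin] with p hp hp'
      exact Eventually.of_forall fun x => W_bound hp'.1.1 hp'.1.2 hp.1.1.le hκ hp.2.2.le x
        (by positivity) (wt2 (by positivity) hp.2.1.le x)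
    · refine ContinuousAt.continuousWithinAt (ContinuousAt.mul ?_ (by fun_prop))
      exact ContinuousAt.comp (f := fun p : ℝ × ℝ × ℝ => (p.1, p.2.1, x)) (x := (a, b, s))
        (W_contAt (a := a) hb hb4 x) (by fun_prop)
  · have hp : ContinuousAt (fun p : ℝ × ℝ × ℝ => pole p.2.1) (a, b, s) := by
      unfold pole
      exact ContinuousAt.mul (continuous_ofReal.continuousAt.comp
        (ContinuousAt.div (by fun_prop) (by fun_prop) (by simp only; linarith))) continuousAt_const
    have hr : ContinuousAt (fun p : ℝ × ℝ × ℝ => resid p.1 p.2.1) (a, b, s) := by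
      unfold resid
      exact ContinuousAt.div (by fun_prop) (by fun_prop) hb'
    exact ContinuousAt.continuousWithinAt (by fun_prop)

theorem mm_cont_s {a b s : ℝ} (ha : 0 ≤ a) (ha1 : a ≤ 1) (hb : 2 < b) (hb4 : b < 4) (hs : 0 < s) :
    ContinuousAt (mm a b) s := by
  have := ContinuousWithinAt.comp (f := fun s : ℝ => (a, b, s)) (s := univ) (mm_cont hb hb4 hs)
    (by fun_prop) (fun _ _ => ⟨⟨ha, ha1⟩, mem_univ _⟩)
  exact continuousWithinAt_univ _ _ |>.1 this

end Pool.Agent.Lib.MP_70615d_an
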