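import Mathlib
import Pool.Agent.Lib.MP_70615d_an.Rep

/-!
Positivity of the densities for `s ≥ 10`.
-/

set_option autoImplicit false

namespace Pool.Agent.Lib.MP_70615d_an

open Filter Topology Set MeasureTheory Complex

theorem gint {q s : ℝ} (hq : 0 ≤ q) (hs : 0 < s) :
    Integrable (fun x => Real.exp (q * x) * (Real.exp x * Real.exp (-(s * Real.exp x)))) ∧
      ∫ x, Real.exp (q * x) * (Real.exp x * Real.exp (-(s * Real.exp x))) =
        (1 / s) ^ (q + 1) * Real.Gamma (q + 1) := by
  have e : ∀ x, |Real.exp x| • (Real.exp x ^ (q + 1 - 1) * Real.exp (-(s * Real.exp x))) =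
      Real.exp (q * x) * (Real.exp x * Real.exp (-(s * Real.exp x))) := fun x => by
    rw [Real.abs_exp, smul_eq_mul, add_sub_cancel_right, ← Real.exp_mul, mul_comm x q]; ring
  have hd : ∀ x ∈ (univ : Set ℝ), HasDerivWithinAt Real.exp (Real.exp x) univ x :=
    fun x _ => (Real.hasDerivAt_exp x).hasDerivWithinAt
  constructor
  · have := (integrableOn_image_iff_integrableOn_abs_deriv_smul MeasurableSet.univ hd
      Real.exp_injective.injOn (fun r => r ^ (q + 1 - 1) * Real.exp (-(s * r)))).1 (by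
        rw [image_univ, Real.range_exp]
        have := integrableOn_rpow_mul_exp_neg_mul_rpow (p := 1) (s := q + 1 - 1) (b := s)
          (by linarith) one_pos hs
        simpa only [Real.rpow_one, neg_mul] using this)
    simpa only [e, integrableOn_univ] using this
  · have := integral_image_eq_integral_abs_deriv_smul MeasurableSet.univ hd
      Real.exp_injective.injOn (fun r => r ^ (q + 1 - 1) * Real.exp (-(s * r)))
    rw [image_univ, Real.range_exp, Real.integral_rpow_mul_exp_neg_mul_Ioi (by linarith) hs] at this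
    simpa only [e, Measure.restrict_univ] using this.symm

theorem num_im {a : ℝ} (ha : 0 ≤ a) (ha1 : a ≤ 1 / 10) (x : ℝ) :
    3 * Real.exp (a * x) ≤ -((x - Real.pi * I) * Ec (a * (x - Real.pi * I))).im ∧
      -((x - Real.pi * I) * Ec (a * (x - Real.pi * I))).im ≤ 4 * Real.exp (a * x) := by
  have p1 := Real.pi_gt_d2
  have p2 := Real.pi_lt_d2
  rcases ha.eq_or_lt with rfl | ha
  · simp [Ec_zero]; constructor <;> linarith
  have h1 := congrArg Complex.im (mul_Ec (a * (x - Real.pi * I)))
  rw [mul_assoc, im_ofReal_mul, sub_im, exp_im] at h1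
  have e1 : ((a : ℂ) * (x - Real.pi * I)).re = a * x := by simp
  have e2 : ((a : ℂ) * (x - Real.pi * I)).im = -(a * Real.pi) := by simp
  rw [e1, e2, Real.sin_neg, one_im] at h1
  generalize ((x - Real.pi * I) * Ec (a * (x - Real.pi * I))).im = y at h1
  have h2 := Real.sin_gt_sub_cube (x := a * Real.pi) (by positivity)
  have h3 := Real.sin_le (x := a * Real.pi) (by positivity)
  have h4 := Real.exp_pos (a * x)
  have h5 : 3 * a ≤ Real.sin (a * Real.pi) := by
    have h6 : a * Real.pi ≤ 1 / 10 * 3.15 := mul_le_mul ha1 p2.le (by positivity) (by norm_num)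
    have : (a * Real.pi) ^ 2 ≤ 1 / 10 := by nlinarith [mul_pos ha Real.pi_pos]
    nlinarith [mul_pos ha Real.pi_pos]
  constructor
  · refine le_of_mul_le_mul_left ?_ ha; nlinarith
  · refine le_of_mul_le_mul_left ?_ ha
    have h6 : Real.sin (a * Real.pi) ≤ 4 * a := by nlinarith
    nlinarith

theorem W_lower {a b : ℝ} (ha : 0 ≤ a) (ha1 : a ≤ 1 / 10) (hb : 3 ≤ b) (hb' : b ≤ 7 / 2) (x : ℝ) :
    3 * Real.exp (a * x) - (Real.exp (2 * x) + 16 * Real.exp (3 * x) + 17 * Real.exp (9 * x)) ≤
      W a b x := by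
  have hpi := Real.pi_pos
  have p2 := Real.pi_lt_four
  have hz : (x : ℂ) - Real.pi * I ≠ 0 := fun h => by
    have := congrArg Complex.im h
    rw [line_im] at this; simp at this
  obtain ⟨n1, n2⟩ := num_im ha ha1 x
  have h1 := norm_num_le ha (by linarith) (z := x - Real.pi * I)
    (by rw [line_im, abs_neg, abs_of_pos hpi])
  have e : ((x : ℂ) - Real.pi * I).re = x := by simp
  rw [e] at h1
  have h2 := normSq_line b x
  have h3 : ‖cexp (b * (x - Real.pi * I))‖ = Real.exp (b * x) := by simp [Complex.norm_exp]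
  have hc : Real.cos (Real.pi * b) ≤ 0 := by
    rw [← Real.cos_sub_two_pi]
    exact Real.cos_nonpos_of_pi_div_two_le_of_le (by nlinarith) (by nlinarith)
  have hc' := Real.neg_one_le_cos (Real.pi * b)
  rw [W, F_eq a (by linarith) hz]
  generalize (x - Real.pi * I) * Ec (a * (x - Real.pi * I)) = N at *
  generalize cexp (b * (x - Real.pi * I)) = T at *
  set R := Real.exp (b * x) with hR
  have hR0 : 0 < R := Real.exp_pos _
  set u := ‖T - 1‖ ^ 2
  have u1 : 1 ≤ u := by nlinarith
  have u2 : u ≤ 1 + 2 * R + R ^ 2 := by nlinarith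
  have h4 : (N / (T - 1)).im = (-N.im + (N * (starRingEnd ℂ) T).im) / u := by
    rw [Complex.div_im, ← Complex.sq_norm]
    simp only [sub_re, one_re, sub_im, one_im, mul_im, conj_re, conj_im]
    ring
  have h5 : |(N * (starRingEnd ℂ) T).im| ≤ (|x| + Real.pi) * Real.exp (max x 0) * R := by
    refine (Complex.abs_im_le_norm _).trans ?_
    rw [norm_mul, Complex.norm_conj, h3]
    exact mul_le_mul_of_nonneg_right h1 hR0.le
  have hA := Real.exp_pos (a * x)
  have h6 : -N.im - 4 * Real.exp (a * x) * (2 * R + R ^ 2) ≤ -N.im / u := by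
    rw [le_div_iff₀ (by linarith)]
    have : 0 ≤ 4 * Real.exp (a * x) * (2 * R + R ^ 2) := by positivity
    nlinarith [mul_le_mul n2 (by linarith : u - 1 ≤ 2 * R + R ^ 2) (by linarith) (by positivity)]
  have h7 : -((|x| + Real.pi) * Real.exp (max x 0) * R) ≤ (N * (starRingEnd ℂ) T).im / u := by
    rw [le_div_iff₀ (by linarith)]
    have : 0 ≤ (|x| + Real.pi) * Real.exp (max x 0) * R := by positivity
    nlinarith [(abs_le.1 h5).1]
  have h8 : 4 * Real.exp (a * x) * (2 * R + R ^ 2) + (|x| + Real.pi) * Real.exp (max x 0) * R ≤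
      Real.exp (2 * x) + 16 * Real.exp (3 * x) + 17 * Real.exp (9 * x) := by
    have q2 := Real.exp_pos (2 * x)
    have q3 := Real.exp_pos (3 * x)
    have q9 := Real.exp_pos (9 * x)
    rcases le_total x 0 with h | h
    · have a1 : Real.exp (a * x) ≤ 1 := Real.exp_le_one_iff.2 (by nlinarith)
      have a2 : R ≤ Real.exp (3 * x) := Real.exp_le_exp.2 (by nlinarith)
      have a3 : R ≤ 1 := Real.exp_le_one_iff.2 (by nlinarith)
      have a4 : -x * Real.exp (3 * x) ≤ Real.exp (2 * x) := by
        have : Real.exp (2 * x) = Real.exp (-x) * Real.exp (3 * x) := by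
          rw [← Real.exp_add]; ring_nf
        rw [this]
        exact mul_le_mul_of_nonneg_right (by linarith [Real.add_one_le_exp (-x)]) q3.le
      rw [max_eq_right h, Real.exp_zero, abs_of_nonpos h]
      have a5 : Real.exp (a * x) * (2 * R + R ^ 2) ≤ 1 * (3 * Real.exp (3 * x)) :=
        mul_le_mul a1 (by nlinarith) (by positivity) zero_le_one
      have a6 : (-x + Real.pi) * R ≤ (-x + 4) * Real.exp (3 * x) :=
        mul_le_mul (by linarith) a2 hR0.le (by linarith)
      nlinarith
    · set r := Real.exp x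
      have r1 : 1 ≤ r := Real.one_le_exp h
      have a1 : Real.exp (a * x) ≤ r := Real.exp_le_exp.2 (by nlinarith)
      have a2 : R ≤ r ^ 4 := by
        rw [← Real.exp_nat_mul]; exact Real.exp_le_exp.2 (by push_cast; nlinarith)
      have a3 : Real.exp (9 * x) = r ^ 9 := by rw [← Real.exp_nat_mul]; norm_num
      have a4 : x ≤ r := by linarith [Real.add_one_le_exp x]
      have a5 : r ^ 4 ≤ r ^ 8 := pow_le_pow_right₀ r1 (by norm_num)
      have a6 : R ^ 2 ≤ r ^ 8 := by nlinarith
      have a7 : Real.exp (a * x) * (2 * R + R ^ 2) ≤ r * (3 * r ^ 8) :=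
        mul_le_mul a1 (by linarith) (by positivity) (by linarith)
      have a8 : (x + Real.pi) * r * R ≤ (5 * r) * r * r ^ 4 :=
        mul_le_mul (mul_le_mul_of_nonneg_right (by linarith) (by linarith)) a2 hR0.le
          (by positivity)
      have a9 : r ^ 6 ≤ r ^ 9 := pow_le_pow_right₀ r1 (by norm_num)
      rw [max_eq_left h, abs_of_nonneg h, a3]
      nlinarith
  rw [h4, add_div]
  linarith

theorem resid_bound {a b s : ℝ} (hb : 33 / 10 ≤ b) (hb' : b ≤ 332 / 100) (hs : 0 ≤ s) :
    |(resid a b * cexp (pole b) * cexp (cexp (pole b) * s)).re| ≤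
      58 / 100 * Real.exp (-(3 / 10 * s)) := by
  have p1 := Real.pi_gt_d4
  have p2 := Real.pi_lt_d4
  have hb0 : 0 < b := by linarith
  set θ := 2 * Real.pi / b with hθ
  have hθ0 : 0 < θ := by positivity
  have hθb : θ * b = 2 * Real.pi := by rw [hθ]; field_simp
  have hp : pole b = (θ : ℂ) * I := rfl
  refine (Complex.abs_re_le_norm _).trans ?_
  rw [norm_mul, norm_mul, hp, norm_exp_ofReal_mul_I, mul_one, Complex.norm_exp]
  refine mul_le_mul ?_ (Real.exp_le_exp.2 ?_) (Real.exp_pos _).le (by norm_num)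
  · rw [resid, norm_div, norm_mul, hp, norm_real, Real.norm_of_nonneg hb0.le, div_le_iff₀ hb0]
    have h1 := norm_Ec_le (a * (θ * I))
    have h2 : ((a : ℂ) * (θ * I)).re = 0 := by simp
    rw [h2, E_zero] at h1
    have h3 : ‖(θ : ℂ) * I‖ = θ := by simp [abs_of_pos hθ0]
    rw [h3]
    have : θ ≤ 58 / 100 * b := by nlinarith
    nlinarith
  · rw [re_mul_ofReal, exp_ofReal_mul_I_re]
    have h1 : Real.cos θ = -Real.sin (θ - Real.pi / 2) := by
      rw [Real.sin_sub_pi_div_two, neg_neg]
    have h2 : 32 / 100 ≤ θ - Real.pi / 2 := by nlinarith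
    have h3 : θ - Real.pi / 2 ≤ 34 / 100 := by nlinarith
    have h4 := Real.sin_gt_sub_cube (x := θ - Real.pi / 2) (by linarith)
    generalize θ - Real.pi / 2 = y at *
    have : y ^ 3 ≤ (34 / 100) ^ 3 := pow_le_pow_left₀ (by linarith) h3 3
    have : Real.cos θ ≤ -(3 / 10) := by linarith
    nlinarith

theorem mm_pos_large {a b s : ℝ} (ha : 0 ≤ a) (ha1 : a ≤ 1 / 100)
    (hG : 95 / 100 ≤ Real.Gamma (a + 1)) (hb : 33 / 10 ≤ b) (hb' : b ≤ 332 / 100) (hs : 10 ≤ s) :
    0 < mm a b s := by
  have hs0 : 0 < s := by linarith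
  have p1 := Real.pi_gt_d2
  have p2 := Real.pi_lt_d2
  set v : ℝ → ℝ := fun x => Real.exp x * Real.exp (-(s * Real.exp x)) with hv
  have g0 := gint ha hs0
  have g2 := gint (q := 2) (by norm_num) hs0
  have g3 := gint (q := 3) (by norm_num) hs0
  have g9 := gint (q := 9) (by norm_num) hs0
  have i1 : Integrable fun x => Real.exp (2 * x) * v x + 16 * (Real.exp (3 * x) * v x) :=
    g2.1.add (g3.1.const_mul 16)
  have i2 : Integrable fun x => Real.exp (2 * x) * v x + 16 * (Real.exp (3 * x) * v x) +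
      17 * (Real.exp (9 * x) * v x) := i1.add (g9.1.const_mul 17)
  have h1 : ∫ x, (3 * (Real.exp (a * x) * v x) - (Real.exp (2 * x) * v x +
      16 * (Real.exp (3 * x) * v x) + 17 * (Real.exp (9 * x) * v x))) ≤ ∫ x, W a b x * v x := by
    refine integral_mono ((g0.1.const_mul 3).sub i2)
      (integrable_W ha (by linarith) (by linarith) (by linarith) (by simp only [hv]; fun_prop)
        (fun x => by positivity) (wt2 hs0 le_rfl)) fun x => ?_
    have := mul_le_mul_of_nonneg_right
      (W_lower ha (by linarith) (by linarith) (by linarith : b ≤ 7 / 2) x)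
      (by positivity : 0 ≤ v x)
    simp only
    linarith
  rw [integral_sub (g0.1.const_mul 3) i2, integral_add i1 (g9.1.const_mul 17),
    integral_add g2.1 (g3.1.const_mul 16), integral_const_mul, integral_const_mul,
    integral_const_mul, g0.2, g2.2, g3.2, g9.2] at h1
  have G2 : Real.Gamma (2 + 1) = 2 := by simpa using Real.Gamma_nat_eq_factorial 2
  have G3 : Real.Gamma (3 + 1) = 6 := by
    have := Real.Gamma_nat_eq_factorial 3; norm_num [Nat.factorial] at this ⊢
  have G9 : Real.Gamma (9 + 1) = 362880 := by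
    have := Real.Gamma_nat_eq_factorial 9; norm_num [Nat.factorial] at this ⊢
  have q : ∀ n : ℕ, (1 / s) ^ ((n : ℝ) + 1) = (1 / s) ^ (n + 1) := fun n => by
    rw [← Real.rpow_natCast]; push_cast; rfl
  have q2 := q 2
  have q3 := q 3
  have q9 := q 9
  push_cast at q2 q3 q9
  rw [G2, G3, G9, q2, q3, q9] at h1
  have h2 := (abs_le.1 (resid_bound (a := a) hb hb' hs0.le)).1
  set w := 1 / s with hw
  have hw0 : 0 < w := by positivity
  have hw1 : w ≤ 1 / 10 := one_div_le_one_div_of_le (by norm_num) hs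
  set A := w ^ (a + 1) with hA
  have hA1 : 3 * w ^ 2 ≤ A := by
    have h3 : w ^ (3 / 2 : ℝ) ≤ A :=
      Real.rpow_le_rpow_of_exponent_ge hw0 (by linarith) (by linarith)
    have h4 : (w ^ (3 / 2 : ℝ)) ^ 2 = w ^ 3 := by
      rw [← Real.rpow_natCast, ← Real.rpow_mul hw0.le, ← Real.rpow_natCast]; norm_num
    refine le_trans ?_ h3
    refine (sq_le_sq₀ (by positivity) (by positivity)).1 ?_
    rw [h4]; nlinarith [pow_pos hw0 3]
  have hA2 : Real.exp (-(3 / 10 * s)) ≤ 56 / 100 * A := by
    have h3 : A = w * Real.exp (-(a * Real.log s)) := by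
      rw [hA, Real.rpow_add_one hw0.ne', Real.rpow_def_of_pos hw0, hw, one_div, Real.log_inv]
      ring_nf
    have h4 : Real.exp (-(1 / 100 * s)) ≤ Real.exp (-(a * Real.log s)) := by
      refine Real.exp_le_exp.2 ?_
      have := Real.log_le_sub_one_of_pos hs0
      have := Real.log_nonneg (by linarith : 1 ≤ s)
      nlinarith
    have h5 : 18 ≤ Real.exp (29 / 10) := by
      have := Real.sum_le_exp_of_nonneg (by norm_num : (0 : ℝ) ≤ 29 / 10) 10
      simp only [Finset.sum_range_succ, Finset.range_zero, Finset.sum_empty, Nat.factorial] at this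
      norm_num at this; linarith
    have h6 : 18 / 10 * s ≤ Real.exp (29 / 100 * s) := by
      have : Real.exp (29 / 100 * s) = Real.exp (29 / 10) * Real.exp (29 / 100 * (s - 10)) := by
        rw [← Real.exp_add]; ring_nf
      rw [this]
      have h7 := Real.add_one_le_exp (29 / 100 * (s - 10))
      nlinarith [mul_le_mul h5 h7 (by linarith) (by linarith)]
    have h7 : Real.exp (-(3 / 10 * s)) * Real.exp (29 / 100 * s) = Real.exp (-(1 / 100 * s)) := by
      rw [← Real.exp_add]; ring_nf
    have h8 : w * s = 1 := by rw [hw]; field_simp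
    have h9 := Real.exp_pos (-(3 / 10 * s))
    rw [h3]
    have : Real.exp (-(3 / 10 * s)) * (18 / 10 * s) ≤ Real.exp (-(a * Real.log s)) := by
      nlinarith [mul_le_mul_of_nonneg_left h6 h9.le]
    nlinarith [mul_le_mul_of_nonneg_left this hw0.le]
  have hA0 : 0 < A := by positivity
  have h3 : w ^ 3 * 2 + 16 * (w ^ 4 * 6) + 17 * (w ^ 10 * 362880) ≤ 2 * w ^ 2 := by
    have b1 : w ^ 2 ≤ (1 / 10) ^ 2 := pow_le_pow_left₀ hw0.le hw1 2
    have b2 : w ^ 8 ≤ (1 / 10) ^ 8 := pow_le_pow_left₀ hw0.le hw1 8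
    have b3 : 0 < w ^ 2 := by positivity
    have b4 : w ^ 3 * 2 + 16 * (w ^ 4 * 6) + 17 * (w ^ 10 * 362880) =
      w ^ 2 * (2 * w + 96 * w ^ 2 + 6168960 * w ^ 8) := by ring
    rw [b4, mul_comm 2 (w ^ 2)]
    exact mul_le_mul_of_nonneg_left (by linarith) b3.le
  have h4 : 21 / 10 * A ≤ ∫ x, W a b x * v x := by
    have := mul_le_mul_of_nonneg_left hG hA0.le
    linarith
  have h5 : 1 / Real.pi * (21 / 10 * A) ≤ 1 / Real.pi * ∫ x, W a b x * v x :=
    mul_le_mul_of_nonneg_left h4 (by positivity)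
  have h6 : 20 / 63 ≤ 1 / Real.pi := by rw [le_div_iff₀ (by linarith)]; linarith
  have h7 := mul_le_mul_of_nonneg_right h6 (by positivity : 0 ≤ 21 / 10 * A)
  rw [mm]
  linarith

end Pool.Agent.Lib.MP_70615d_an
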