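import Mathlib
import Pool.Agent.Lib.MP_70615d_an.Disc

/-!
Moment functionals of completely monotone sequences, and positivity of Laplace densities.
-/

set_option autoImplicit false

namespace Pool.Agent.Lib.MP_70615d_an

open Filter Topology Set MeasureTheory Polynomial

noncomputable def lam (f : ℝ → ℝ) : ℝ[X] →ₗ[ℝ] ℝ :=
  (Polynomial.basisMonomials ℝ).constr ℝ fun j => f (1 + j)

theorem lam_X_pow (f : ℝ → ℝ) (j : ℕ) : lam f (X ^ j) = f (1 + j) := by
  have := (Polynomial.basisMonomials ℝ).constr_basis ℝ (fun j : ℕ => f (1 + j)) j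
  rw [Polynomial.X_pow_eq_monomial]
  exact this

theorem lin_ext {Λ₁ Λ₂ : ℝ[X] →ₗ[ℝ] ℝ} (h : ∀ j, Λ₁ (X ^ j) = Λ₂ (X ^ j)) (p : ℝ[X]) :
    Λ₁ p = Λ₂ p := by
  have : Λ₁ = Λ₂ := (Polynomial.basisMonomials ℝ).ext fun j => by
    simpa [Polynomial.coe_basisMonomials, ← Polynomial.X_pow_eq_monomial] using h j
  rw [this]

theorem lam_mul_one_sub (f : ℝ → ℝ) (p : ℝ[X]) : lam f (p * (1 - X)) = lam (nd 1 f) p := by
  have := lin_ext (Λ₁ := (lam f).comp (LinearMap.mulRight ℝ (1 - X))) (Λ₂ := lam (nd 1 f))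
    (fun j => ?_) p
  · rwa [LinearMap.comp_apply, LinearMap.mulRight_apply] at this
  simp only [LinearMap.comp_apply, LinearMap.mulRight_apply, mul_sub, mul_one, ← pow_succ,
    map_sub, lam_X_pow, nd]
  push_cast
  rw [add_assoc]

theorem lam_bern_nonneg (k : ℕ) : ∀ {f : ℝ → ℝ}, DC f → ∀ i : ℕ, 0 ≤ lam f (X ^ i * (1 - X) ^ k) := by
  induction k with
  | zero => intro f hf i; simpa [lam_X_pow] using hf.nonneg (by positivity)
  | succ k ih =>
    intro f hf i
    rw [pow_succ, ← mul_assoc, lam_mul_one_sub]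
    exact ih (hf.nd one_pos) i

theorem bern_identity (N j : ℕ) :
    ∑ i ∈ Finset.range (N + 1), ((i.descFactorial j * N.choose i : ℕ) : ℝ) •
      (X ^ i * (1 - X) ^ (N - i) : ℝ[X]) = ((N.descFactorial j : ℕ) : ℝ) • X ^ j := by
  rcases lt_or_ge N j with h | h
  · rw [Nat.descFactorial_eq_zero_iff_lt.2 h, Finset.sum_eq_zero]
    · simp
    · intro i hi
      rw [Nat.descFactorial_eq_zero_iff_lt.2 (by have := Finset.mem_range.1 hi; omega)]; simp
  obtain ⟨M, rfl⟩ := Nat.exists_eq_add_of_le h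
  rw [show j + M + 1 = j + (M + 1) by ring, Finset.sum_range_add, Finset.sum_eq_zero, zero_add]
  · have h1 : (1 : ℝ[X]) = ∑ i ∈ Finset.range (M + 1),
        X ^ i * (1 - X) ^ (M - i) * (M.choose i : ℝ[X]) := by
      rw [← add_pow]; simp
    conv_rhs => rw [← mul_one (X ^ j), h1, Finset.mul_sum, Finset.smul_sum]
    refine Finset.sum_congr rfl fun i hi => ?_
    have hi' : i ≤ M := by have := Finset.mem_range.1 hi; omega
    have h2 : (j + i).descFactorial j * (j + M).choose (j + i) =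
        (j + M).descFactorial j * M.choose i := by
      rw [Nat.descFactorial_eq_factorial_mul_choose, Nat.descFactorial_eq_factorial_mul_choose,
        mul_assoc, mul_assoc, mul_comm ((j + i).choose j), Nat.choose_mul (by omega)]
      simp
    rw [h2, show j + M - (j + i) = M - i by omega]
    push_cast
    rw [mul_smul, pow_add]
    congr 1
    rw [Nat.cast_smul_eq_nsmul, nsmul_eq_mul]
    ring
  · intro i hi
    rw [Nat.descFactorial_eq_zero_iff_lt.2 (Finset.mem_range.1 hi)]; simp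

theorem desc_est {N i : ℕ} (hi : i ≤ N) (j : ℕ) :
    (i.descFactorial j : ℝ) ≤ (i : ℝ) ^ j ∧
      (N : ℝ) * ((i : ℝ) ^ j - i.descFactorial j) ≤ (j : ℝ) ^ 2 * (N : ℝ) ^ j := by
  refine ⟨by exact_mod_cast Nat.descFactorial_le_pow i j, ?_⟩
  have hi' : (i : ℝ) ≤ N := by exact_mod_cast hi
  induction j with
  | zero => simp
  | succ j ih =>
    have h1 : (i.descFactorial j : ℝ) ≤ (N : ℝ) ^ j :=
      le_trans (by exact_mod_cast Nat.descFactorial_le_pow i j)
        (pow_le_pow_left₀ (by positivity) hi' j)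
    have h0 : (i.descFactorial j : ℝ) ≤ (i : ℝ) ^ j := by
      exact_mod_cast Nat.descFactorial_le_pow i j
    have h2 : (i : ℝ) - j ≤ ((i - j : ℕ) : ℝ) := by
      rcases le_total j i with h | h
      · rw [Nat.cast_sub h]
      · have : (i : ℝ) ≤ j := by exact_mod_cast h
        linarith [Nat.cast_nonneg (α := ℝ) (i - j)]
    rw [Nat.descFactorial_succ]
    push_cast
    set d : ℝ := ((i.descFactorial j : ℕ) : ℝ)
    have hd : 0 ≤ d := by positivity
    have hN : (0 : ℝ) ≤ N := by positivity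
    have hj : (0 : ℝ) ≤ j := by positivity
    have hi0 : (0 : ℝ) ≤ i := by positivity
    have hP : (0 : ℝ) ≤ (N : ℝ) ^ j := by positivity
    have e1 : (N : ℝ) * ((i : ℝ) ^ (j + 1) - ((i - j : ℕ) : ℝ) * d) ≤
        i * (N * ((i : ℝ) ^ j - d)) + N * (j * d) := by
      have : ((i : ℝ) - j) * d ≤ ((i - j : ℕ) : ℝ) * d := mul_le_mul_of_nonneg_right h2 hd
      rw [pow_succ]; nlinarith
    have e2 : (i : ℝ) * (N * ((i : ℝ) ^ j - d)) ≤ N * ((j : ℝ) ^ 2 * (N : ℝ) ^ j) :=
      mul_le_mul hi' ih (mul_nonneg hN (by linarith)) hN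
    have e3 : (N : ℝ) * (j * d) ≤ N * (j * (N : ℝ) ^ j) := by gcongr
    rw [pow_succ (N : ℝ) j]
    nlinarith [mul_nonneg hN hP, mul_nonneg hj (mul_nonneg hN hP)]

theorem desc_est' {N i : ℕ} (hN : 0 < N) (hi : i ≤ N) (j : ℕ) :
    |((i : ℝ) / N) ^ j - i.descFactorial j / (N : ℝ) ^ j| ≤ (j : ℝ) ^ 2 / N := by
  have hN' : (0 : ℝ) < N := by exact_mod_cast hN
  obtain ⟨h1, h2⟩ := desc_est hi j
  rw [div_pow, ← sub_div, abs_of_nonneg (div_nonneg (by linarith) (by positivity)),
    div_le_div_iff₀ (by positivity) hN']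
  linarith

theorem lam_nonneg {f : ℝ → ℝ} (hf : DC f) (p : ℝ[X]) (hp : ∀ x ∈ Icc (0 : ℝ) 1, 0 ≤ p.eval x) :
    0 ≤ lam f p := by
  set w : ℕ → ℕ → ℝ := fun N i => N.choose i * lam f (X ^ i * (1 - X) ^ (N - i)) with hw
  have hw0 : ∀ N i, 0 ≤ w N i := fun N i => mul_nonneg (by positivity) (lam_bern_nonneg _ hf _)
  have hsum : ∀ N j : ℕ, ∑ i ∈ Finset.range (N + 1), (i.descFactorial j : ℝ) * w N i =
      N.descFactorial j * f (1 + j) := fun N j => by
    have := congrArg (lam f) (bern_identity N j)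
    simp only [map_sum, map_smul, smul_eq_mul, lam_X_pow] at this
    rw [← this]
    refine Finset.sum_congr rfl fun i _ => ?_
    simp only [hw]; push_cast; ring
  have hmon : ∀ j : ℕ, Tendsto (fun N : ℕ => ∑ i ∈ Finset.range (N + 1), ((i : ℝ) / N) ^ j * w N i)
      atTop (𝓝 (f (1 + j))) := fun j => by
    rw [tendsto_iff_norm_sub_tendsto_zero]
    have hl : Tendsto (fun N : ℕ => (j : ℝ) ^ 2 * (f 1 + |f (1 + j)|) / N) atTop (𝓝 0) :=
      tendsto_const_div_atTop_nhds_zero_nat _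
    refine squeeze_zero' (Eventually.of_forall fun _ => norm_nonneg _) ?_ hl
    filter_upwards [eventually_gt_atTop 0] with N hN
    have hN' : (0 : ℝ) < N := by exact_mod_cast hN
    have h0 : ∑ i ∈ Finset.range (N + 1), w N i = f 1 := by simpa using hsum N 0
    have e : ∑ i ∈ Finset.range (N + 1), ((i : ℝ) / N) ^ j * w N i - f (1 + j) =
        ∑ i ∈ Finset.range (N + 1), (((i : ℝ) / N) ^ j - i.descFactorial j / (N : ℝ) ^ j) * w N i
          - (((N : ℝ) / N) ^ j - N.descFactorial j / (N : ℝ) ^ j) * f (1 + j) := by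
      have : ∑ i ∈ Finset.range (N + 1), i.descFactorial j / (N : ℝ) ^ j * w N i =
          N.descFactorial j / (N : ℝ) ^ j * f (1 + j) := by
        simp only [div_mul_eq_mul_div]
        rw [← Finset.sum_div, hsum]
      simp only [sub_mul, Finset.sum_sub_distrib, this, div_self hN'.ne', one_pow]
      ring
    rw [e, Real.norm_eq_abs]
    refine (abs_sub _ _).trans ?_
    have b1 : |∑ i ∈ Finset.range (N + 1),
        (((i : ℝ) / N) ^ j - i.descFactorial j / (N : ℝ) ^ j) * w N i| ≤ (j : ℝ) ^ 2 / N * f 1 := by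
      refine (Finset.abs_sum_le_sum_abs _ _).trans ?_
      rw [← h0, Finset.mul_sum]
      refine Finset.sum_le_sum fun i hi => ?_
      rw [abs_mul, abs_of_nonneg (hw0 N i)]
      exact mul_le_mul_of_nonneg_right
        (desc_est' hN (by have := Finset.mem_range.1 hi; omega) j) (hw0 N i)
    have b2 : |(((N : ℝ) / N) ^ j - N.descFactorial j / (N : ℝ) ^ j) * f (1 + j)| ≤
        (j : ℝ) ^ 2 / N * |f (1 + j)| := by
      rw [abs_mul]
      exact mul_le_mul_of_nonneg_right (desc_est' hN le_rfl j) (abs_nonneg _)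
    calc _ ≤ (j : ℝ) ^ 2 / N * f 1 + (j : ℝ) ^ 2 / N * |f (1 + j)| := add_le_add b1 b2
      _ = _ := by ring
  have hall : ∀ q : ℝ[X], Tendsto
      (fun N : ℕ => ∑ i ∈ Finset.range (N + 1), q.eval ((i : ℝ) / N) * w N i)
      atTop (𝓝 (lam f q)) := fun q => by
    induction q using Polynomial.induction_on' with
    | add p q hp hq => simpa [add_mul, Finset.sum_add_distrib] using hp.add hq
    | monomial j a =>
      have := (hmon j).const_mul a
      rw [← C_mul_X_pow_eq_monomial, ← smul_eq_C_mul, map_smul, lam_X_pow]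
      simpa [Finset.mul_sum, mul_assoc] using this
  refine ge_of_tendsto' (hall p) fun N => Finset.sum_nonneg fun i hi => mul_nonneg (hp _ ⟨by positivity, ?_⟩) (hw0 N i)
  exact div_le_one_of_le₀ (by exact_mod_cast (by have := Finset.mem_range.1 hi; omega : i ≤ N))
    (by positivity)

theorem mem_unit {x s : ℝ} (hx : x ∈ Icc (0 : ℝ) 1) (hs : 0 < s) :
    x * Real.exp (-s) ∈ Icc (0 : ℝ) 1 :=
  ⟨mul_nonneg hx.1 (Real.exp_pos _).le,
    mul_le_one₀ hx.2 (Real.exp_pos _).le (Real.exp_le_one_iff.2 (by linarith))⟩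

theorem intg {φ ν : ℝ → ℝ} (hφ : Continuous φ) {x : ℝ} (hx : x ∈ Icc (0 : ℝ) 1)
    (hν : IntegrableOn ν (Ioi 0)) :
    IntegrableOn (fun s => φ (x * Real.exp (-s)) * ν s) (Ioi 0) := by
  obtain ⟨B, hB⟩ := isCompact_Icc.exists_bound_of_continuousOn (hφ.continuousOn (s := Icc 0 1))
  refine Integrable.bdd_mul (c := B) hν (by fun_prop) ?_
  filter_upwards [ae_restrict_mem measurableSet_Ioi] with s hs
  exact hB _ (mem_unit hx hs)

theorem lin_eq_integral {Λ : ℝ[X] →ₗ[ℝ] ℝ} {ν : ℝ → ℝ} {x : ℝ} (hx : x ∈ Icc (0 : ℝ) 1)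
    (hν : IntegrableOn ν (Ioi 0))
    (h : ∀ j : ℕ, Λ (X ^ j) = ∫ s in Ioi 0, (x * Real.exp (-s)) ^ j * ν s) (p : ℝ[X]) :
    Λ p = ∫ s in Ioi 0, p.eval (x * Real.exp (-s)) * ν s := by
  induction p using Polynomial.induction_on' with
  | add p q hp hq =>
    rw [map_add, hp, hq, ← integral_add (intg p.continuous hx hν) (intg q.continuous hx hν)]
    simp [add_mul]
  | monomial j a =>
    rw [← C_mul_X_pow_eq_monomial, ← smul_eq_C_mul, map_smul, h, smul_eq_mul, ← integral_const_mul]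
    simp [mul_assoc]

theorem weier {φ ν : ℝ → ℝ} (hφ : Continuous φ) (hν : IntegrableOn ν (Ioi 0)) {η : ℝ}
    (h : ∀ p : ℝ[X], (∀ x ∈ Icc (0 : ℝ) 1, φ x ≤ p.eval x) →
      η ≤ ∫ s in Ioi 0, p.eval (1 * Real.exp (-s)) * ν s) :
    η ≤ ∫ s in Ioi 0, φ (1 * Real.exp (-s)) * ν s := by
  have h1 : (1 : ℝ) ∈ Icc (0 : ℝ) 1 := ⟨zero_le_one, le_rfl⟩
  set B := ∫ s in Ioi (0 : ℝ), |ν s|
  have hB : 0 ≤ B := integral_nonneg fun _ => abs_nonneg _
  refine le_of_forall_pos_le_add fun ε hε => ?_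
  set e := ε / (2 * B + 1)
  have he : 0 < e := by positivity
  obtain ⟨p, hp⟩ := exists_polynomial_near_of_continuousOn 0 1 φ hφ.continuousOn e he
  have := h (p + C e) fun x hx => by
    have := abs_lt.1 (hp x hx)
    simp only [eval_add, eval_C]; linarith
  refine this.trans ?_
  have h2 : ∫ s in Ioi 0, (p + C e).eval (1 * Real.exp (-s)) * ν s ≤
      ∫ s in Ioi 0, (φ (1 * Real.exp (-s)) * ν s + 2 * e * |ν s|) := by
    refine setIntegral_mono_on (intg (p + C e).continuous h1 hν)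
      ((intg hφ h1 hν).add (hν.abs.const_mul _)) measurableSet_Ioi fun s hs => ?_
    have := abs_lt.1 (hp _ (mem_unit h1 hs))
    simp only [eval_add, eval_C]
    rcases le_total 0 (ν s) with h0 | h0
    · rw [abs_of_nonneg h0]; nlinarith
    · rw [abs_of_nonpos h0]; nlinarith
  rw [integral_add (intg hφ h1 hν) (hν.abs.const_mul _), integral_const_mul] at h2
  have : 2 * e * B ≤ ε := by
    simp only [e]
    rw [mul_div_assoc', div_mul_eq_mul_div, div_le_iff₀ (by positivity)]; nlinarith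
  linarith

noncomputable def bump (y δ x : ℝ) : ℝ := max 0 (min 1 (2 - |x - y| / δ))

theorem bump_cont (y δ : ℝ) : Continuous (bump y δ) := by unfold bump; fun_prop

theorem bump_nonneg (y δ x : ℝ) : 0 ≤ bump y δ x := le_max_left _ _

theorem bump_le_one (y δ x : ℝ) : bump y δ x ≤ 1 := max_le zero_le_one (min_le_left _ _)

theorem pos_of_bump {ν : ℝ → ℝ} (hν : IntegrableOn ν (Ioi 0)) {s₀ η : ℝ}
    (hc : ContinuousAt ν s₀) (hη : 0 < η)
    (h : ∀ᶠ δ in 𝓝[>] (0 : ℝ),
      η * δ ≤ ∫ s in Ioi 0, bump (Real.exp (-s₀)) δ (1 * Real.exp (-s)) * ν s) : 0 < ν s₀ := by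
  by_contra hneg
  set y := Real.exp (-s₀) with hy
  have hy0 : 0 < y := Real.exp_pos _
  set ε := η * y / 16
  have hε : 0 < ε := by positivity
  obtain ⟨ρ, hρ, hρ'⟩ := Metric.continuousAt_iff.1 hc ε hε
  have h2 : ∀ᶠ δ in 𝓝[>] (0 : ℝ), δ < min (y / 4) (ρ * y / 4) :=
    nhdsWithin_le_nhds (Iio_mem_nhds (by positivity))
  obtain ⟨δ, ⟨h3, h4⟩, hδ⟩ := ((h.and h2).and self_mem_nhdsWithin).exists
  have hδ0 : 0 < δ := hδ
  have h5 : δ < y / 4 := h4.trans_le (min_le_left _ _)
  have h6 : 4 * δ / y < ρ := by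
    rw [div_lt_iff₀ hy0]; linarith [h4.trans_le (min_le_right _ _)]
  set r := 4 * δ / y
  have hr : 0 < r := by positivity
  have h7 : ∫ s in Ioi 0, bump y δ (1 * Real.exp (-s)) * ν s ≤
      ∫ s in Ioi 0, (Icc (s₀ - r) (s₀ + r)).indicator (fun _ => ε) s := by
    refine setIntegral_mono_on (intg (bump_cont _ _) ⟨zero_le_one, le_rfl⟩ hν)
      ((integrable_indicator_iff measurableSet_Icc).2 (integrableOn_const (by
        rw [Measure.restrict_apply measurableSet_Icc]
        exact ((measure_mono inter_subset_left).trans_lt measure_Icc_lt_top).ne))) measurableSet_Ioi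
      fun s _ => ?_
    by_cases hs : s ∈ Icc (s₀ - r) (s₀ + r)
    · rw [indicator_of_mem hs]
      have : dist s s₀ < ρ := by
        rw [Real.dist_eq, abs_lt]; constructor <;> linarith [hs.1, hs.2]
      have h8 := abs_lt.1 (hρ' this)
      have h9 := bump_nonneg y δ (1 * Real.exp (-s))
      have h10 := bump_le_one y δ (1 * Real.exp (-s))
      nlinarith
    · rw [indicator_of_notMem hs]
      have : bump y δ (1 * Real.exp (-s)) = 0 := by
        by_contra hne
        apply hs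
        have h8 : |Real.exp (-s) - y| < 2 * δ := by
          by_contra hc
          apply hne
          have : 2 - |1 * Real.exp (-s) - y| / δ ≤ 0 := by
            rw [one_mul, sub_nonpos, le_div_iff₀ hδ0]; linarith
          exact max_eq_left ((min_le_right _ _).trans this)
        set x := Real.exp (-s) with hx
        have hx0 : 0 < x := Real.exp_pos _
        obtain ⟨h9, h10⟩ := abs_lt.1 h8
        have e1 : s₀ - s + 1 ≤ x / y := by
          rw [hx, hy, ← Real.exp_sub]
          simpa [add_comm, sub_eq_add_neg] using Real.add_one_le_exp (s₀ - s)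
        have e2 : s - s₀ + 1 ≤ y / x := by
          rw [hx, hy, ← Real.exp_sub]
          simpa [add_comm, sub_eq_add_neg] using Real.add_one_le_exp (s - s₀)
        have e3 : x / y ≤ 1 + r := by
          simp only [r]; rw [div_le_iff₀ hy0]; field_simp; linarith
        have e4 : y / x ≤ 1 + r := by
          rw [div_le_iff₀ hx0]
          have : r * y = 4 * δ := by simp only [r]; field_simp
          nlinarith
        constructor <;> linarith
      rw [this, zero_mul]
  have h8 : ∫ s in Ioi 0, (Icc (s₀ - r) (s₀ + r)).indicator (fun _ => ε) s ≤ ε * (2 * r) := by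
    rw [integral_indicator measurableSet_Icc, setIntegral_const, smul_eq_mul, mul_comm]
    refine mul_le_mul_of_nonneg_left ?_ hε.le
    rw [measureReal_restrict_apply measurableSet_Icc]
    refine (measureReal_mono inter_subset_left measure_Icc_lt_top.ne).trans ?_
    rw [Real.volume_real_Icc_of_le (by linarith)]; linarith
  have h9 : ε * (2 * r) = η * δ / 2 := by simp only [ε, r]; field_simp; ring
  nlinarith

theorem integrableOn_exp_two : IntegrableOn (fun s : ℝ => Real.exp (-(2 * s))) (Ioi 0) := by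
  simpa using exp_neg_integrableOn_Ioi 0 (two_pos (α := ℝ))

theorem bump_lower {s₀ δ x : ℝ} (hδ : 0 < δ) (hδ' : δ ≤ s₀ / 2)
    (hx : Real.exp (-(s₀ / 2)) ≤ x) (hx1 : x ≤ 1) :
    Real.exp (-(2 * s₀)) * δ ≤
      ∫ s in Ioi 0, bump (Real.exp (-s₀)) δ (x * Real.exp (-s)) * Real.exp (-(2 * s)) := by
  have hx0 : 0 < x := (Real.exp_pos _).trans_le hx
  set v := -Real.log x with hv
  have hv0 : 0 ≤ v := by simp only [hv]; linarith [Real.log_nonpos hx0.le hx1]
  have hv1 : v ≤ s₀ / 2 := by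
    have := Real.log_le_log (Real.exp_pos _) hx
    rw [Real.log_exp] at this; linarith
  have hxv : x = Real.exp (-v) := by simp [hv, Real.exp_log hx0]
  have hsub : Ioc (s₀ - v - δ) (s₀ - v) ⊆ Ioi 0 := fun s hs => by
    have := hs.1; simp only [mem_Ioi]; linarith
  have hi := intg (bump_cont (Real.exp (-s₀)) δ) ⟨hx0.le, hx1⟩ integrableOn_exp_two
  refine le_trans ?_ (setIntegral_mono_set hi (Eventually.of_forall fun s =>
    mul_nonneg (bump_nonneg _ _ _) (Real.exp_pos _).le) hsub.eventuallyLE)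
  have h1 : ∫ _ in Ioc (s₀ - v - δ) (s₀ - v), Real.exp (-(2 * s₀)) = Real.exp (-(2 * s₀)) * δ := by
    rw [setIntegral_const, Real.volume_real_Ioc_of_le (by linarith), smul_eq_mul]; ring
  rw [← h1]
  refine setIntegral_mono_on (integrableOn_const measure_Ioc_lt_top.ne) (hi.mono_set hsub)
    measurableSet_Ioc fun s hs => ?_
  have h2 : bump (Real.exp (-s₀)) δ (x * Real.exp (-s)) = 1 := by
    have h3 : |x * Real.exp (-s) - Real.exp (-s₀)| ≤ δ := by
      rw [hxv, ← Real.exp_add]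
      have e1 : Real.exp (-s₀) ≤ Real.exp (-v + -s) := Real.exp_le_exp.2 (by linarith [hs.2])
      have e2 : Real.exp (-v + -s) ≤ 1 := Real.exp_le_one_iff.2 (by linarith [hs.1])
      have e3 : Real.exp (-s₀) = Real.exp (-v + -s) * Real.exp (v + s - s₀) := by
        rw [← Real.exp_add]; ring_nf
      have e4 := Real.add_one_le_exp (v + s - s₀)
      have e5 := Real.exp_pos (-v + -s)
      rw [abs_of_nonneg (by linarith)]
      nlinarith [hs.1, hs.2]
    have h4 : 1 ≤ 2 - |x * Real.exp (-s) - Real.exp (-s₀)| / δ := by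
      have := (div_le_one hδ).2 h3; linarith
    rw [bump, min_eq_left h4, max_eq_right zero_le_one]
  rw [h2, one_mul]
  exact Real.exp_le_exp.2 (by linarith [hs.2])

noncomputable def opT : ℝ[X] →ₗ[ℝ] ℝ[X] :=
  (Polynomial.basisMonomials ℝ).constr ℝ fun j : ℕ => (1 / ((j : ℝ) + 2)) • X ^ j

theorem opT_X_pow (j : ℕ) : opT (X ^ j) = (1 / ((j : ℝ) + 2)) • X ^ j := by
  have := (Polynomial.basisMonomials ℝ).constr_basis ℝ
    (fun j : ℕ => (1 / ((j : ℝ) + 2)) • (X ^ j : ℝ[X])) j
  rw [← this, Polynomial.X_pow_eq_monomial]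
  rfl

theorem opT_eval (p : ℝ[X]) {x : ℝ} (hx : x ∈ Icc (0 : ℝ) 1) :
    (opT p).eval x = ∫ s in Ioi 0, p.eval (x * Real.exp (-s)) * Real.exp (-(2 * s)) := by
  refine lin_eq_integral (Λ := (Polynomial.leval x).comp opT) hx integrableOn_exp_two
    (fun j => ?_) p
  have h1 : ∀ s : ℝ, (x * Real.exp (-s)) ^ j * Real.exp (-(2 * s)) =
      x ^ j * Real.exp (-((j : ℝ) + 2) * s) := fun s => by
    rw [mul_pow, ← Real.exp_nat_mul, mul_assoc, ← Real.exp_add]; ring_nf
  simp only [h1]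
  rw [integral_const_mul, integral_exp_mul_Ioi (by linarith [Nat.cast_nonneg (α := ℝ) j])]
  have : (j : ℝ) + 2 ≠ 0 := by positivity
  simp only [LinearMap.comp_apply, opT_X_pow, map_smul, Polynomial.leval_apply, eval_pow, eval_X,
    smul_eq_mul, mul_zero, Real.exp_zero]
  field_simp

/-- The core positivity theorem. -/
theorem lap_pos {m f g : ℝ → ℝ} (hm : IntegrableOn (fun s => Real.exp (-s) * m s) (Ioi 0))
    (hf : ∀ j : ℕ, f (1 + j) = ∫ s in Ioi 0, Real.exp (-((1 + j) * s)) * m s)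
    (hg : DC g) (hA : DC fun t => f t - g t / (1 + t))
    (hsub : ∀ θ : ℝ, 0 < θ → θ < 1 → ∃ J : ℕ, θ ^ J * g 1 < g (1 + J))
    {s₀ : ℝ} (hs₀ : 0 < s₀) (hc : ContinuousAt m s₀) : 0 < m s₀ := by
  set θ := Real.exp (-(s₀ / 2))
  obtain ⟨J, hJ⟩ := hsub θ (Real.exp_pos _) (Real.exp_lt_one_iff.2 (by linarith))
  have key := pos_of_bump (s₀ := s₀) (η := Real.exp (-(2 * s₀)) * (g (1 + J) - θ ^ J * g 1)) hm
    (by fun_prop) (mul_pos (Real.exp_pos _) (by linarith)) ?_
  · exact (mul_pos_iff_of_pos_left (Real.exp_pos _)).1 key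
  have h2 : ∀ᶠ δ in 𝓝[>] (0 : ℝ), δ < s₀ / 2 := nhdsWithin_le_nhds (Iio_mem_nhds (by positivity))
  filter_upwards [h2, self_mem_nhdsWithin] with δ hδ' hδ
  have hδ0 : 0 < δ := hδ
  refine weier (bump_cont _ _) hm fun p hp => ?_
  have e1 := lin_eq_integral (Λ := lam f) ⟨zero_le_one, le_rfl⟩ hm (fun j => by
    rw [lam_X_pow, hf]
    refine integral_congr_ae (Eventually.of_forall fun s => ?_)
    simp only [one_mul]
    rw [← mul_assoc, ← Real.exp_nat_mul, ← Real.exp_add]; ring_nf) p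
  have e2 : lam (fun t => f t - g t / (1 + t)) p = lam f p - lam g (opT p) := by
    refine lin_ext (Λ₂ := lam f - (lam g).comp opT) (fun j => ?_) p
    simp only [lam_X_pow, LinearMap.sub_apply, LinearMap.comp_apply, opT_X_pow, map_smul,
      smul_eq_mul]
    field_simp
    ring
  have e3 := lam_nonneg hA p fun x hx => (bump_nonneg _ _ _).trans (hp x hx)
  set c := Real.exp (-(2 * s₀)) * δ
  have hc0 : 0 < c := mul_pos (Real.exp_pos _) hδ0
  have e4 := lam_nonneg hg (opT p - c • (X ^ J - θ ^ J • X ^ 0)) fun x hx => by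
    have hlow : ∫ s in Ioi 0, bump (Real.exp (-s₀)) δ (x * Real.exp (-s)) * Real.exp (-(2 * s)) ≤
        (opT p).eval x := by
      rw [opT_eval p hx]
      refine setIntegral_mono_on (intg (bump_cont _ _) hx integrableOn_exp_two)
        (intg p.continuous hx integrableOn_exp_two) measurableSet_Ioi fun s hs => ?_
      exact mul_le_mul_of_nonneg_right (hp _ (mem_unit hx hs)) (Real.exp_pos _).le
    simp only [eval_sub, eval_smul, eval_pow, eval_X, smul_eq_mul, pow_zero, mul_one, eval_one]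
    rcases le_total x θ with h | h
    · have : 0 ≤ ∫ s in Ioi 0, bump (Real.exp (-s₀)) δ (x * Real.exp (-s)) * Real.exp (-(2 * s)) :=
        integral_nonneg fun s => mul_nonneg (bump_nonneg _ _ _) (Real.exp_pos _).le
      have h3 : x ^ J ≤ θ ^ J := pow_le_pow_left₀ hx.1 h J
      nlinarith
    · have h3 := bump_lower hδ0 hδ'.le h hx.2
      have h4 : x ^ J ≤ 1 := pow_le_one₀ hx.1 hx.2
      have h5 : 0 ≤ θ ^ J := by positivity
      nlinarith
  simp only [map_sub, map_smul, lam_X_pow, smul_eq_mul, Nat.cast_zero, add_zero] at e4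
  rw [← e1]
  simp only [c] at e4
  nlinarith

theorem lap_nonneg {m f : ℝ → ℝ} (hm : IntegrableOn (fun s => Real.exp (-s) * m s) (Ioi 0))
    (hf : ∀ j : ℕ, f (1 + j) = ∫ s in Ioi 0, Real.exp (-((1 + j) * s)) * m s)
    (hD : DC f) {s₀ : ℝ} (hs₀ : 0 < s₀) (hc : ContinuousAt m s₀) : 0 ≤ m s₀ := by
  refine le_of_forall_pos_le_add fun ε hε => ?_
  have hmj : ∀ j : ℕ, IntegrableOn (fun s => Real.exp (-((1 + j) * s)) * m s) (Ioi 0) := fun j => by
    have := intg (continuous_pow j) ⟨zero_le_one, le_rfl⟩ hm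
    refine this.congr_fun (fun s _ => ?_) measurableSet_Ioi
    simp only [one_mul]
    rw [← mul_assoc, ← Real.exp_nat_mul, ← Real.exp_add]; ring_nf
  have he : ∀ j : ℕ, ∀ s : ℝ, Real.exp (-((1 + j) * s)) * (ε * Real.exp (-s)) =
      ε * Real.exp (-((j : ℝ) + 2) * s) := fun j s => by
    rw [mul_left_comm, ← Real.exp_add]; ring_nf
  have hej : ∀ j : ℕ, IntegrableOn (fun s => Real.exp (-((1 + j) * s)) * (ε * Real.exp (-s)))
      (Ioi 0) := fun j => by
    simp only [he]
    exact (exp_neg_integrableOn_Ioi 0 (by positivity)).const_mul _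
  have := lap_pos (m := fun s => m s + ε * Real.exp (-s)) (f := fun t => f t + ε / (1 + t))
    (g := fun _ => ε) (by
      refine (hm.add (hej 0)).congr_fun (fun s _ => ?_) measurableSet_Ioi
      simp [mul_add]) (fun j => by
      simp only [mul_add]
      rw [integral_add (hmj j) (hej j), ← hf]
      simp only [he]
      rw [integral_const_mul, integral_exp_mul_Ioi (by linarith [Nat.cast_nonneg (α := ℝ) j])]
      have : (j : ℝ) + 2 ≠ 0 := by positivity
      simp only [mul_zero, Real.exp_zero]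
      field_simp
      ring) (DC.const hε.le) (by simpa using hD)
      (fun θ _ h1 => ⟨1, by simpa using mul_lt_of_lt_one_left hε h1⟩) hs₀ (by fun_prop)
  have h2 : Real.exp (-s₀) ≤ 1 := Real.exp_le_one_iff.2 (by linarith)
  nlinarith

end Pool.Agent.Lib.MP_70615d_an
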