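import Mathlib
import Pool.Agent.Lib.MP_70615d_an.Rep
import Pool.Agent.Lib.MP_70615d_an.Pos

/-!
The series form of the Laplace densities.
-/

set_option autoImplicit false

namespace Pool.Agent.Lib.MP_70615d_an

open Filter Topology Set MeasureTheory

noncomputable def psi (x : ℝ) : ℝ := logDeriv Real.Gamma x

noncomputable def gam (s x : ℝ) : ℝ := s ^ (x - 1) / Real.Gamma x

theorem diff_Gamma {x : ℝ} (hx : 0 < x) : DifferentiableAt ℝ Real.Gamma x :=
  Real.differentiableAt_Gamma fun m => by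
    have : (0 : ℝ) ≤ m := by positivity
    linarith

theorem hasDerivAt_Gamma' {x : ℝ} (hx : 0 < x) :
    HasDerivAt Real.Gamma (psi x * Real.Gamma x) x := by
  have := (diff_Gamma hx).hasDerivAt
  rwa [psi, logDeriv_apply, div_mul_cancel₀ _ (Real.Gamma_pos_of_pos hx).ne']

theorem hasDerivAt_logGamma {x : ℝ} (hx : 0 < x) :
    HasDerivAt (Real.log ∘ Real.Gamma) (psi x) x := by
  have := (hasDerivAt_Gamma' hx).log (Real.Gamma_pos_of_pos hx).ne'
  rwa [mul_div_cancel_right₀ _ (Real.Gamma_pos_of_pos hx).ne'] at this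

theorem logGamma_add_one {x : ℝ} (hx : 0 < x) :
    Real.log (Real.Gamma (x + 1)) = Real.log x + Real.log (Real.Gamma x) := by
  rw [Real.Gamma_add_one hx.ne', Real.log_mul hx.ne' (Real.Gamma_pos_of_pos hx).ne']

theorem psi_le {x : ℝ} (hx : 0 < x) : psi x ≤ Real.log x := by
  have := Real.convexOn_log_Gamma.le_slope_of_hasDerivAt (x := x) (y := x + 1) hx
    (by simp only [mem_Ioi]; linarith) (by linarith) (hasDerivAt_logGamma hx)
  simpa [slope_def_field, logGamma_add_one hx] using this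

theorem le_psi {x : ℝ} (hx : 0 < x) : Real.log x ≤ psi (x + 1) := by
  have := Real.convexOn_log_Gamma.slope_le_of_hasDerivAt (x := x) (y := x + 1) hx
    (by simp only [mem_Ioi]; linarith) (by linarith) (hasDerivAt_logGamma (by linarith))
  simpa [slope_def_field, logGamma_add_one hx] using this

theorem psi_add_one {x : ℝ} (hx : 0 < x) : psi (x + 1) = psi x + 1 / x := by
  have h1 := (hasDerivAt_logGamma (by linarith : 0 < x + 1)).comp_add_const x 1
  have h2 := (Real.hasDerivAt_log hx.ne').add (hasDerivAt_logGamma hx)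
  have h3 : HasDerivAt (fun y => (Real.log ∘ Real.Gamma) (y + 1)) (x⁻¹ + psi x) x := by
    refine h2.congr_of_eventuallyEq ?_
    filter_upwards [Ioi_mem_nhds hx] with y hy
    exact logGamma_add_one hy
  rw [h1.unique h3]; simp [add_comm]

theorem gam_pos {s x : ℝ} (hs : 0 < s) (hx : 0 < x) : 0 < gam s x :=
  div_pos (Real.rpow_pos_of_pos hs _) (Real.Gamma_pos_of_pos hx)

theorem hasDerivAt_gam {s x : ℝ} (hs : 0 < s) (hx : 0 < x) :
    HasDerivAt (gam s) (-(gam s x * (psi x - Real.log s))) x := by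
  have h1 : HasDerivAt (fun x : ℝ => s ^ (x - 1)) (s ^ (x - 1) * Real.log s) x := by
    simpa using ((Real.hasStrictDerivAt_const_rpow hs (x - 1)).hasDerivAt).comp_sub_const x 1
  have hG := (Real.Gamma_pos_of_pos hx).ne'
  refine (h1.div (hasDerivAt_Gamma' hx) hG).congr_deriv ?_
  rw [gam]; field_simp; ring

theorem gam_mvt {s x a : ℝ} (hs : 0 < s) (ha : 0 < a) (hx : 0 < x - a) :
    ∃ ξ ∈ Ioo (x - a) x, (gam s (x - a) - gam s x) / a = gam s ξ * (psi ξ - Real.log s) := by
  obtain ⟨ξ, hξ, h⟩ := exists_hasDerivAt_eq_slope (gam s)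
    (fun x => -(gam s x * (psi x - Real.log s))) (a := x - a) (b := x) (by linarith)
    (fun y hy => (hasDerivAt_gam hs (by linarith [hy.1])).continuousAt.continuousWithinAt)
    (fun y hy => hasDerivAt_gam hs (by linarith [hy.1]))
  refine ⟨ξ, hξ, ?_⟩
  rw [← neg_neg (gam s ξ * _), h, sub_sub_cancel]; ring

theorem gam_le {s S x : ℝ} (hs : 0 < s) (hS : s ≤ S) (hS1 : 1 ≤ S) (j : ℕ) (h1 : j + 2 ≤ x)
    (h2 : x ≤ 4 * (j + 1)) : gam s x ≤ S ^ (4 * (j + 1)) / (j + 1).factorial := by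
  have hj : (0 : ℝ) ≤ j := by positivity
  refine div_le_div₀ (by positivity) ?_ (by positivity) ?_
  · refine (Real.rpow_le_rpow hs.le hS (by linarith)).trans ?_
    rw [← Real.rpow_natCast]
    exact Real.rpow_le_rpow_of_exponent_le hS1 (by push_cast; linarith)
  · rw [← Real.Gamma_nat_eq_factorial]
    refine Real.Gamma_strictMonoOn_Ici.monotoneOn ?_ ?_ (by push_cast; linarith) <;>
      simp only [mem_Ici] <;> push_cast <;> linarith

theorem term_le {s S x : ℝ} (hs : 0 < s) (hS : s ≤ S) (hS1 : 1 ≤ S) (j : ℕ) (h1 : j + 2 ≤ x)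
    (h2 : x ≤ 4 * (j + 1)) : |gam s x * (psi x - Real.log s)| ≤
      S ^ 4 * (4 + |Real.log s|) * ((S ^ 4) ^ j / j.factorial) := by
  have hj : (0 : ℝ) ≤ j := by positivity
  have hx : 0 < x := by linarith
  have p1 : 0 ≤ psi x := by
    have := le_psi (x := x - 1) (by linarith)
    rw [sub_add_cancel] at this
    exact (Real.log_nonneg (by linarith)).trans this
  have p2 : psi x ≤ 4 * (j + 1) := by linarith [psi_le hx, Real.log_le_sub_one_of_pos hx]
  have p3 : |psi x - Real.log s| ≤ (j + 1) * (4 + |Real.log s|) := by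
    refine (abs_sub _ _).trans ?_
    rw [abs_of_nonneg p1]
    nlinarith [abs_nonneg (Real.log s)]
  rw [abs_mul, abs_of_pos (gam_pos hs hx)]
  refine (mul_le_mul (gam_le hs hS hS1 j h1 h2) p3 (abs_nonneg _) (by positivity)).trans
    (le_of_eq ?_)
  rw [Nat.factorial_succ]; push_cast
  field_simp
  ring

noncomputable def PP (a b s : ℝ) : ℝ := ∑' j : ℕ, gam s ((j + 1) * b - a)

theorem idx {a b : ℝ} (ha : 0 ≤ a) (hab : 2 ≤ b - a) (hb4 : b < 4) (j : ℕ) :
    (j : ℝ) + 2 ≤ (j + 1) * b - a ∧ (j + 1) * b ≤ 4 * ((j : ℝ) + 1) := by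
  have hj : (0 : ℝ) ≤ j := by positivity
  constructor <;> nlinarith

theorem summable_u (S : ℝ) : Summable fun j : ℕ => S ^ (4 * (j + 1)) / ((j + 1).factorial : ℝ) := by
  have := (summable_nat_add_iff 1).2 (Real.summable_pow_div_factorial (S ^ 4))
  simpa [pow_mul] using this

theorem summable_gam {a b s : ℝ} (ha : 0 ≤ a) (hab : 2 ≤ b - a) (hb4 : b < 4) (hs : 0 < s) :
    Summable fun j : ℕ => gam s ((j + 1) * b - a) := by
  refine Summable.of_nonneg_of_le (fun j => ?_) (fun j => ?_) (summable_u (max s 1))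
  · have := (idx ha hab hb4 j).1
    exact (gam_pos hs (by linarith [Nat.cast_nonneg (α := ℝ) j])).le
  · exact gam_le hs (le_max_left _ _) (le_max_right _ _) j (idx ha hab hb4 j).1
      (by linarith [(idx ha hab hb4 j).2])

theorem PP_cont {a b s : ℝ} (ha : 0 ≤ a) (hab : 2 ≤ b - a) (hb4 : b < 4) (hs : 0 < s) :
    ContinuousAt (PP a b) s := by
  have : ContinuousOn (PP a b) (Ioo 0 (s + 1)) := by
    refine continuousOn_tsum (fun j => ?_) (summable_u (s + 1)) fun j x hx => ?_
    · exact fun x hx => ((Real.continuousAt_rpow_const _ _ (Or.inl hx.1.ne')).div_const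
        _).continuousWithinAt
    · have := (idx ha hab hb4 j).1
      rw [Real.norm_of_nonneg (gam_pos hx.1 (by linarith [Nat.cast_nonneg (α := ℝ) j])).le]
      exact gam_le hx.1 hx.2.le (by linarith) j this (by linarith [(idx ha hab hb4 j).2])
  exact this.continuousAt (Ioo_mem_nhds hs (by linarith))

theorem integrable_tsum' {μ : Measure ℝ} {F : ℕ → ℝ → ℝ} (hF : ∀ i, Integrable (F i) μ)
    (hs : Summable fun i => ∫ a, ‖F i a‖ ∂μ) (hm : AEStronglyMeasurable (fun a => ∑' i, F i a) μ) :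
    Integrable (fun a => ∑' i, F i a) μ := by
  refine ⟨hm, ?_⟩
  refine lt_of_le_of_lt (lintegral_mono fun a => enorm_tsum_le_tsum_enorm) ?_
  rw [lintegral_tsum fun i => (hF i).1.enorm]
  simp only [← fun i => ofReal_integral_norm_eq_lintegral_enorm (hF i)]
  rw [← ENNReal.ofReal_tsum_of_nonneg (fun i => integral_nonneg fun _ => norm_nonneg _) hs]
  exact ENNReal.ofReal_lt_top

theorem lap_gam {t x : ℝ} (ht : 0 < t) (hx : 0 < x) :
    IntegrableOn (fun s => Real.exp (-(t * s)) * gam s x) (Ioi 0) ∧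
      ∫ s in Ioi 0, Real.exp (-(t * s)) * gam s x = t ^ (-x) := by
  have e : ∀ s, Real.exp (-(t * s)) * gam s x =
      (Real.Gamma x)⁻¹ * (s ^ (x - 1) * Real.exp (-(t * s))) := fun s => by rw [gam]; ring
  simp only [e]
  constructor
  · have := integrableOn_rpow_mul_exp_neg_mul_rpow (p := 1) (s := x - 1) (b := t) (by linarith)
      one_pos ht
    simp only [Real.rpow_one, neg_mul] at this
    exact this.const_mul _
  · have := (Real.Gamma_pos_of_pos hx).ne'
    rw [integral_const_mul, Real.integral_rpow_mul_exp_neg_mul_Ioi hx ht, Real.rpow_neg ht.le,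
      one_div, Real.inv_rpow ht.le]
    field_simp

theorem lap_PP {a b t : ℝ} (ha : 0 ≤ a) (hab : 2 ≤ b - a) (hb4 : b < 4) (ht : 1 < t) :
    IntegrableOn (fun s => Real.exp (-(t * s)) * PP a b s) (Ioi 0) ∧
      ∫ s in Ioi 0, Real.exp (-(t * s)) * PP a b s = t ^ a / (t ^ b - 1) := by
  have ht0 : 0 < t := by linarith
  have hx : ∀ j : ℕ, 0 < ((j : ℝ) + 1) * b - a := fun j => by
    linarith [(idx ha hab hb4 j).1, Nat.cast_nonneg (α := ℝ) j]
  have hq : t ^ (-b) < 1 := Real.rpow_lt_one_of_one_lt_of_neg ht (by linarith)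
  have hq0 : 0 < t ^ (-b) := Real.rpow_pos_of_pos ht0 _
  have hgeo : HasSum (fun j : ℕ => t ^ (-(((j : ℝ) + 1) * b - a))) (t ^ a / (t ^ b - 1)) := by
    have := (hasSum_geometric_of_lt_one hq0.le hq).mul_left (t ^ a * t ^ (-b))
    have e : t ^ a * t ^ (-b) * (1 - t ^ (-b))⁻¹ = t ^ a / (t ^ b - 1) := by
      have h1 : 1 < t ^ b := Real.one_lt_rpow ht (by linarith)
      have : t ^ b - 1 ≠ 0 := by linarith
      rw [Real.rpow_neg ht0.le]; field_simp
    rw [e] at this
    have e2 : ∀ j : ℕ, t ^ (-(((j : ℝ) + 1) * b - a)) = t ^ a * t ^ (-b) * (t ^ (-b)) ^ j := fun j => by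
      rw [← Real.rpow_natCast, ← Real.rpow_mul ht0.le, ← Real.rpow_add ht0, ← Real.rpow_add ht0]
      ring_nf
    simpa only [e2] using this
  have hn : ∀ j : ℕ, ∫ s in Ioi 0, ‖Real.exp (-(t * s)) * gam s ((j + 1) * b - a)‖ =
      t ^ (-(((j : ℝ) + 1) * b - a)) := fun j => by
    rw [← (lap_gam ht0 (hx j)).2]
    exact setIntegral_congr_fun measurableSet_Ioi fun s hs =>
      Real.norm_of_nonneg (mul_pos (Real.exp_pos _) (gam_pos hs (hx j))).le
  have hsum : Summable fun j : ℕ =>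
      ∫ s in Ioi 0, ‖Real.exp (-(t * s)) * gam s ((j + 1) * b - a)‖ := by
    simp only [hn]; exact hgeo.summable
  simp only [PP, ← tsum_mul_left]
  constructor
  · refine integrable_tsum' (fun j => (lap_gam ht0 (hx j)).1) hsum ?_
    simp only [tsum_mul_left]
    refine ContinuousOn.aestronglyMeasurable (fun s hs => ?_) measurableSet_Ioi
    exact (ContinuousAt.mul (by fun_prop) (PP_cont ha hab hb4 hs)).continuousWithinAt
  · rw [← integral_tsum_of_summable_integral_norm (fun j => (lap_gam ht0 (hx j)).1) hsum,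
      ← hgeo.tsum_eq]
    exact tsum_congr fun j => (lap_gam ht0 (hx j)).2

theorem lap_unique {m : ℝ → ℝ} (hm : IntegrableOn (fun s => Real.exp (-s) * m s) (Ioi 0))
    (h0 : ∀ j : ℕ, ∫ s in Ioi 0, Real.exp (-((1 + j) * s)) * m s = 0) {s₀ : ℝ} (hs₀ : 0 < s₀)
    (hc : ContinuousAt m s₀) : m s₀ = 0 := by
  have h1 := lap_nonneg (f := fun _ => 0) hm (fun j => (h0 j).symm) (DC.const le_rfl) hs₀ hc
  have h2 := lap_nonneg (m := fun s => -m s) (f := fun _ => 0)
    (by simpa using hm.neg) (fun j => by simp [integral_neg, h0 j]) (DC.const le_rfl) hs₀ hc.neg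
  linarith

theorem mm_eq_PP {a b s : ℝ} (ha : 0 < a) (ha1 : a ≤ 1) (hab : 2 ≤ b - a) (hb4 : b < 4)
    (hs : 0 < s) : a * mm a b s = PP a b s - PP 0 b s := by
  have hb : 2 < b := by linarith
  have hb' : 2 ≤ b - 0 := by linarith
  have e : ∀ t s : ℝ, Real.exp (-(t * s)) * (Real.exp (-s) * (a * mm a b s - (PP a b s - PP 0 b s))) =
      a * (Real.exp (-((t + 1) * s)) * mm a b s) - (Real.exp (-((t + 1) * s)) * PP a b s -
        Real.exp (-((t + 1) * s)) * PP 0 b s) := fun t s => by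
    rw [← mul_assoc, ← Real.exp_add, show -(t * s) + -s = -((t + 1) * s) by ring]; ring
  have := lap_unique (m := fun s => Real.exp (-s) * (a * mm a b s - (PP a b s - PP 0 b s)))
    ?_ (fun j => ?_) hs ?_
  · have := (mul_eq_zero.1 this).resolve_left (Real.exp_pos _).ne'
    linarith
  · have := e 1
    simp only [one_mul] at this
    simp only [this]
    exact ((laplace ha.le ha1 hb hb4 (by norm_num)).1.const_mul _).sub
      ((lap_PP ha.le hab hb4 (by norm_num)).1.sub (lap_PP le_rfl hb' hb4 (by norm_num)).1)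
  · have ht : (1 : ℝ) < 1 + j + 1 := by linarith [Nat.cast_nonneg (α := ℝ) j]
    have l1 := laplace ha.le ha1 hb hb4 (zero_lt_one.trans ht)
    have l2 := lap_PP ha.le hab hb4 ht
    have l3 := lap_PP le_rfl hb' hb4 ht
    simp only [e]
    have l4 : IntegrableOn (fun s => Real.exp (-((1 + j + 1) * s)) * PP a b s -
      Real.exp (-((1 + j + 1) * s)) * PP 0 b s) (Ioi 0) := l2.1.sub l3.1
    rw [integral_sub (l1.1.const_mul _) l4, integral_sub l2.1 l3.1, integral_const_mul,
      ← l1.2, l2.2, l3.2, mul_K (by linarith) (zero_lt_one.trans ht) ht.ne', Real.rpow_zero,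
      ← neg_div_neg_eq]
    ring
  · have := mm_cont_s ha.le ha1 hb hb4 hs
    have := PP_cont ha.le hab hb4 hs
    have := PP_cont le_rfl hb' hb4 hs
    fun_prop

theorem mm_eq_tsum {a b s : ℝ} (ha : 0 < a) (ha1 : a ≤ 1) (hab : 2 ≤ b - a) (hb4 : b < 4)
    (hs : 0 < s) :
    mm a b s = ∑' j : ℕ, (gam s ((j + 1) * b - a) - gam s ((j + 1) * b)) / a := by
  have h1 := mm_eq_PP ha ha1 hab hb4 hs
  have h2 := summable_gam le_rfl (by linarith : 2 ≤ b - 0) hb4 hs
  simp only [PP, sub_zero] at h1 h2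
  rw [tsum_div_const, (summable_gam ha.le hab hb4 hs).tsum_sub h2, ← h1]
  field_simp

theorem mm_nonneg_small {a b s : ℝ} (ha : 0 < a) (ha1 : a ≤ 1) (hab : 3 ≤ b - a) (hb4 : b < 4)
    (hs : 0 < s) (hs2 : s ≤ 2) : 0 ≤ mm a b s := by
  rw [mm_eq_tsum ha ha1 (by linarith) hb4 hs]
  refine tsum_nonneg fun j => ?_
  have hj : (0 : ℝ) ≤ j := by positivity
  have h1 : 3 ≤ ((j : ℝ) + 1) * b - a := by nlinarith
  obtain ⟨ξ, hξ, h⟩ := gam_mvt (x := (j + 1) * b) hs ha (by linarith)
  rw [h]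
  refine mul_nonneg (gam_pos hs (by linarith [hξ.1])).le ?_
  have := le_psi (x := ξ - 1) (by linarith [hξ.1])
  rw [sub_add_cancel] at this
  linarith [Real.log_le_log hs (by linarith [hξ.1] : s ≤ ξ - 1)]

theorem dens_eq_tsum (b s : ℝ) :
    dens b s = ∑' j : ℕ, gam s ((j + 1) * b) * (psi ((j + 1) * b) - Real.log s) := by
  refine tsum_congr fun j => ?_
  rw [gam, psi]; ring

theorem summable_dens {b s : ℝ} (hb : 2 ≤ b) (hb4 : b < 4) (hs : 0 < s) :
    Summable fun j : ℕ => gam s ((j + 1) * b) * (psi ((j + 1) * b) - Real.log s) := by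
  refine Summable.of_norm_bounded
    ((Real.summable_pow_div_factorial ((max s 1) ^ 4)).mul_left
      ((max s 1) ^ 4 * (4 + |Real.log s|))) fun j => ?_
  have := idx le_rfl (by linarith : 2 ≤ b - 0) hb4 j
  exact term_le hs (le_max_left _ _) (le_max_right _ _) j (by linarith) this.2

theorem mm_zero_eq {b s : ℝ} (hb : 2 < b) (hb4 : b < 4) (hs : 0 < s) : mm 0 b s = dens b s := by
  have ev : ∀ᶠ a in 𝓝[>] (0 : ℝ), 0 < a ∧ a < min 1 (b - 2) :=
    Eventually.and self_mem_nhdsWithin (nhdsWithin_le_nhds (Iio_mem_nhds (by simp; linarith)))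
  have l1 : Tendsto (fun a => mm a b s) (𝓝[>] 0) (𝓝 (mm 0 b s)) := by
    refine (mm_cont (a := 0) hb hb4 hs).tendsto.comp (f := fun a : ℝ => (a, b, s)) ?_
    refine tendsto_nhdsWithin_iff.2 ⟨?_, ?_⟩
    · exact (Continuous.tendsto (by fun_prop) 0).mono_left nhdsWithin_le_nhds
    · filter_upwards [ev] with a ha
      exact ⟨⟨ha.1.le, (ha.2.trans_le (min_le_left _ _)).le⟩, mem_univ _⟩
  have l2 : Tendsto (fun a => ∑' j : ℕ, (gam s ((j + 1) * b - a) - gam s ((j + 1) * b)) / a)
      (𝓝[>] 0) (𝓝 (dens b s)) := by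
    rw [dens_eq_tsum]
    refine tendsto_tsum_of_dominated_convergence
      ((Real.summable_pow_div_factorial ((max s 1) ^ 4)).mul_left
        ((max s 1) ^ 4 * (4 + |Real.log s|))) (fun j => ?_) ?_
    · have hx : 0 < ((j : ℝ) + 1) * b := by positivity
      have h1 : HasDerivAt (fun a => gam s ((j + 1) * b - a))
          (gam s ((j + 1) * b) * (psi ((j + 1) * b) - Real.log s)) 0 := by
        have := HasDerivAt.comp_const_sub ((j + 1) * b) 0 (f := gam s)
          (by rw [sub_zero]; exact hasDerivAt_gam hs hx)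
        rwa [neg_neg] at this
      refine h1.tendsto_slope_zero_right.congr fun a => ?_
      simp [div_eq_inv_mul]
    · filter_upwards [ev] with a ha j
      have h2 : 2 ≤ b - a := by linarith [ha.2.trans_le (min_le_right _ _)]
      have h3 := idx ha.1.le h2 hb4 j
      obtain ⟨ξ, hξ, h⟩ := gam_mvt (x := (j + 1) * b) hs ha.1
        (by linarith [Nat.cast_nonneg (α := ℝ) j])
      rw [h]
      exact term_le hs (le_max_left _ _) (le_max_right _ _) j (by linarith [hξ.1])
        (by linarith [hξ.2])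
  refine tendsto_nhds_unique l1 (l2.congr' ?_)
  filter_upwards [ev] with a ha
  exact (mm_eq_tsum ha.1 (ha.2.trans_le (min_le_left _ _)).le
    (by linarith [ha.2.trans_le (min_le_right _ _)]) hb4 hs).symm

theorem dens_pos_small {b s : ℝ} (hb : 2 < b) (hb4 : b < 4) (hs : 0 < s) (hs2 : s < b - 1) :
    0 < dens b s := by
  rw [dens_eq_tsum]
  have : ∀ j : ℕ, 0 < gam s ((j + 1) * b) * (psi ((j + 1) * b) - Real.log s) := fun j => by
    have hj : (0 : ℝ) ≤ j := by positivity
    refine mul_pos (gam_pos hs (by positivity)) ?_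
    have := le_psi (x := (j + 1) * b - 1) (by nlinarith)
    rw [sub_add_cancel] at this
    linarith [Real.log_lt_log hs (by nlinarith : s < (j + 1) * b - 1)]
  exact (summable_dens hb.le hb4 hs).tsum_pos (fun j => (this j).le) 0 (this 0)

theorem DC_of_mm {a b : ℝ} (ha : 0 ≤ a) (ha1 : a ≤ 1) (hb : 2 < b) (hb4 : b < 4)
    (h : ∀ s, 0 < s → 0 ≤ mm a b s) : DC (K a b) := by
  refine (DC.integral (μ := volume.restrict (Ioi 0))
    (F := fun s t => Real.exp (-(t * s)) * mm a b s) ?_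
    fun t ht => (laplace ha ha1 hb hb4 ht).1).congr fun t ht => (laplace ha ha1 hb hb4 ht).2
  filter_upwards [ae_restrict_mem measurableSet_Ioi] with s hs
  exact (DC.exp_neg (le_of_lt hs)).mul (DC.const (h s hs))

theorem mm_nonneg_of_DC {a b : ℝ} (ha : 0 ≤ a) (ha1 : a ≤ 1) (hb : 2 < b) (hb4 : b < 4)
    (h : DC (K a b)) {s : ℝ} (hs : 0 < s) : 0 ≤ mm a b s :=
  lap_nonneg (by simpa using (laplace ha ha1 hb hb4 one_pos).1)
    (fun j => (laplace ha ha1 hb hb4 (by positivity)).2) h hs (mm_cont_s ha ha1 hb hb4 hs)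

end Pool.Agent.Lib.MP_70615d_an
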