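import Mathlib
import Pool.Agent.Lib.MP_70615d_an.Series

/-!
Two-sided Stirling bounds for `log Γ` and for the digamma function.
-/

set_option autoImplicit false

namespace Pool.Agent.Lib.MP_70615d_an

open Filter Topology Set

noncomputable def C0 : ℝ := Real.log √Real.pi + 1 / 2 * Real.log 2

noncomputable def mu (y : ℝ) : ℝ := Real.log (Real.Gamma y) - (y - 1 / 2) * Real.log y + y - C0

theorem logGamma_add_nat {x : ℝ} (hx : 0 < x) (n : ℕ) : Real.log (Real.Gamma (x + n)) =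
    Real.log (Real.Gamma x) + ∑ k ∈ Finset.range n, Real.log (x + k) := by
  induction n with
  | zero => simp
  | succ n ih =>
    rw [Finset.sum_range_succ, Nat.cast_succ, ← add_assoc, logGamma_add_one (by positivity), ih]
    ring

theorem psi_add_nat {x : ℝ} (hx : 0 < x) (n : ℕ) :
    psi (x + n) = psi x + ∑ k ∈ Finset.range n, 1 / (x + k) := by
  induction n with
  | zero => simp
  | succ n ih =>
    rw [Finset.sum_range_succ, Nat.cast_succ, ← add_assoc, psi_add_one (by positivity), ih]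
    ring

theorem tendsto_mu {x : ℝ} (hx : 0 < x) : Tendsto (fun n : ℕ => mu (x + n)) atTop (𝓝 0) := by
  rw [← tendsto_add_atTop_iff_nat 1]
  have t1 := (Real.BohrMollerup.tendsto_log_gamma hx).const_sub (Real.log (Real.Gamma x))
  have t2 := Stirling.tendsto_stirlingSeq_sqrt_pi.log (Real.sqrt_pos.2 Real.pi_pos).ne'
  have t3 := (Real.tendsto_mul_log_one_add_div_atTop (x + 1)).comp tendsto_natCast_atTop_atTop
  have t4 : Tendsto (fun n : ℕ => Real.log (1 + (x + 1) / n)) atTop (𝓝 0) := by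
    have := ((tendsto_const_div_atTop_nhds_zero_nat (x + 1)).const_add 1).log (by simp)
    simpa using this
  have t5 := ((t1.add t2).sub (t3.add (t4.const_mul (x + 1 / 2)))).add_const
    (x + 1 - Real.log √Real.pi)
  have e : Real.log (Real.Gamma x) - Real.log (Real.Gamma x) + Real.log √Real.pi -
      (x + 1 + (x + 1 / 2) * 0) + (x + 1 - Real.log √Real.pi) = 0 := by ring
  rw [e] at t5
  refine t5.congr' ?_
  filter_upwards [eventually_gt_atTop 0] with n hn
  have hn' : (0 : ℝ) < n := by exact_mod_cast hn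
  have e1 : Real.log (1 + (x + 1) / n) = Real.log (x + (n + 1 : ℕ)) - Real.log n := by
    rw [← Real.log_div (by positivity) hn'.ne']
    congr 1; push_cast; field_simp; ring
  simp only [Function.comp, mu, C0, Real.BohrMollerup.logGammaSeq, Stirling.log_stirlingSeq_formula,
    logGamma_add_nat hx, e1]
  rw [Real.log_mul two_ne_zero hn'.ne', Real.log_div hn'.ne' (Real.exp_pos 1).ne', Real.log_exp]
  push_cast
  ring

theorem tendsto_delta {x : ℝ} (hx : 0 < x) :
    Tendsto (fun n : ℕ => Real.log (x + n) - psi (x + n)) atTop (𝓝 0) := by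
  rw [← tendsto_add_atTop_iff_nat 1]
  refine squeeze_zero (fun n => sub_nonneg.2 (psi_le (by positivity))) (fun n => ?_)
    (tendsto_one_div_add_atTop_nhds_zero_nat (𝕜 := ℝ) |>.const_mul (1 + 1 / x) |>.trans_eq
      (by simp))
  have h0 : (0 : ℝ) ≤ n := by positivity
  have h1 := le_psi (x := x + n) (by positivity)
  have h2 := Real.log_le_sub_one_of_pos (x := (x + n + 1) / (x + n)) (by positivity)
  rw [Real.log_div (by positivity) (by positivity)] at h2
  have h3 : (x + n + 1) / (x + n) - 1 ≤ (1 + 1 / x) * (1 / (n + 1)) := by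
    rw [div_sub_one (by positivity), add_sub_cancel_left, mul_one_div,
      div_le_div_iff₀ (by positivity) (by positivity)]
    have : 1 / x * x = 1 := by field_simp
    have : 0 < 1 / x := by positivity
    nlinarith
  push_cast
  rw [← add_assoc]
  linarith

theorem nonneg_of_tele {f : ℝ → ℝ} (h : ∀ y, 0 < y → f (y + 1) ≤ f y) {x : ℝ} (hx : 0 < x)
    (hl : Tendsto (fun n : ℕ => f (x + n)) atTop (𝓝 0)) : 0 ≤ f x := by
  refine le_of_tendsto' hl fun n => ?_
  induction n with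
  | zero => simp
  | succ n ih =>
    rw [Nat.cast_succ, ← add_assoc]
    exact (h _ (by positivity)).trans ih

theorem tendsto_inv_pow' {x : ℝ} (c : ℝ) (k : ℕ) :
    Tendsto (fun n : ℕ => 1 / (c * (x + n) ^ (k + 1))) atTop (𝓝 0) := by
  have := ((tendsto_inv_atTop_zero.comp (tendsto_atTop_add_const_left _ x
    (tendsto_natCast_atTop_atTop (R := ℝ)))).pow (k + 1)).const_mul c⁻¹
  simpa [mul_comm] using this

theorem log_ratio {y : ℝ} (hy : 0 < y) : Real.log (y + 1) - Real.log y =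
    2 * (1 / 2 * Real.log ((1 + 1 / (2 * y + 1)) / (1 - 1 / (2 * y + 1)))) := by
  rw [← Real.log_div (by positivity) hy.ne',
    show (1 + 1 / (2 * y + 1)) / (1 - 1 / (2 * y + 1)) = (y + 1) / y by field_simp; ring]
  ring

def muHi {R : Type*} [DivisionRing R] (y : R) : R :=
  1 / (12 * y ^ 1) - 1 / (360 * y ^ 3) + 1 / (1260 * y ^ 5)

def muLo {R : Type*} [DivisionRing R] (y : R) : R := muHi y - 1 / (1680 * y ^ 7)

def deHi {R : Type*} [DivisionRing R] (y : R) : R :=
  1 / (2 * y ^ 1) + 1 / (12 * y ^ 2) - 1 / (120 * y ^ 4) + 1 / (252 * y ^ 6)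

def deLo {R : Type*} [DivisionRing R] (y : R) : R := deHi y - 1 / (240 * y ^ 8)

theorem log_lo {y : ℝ} (hy : 0 < y) (n : ℕ) :
    2 * ∑ i ∈ Finset.range n, (1 / (2 * y + 1)) ^ (2 * i + 1) / (2 * i + 1) ≤
      Real.log (y + 1) - Real.log y := by
  rw [log_ratio hy]
  have := Real.sum_range_le_log_div (x := 1 / (2 * y + 1)) (by positivity)
    (by rw [div_lt_one (by positivity)]; linarith) n
  linarith

theorem log_hi {y : ℝ} (hy : 0 < y) (n : ℕ) : Real.log (y + 1) - Real.log y ≤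
    2 * (∑ i ∈ Finset.range n, (1 / (2 * y + 1)) ^ (2 * i + 1) / (2 * i + 1) +
      (1 / (2 * y + 1)) ^ (2 * n + 1) * ((2 * y + 1) ^ 2 / (4 * y * (y + 1)))) := by
  rw [log_ratio hy]
  have := Real.log_div_le_sum_range_add (x := 1 / (2 * y + 1)) (by positivity)
    (by rw [div_lt_one (by positivity)]; linarith) n
  have e : 1 - (1 / (2 * y + 1)) ^ 2 = ((2 * y + 1) ^ 2 / (4 * y * (y + 1)))⁻¹ := by
    field_simp; ring
  rw [e, div_inv_eq_mul] at this
  linarith

theorem mu_step {y : ℝ} (hy : 0 < y) :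
    mu y - mu (y + 1) = (y + 1 / 2) * (Real.log (y + 1) - Real.log y) - 1 := by
  simp only [mu, logGamma_add_one hy]; ring

theorem muLo_le {x : ℝ} (hx : 0 < x) : muLo x ≤ mu x := by
  refine sub_nonneg.1 (nonneg_of_tele (f := fun y => mu y - muLo y) (fun y hy => ?_) hx ?_)
  · have h1 := mul_le_mul_of_nonneg_left (log_lo hy 6) (by positivity : 0 ≤ y + 1 / 2)
    have h2 : (y + 1 / 2) * (2 * ∑ i ∈ Finset.range 6,
        (1 / (2 * y + 1)) ^ (2 * i + 1) / (2 * i + 1)) - 1 - (muLo y - muLo (y + 1)) =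
        (33 + 891 * y + 11209 * y ^ 2 + 87087 * y ^ 3 + 466785 * y ^ 4 + 1825703 * y ^ 5 +
          5371289 * y ^ 6 + 12073580 * y ^ 7 + 20836874 * y ^ 8 + 27474830 * y ^ 9 +
          27240954 * y ^ 10 + 19688904 * y ^ 11 + 9804364 * y ^ 12 + 3010560 * y ^ 13 +
          430080 * y ^ 14) / (55440 * y ^ 7 * (y + 1) ^ 7 * (2 * y + 1) ^ 10) := by
      simp only [Finset.sum_range_succ, Finset.range_zero, Finset.sum_empty, muLo, muHi]
      push_cast; field_simp; ring
    have h3 := h2 ▸ (by positivity : 0 ≤ (33 + 891 * y + 11209 * y ^ 2 + 87087 * y ^ 3 +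
      466785 * y ^ 4 + 1825703 * y ^ 5 +
          5371289 * y ^ 6 + 12073580 * y ^ 7 + 20836874 * y ^ 8 + 27474830 * y ^ 9 +
          27240954 * y ^ 10 + 19688904 * y ^ 11 + 9804364 * y ^ 12 + 3010560 * y ^ 13 +
          430080 * y ^ 14) / (55440 * y ^ 7 * (y + 1) ^ 7 * (2 * y + 1) ^ 10))
    linarith [mu_step hy]
  · simpa [muLo, muHi, -one_div, -pow_one] using (tendsto_mu hx).sub ((((tendsto_inv_pow' 12 0).sub
      (tendsto_inv_pow' 360 2)).add (tendsto_inv_pow' 1260 4)).sub (tendsto_inv_pow' 1680 6))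

theorem mu_le_muHi {x : ℝ} (hx : 0 < x) : mu x ≤ muHi x := by
  refine sub_nonneg.1 (nonneg_of_tele (f := fun y => muHi y - mu y) (fun y hy => ?_) hx ?_)
  · have h1 := mul_le_mul_of_nonneg_left (log_hi hy 5) (by positivity : 0 ≤ y + 1 / 2)
    have h2 : (muHi y - muHi (y + 1)) - ((y + 1 / 2) * (2 * (∑ i ∈ Finset.range 5,
        (1 / (2 * y + 1)) ^ (2 * i + 1) / (2 * i + 1) +
        (1 / (2 * y + 1)) ^ (2 * 5 + 1) * ((2 * y + 1) ^ 2 / (4 * y * (y + 1))))) - 1) =
        (2 + 42 * y + 397 * y ^ 2 + 2209 * y ^ 3 + 7456 * y ^ 4 + 17601 * y ^ 5 + 30563 * y ^ 6 +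
          37296 * y ^ 7 + 29484 * y ^ 8 + 13440 * y ^ 9 + 2688 * y ^ 10) /
          (2520 * y ^ 5 * (y + 1) ^ 5 * (2 * y + 1) ^ 8) := by
      simp only [Finset.sum_range_succ, Finset.range_zero, Finset.sum_empty, muHi]
      push_cast; field_simp; ring
    have h3 := h2 ▸ (by positivity : 0 ≤ (2 + 42 * y + 397 * y ^ 2 + 2209 * y ^ 3 + 7456 * y ^ 4 +
      17601 * y ^ 5 + 30563 * y ^ 6 +
          37296 * y ^ 7 + 29484 * y ^ 8 + 13440 * y ^ 9 + 2688 * y ^ 10) /
          (2520 * y ^ 5 * (y + 1) ^ 5 * (2 * y + 1) ^ 8))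
    linarith [mu_step hy]
  · simpa [muHi, -one_div, -pow_one] using ((((tendsto_inv_pow' 12 0).sub
      (tendsto_inv_pow' 360 2)).add (tendsto_inv_pow' 1260 4))).sub (tendsto_mu hx)

theorem psi_le_deLo {x : ℝ} (hx : 0 < x) : psi x ≤ Real.log x - deLo x := by
  have := nonneg_of_tele (f := fun y => Real.log y - psi y - deLo y) (fun y hy => ?_) hx ?_
  · linarith
  · have h1 := log_hi hy 6
    have h2 : 1 / y - 2 * (∑ i ∈ Finset.range 6,
        (1 / (2 * y + 1)) ^ (2 * i + 1) / (2 * i + 1) +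
        (1 / (2 * y + 1)) ^ (2 * 6 + 1) * ((2 * y + 1) ^ 2 / (4 * y * (y + 1)))) -
        (deLo y - deLo (y + 1)) =
        (231 + 6930 * y + 97724 * y ^ 2 + 860112 * y ^ 3 + 5289944 * y ^ 4 + 24113320 * y ^ 5 +
          84290888 * y ^ 6 + 230515384 * y ^ 7 + 498516190 * y ^ 8 + 855637036 * y ^ 9 +
          1162028536 * y ^ 10 + 1235826456 * y ^ 11 + 1009058452 * y ^ 12 + 611500512 * y ^ 13 +
          259389216 * y ^ 14 + 68812800 * y ^ 15 + 8601600 * y ^ 16) /
          (55440 * y ^ 8 * (y + 1) ^ 8 * (2 * y + 1) ^ 11) := by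
      simp only [Finset.sum_range_succ, Finset.range_zero, Finset.sum_empty, deLo, deHi]
      push_cast; field_simp; ring
    have h3 := h2 ▸ (by positivity : 0 ≤ (231 + 6930 * y + 97724 * y ^ 2 + 860112 * y ^ 3 +
      5289944 * y ^ 4 + 24113320 * y ^ 5 +
          84290888 * y ^ 6 + 230515384 * y ^ 7 + 498516190 * y ^ 8 + 855637036 * y ^ 9 +
          1162028536 * y ^ 10 + 1235826456 * y ^ 11 + 1009058452 * y ^ 12 + 611500512 * y ^ 13 +
          259389216 * y ^ 14 + 68812800 * y ^ 15 + 8601600 * y ^ 16) /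
          (55440 * y ^ 8 * (y + 1) ^ 8 * (2 * y + 1) ^ 11))
    linarith [psi_add_one hy]
  · simpa [deLo, deHi, -one_div, -pow_one] using (tendsto_delta hx).sub
      (((((tendsto_inv_pow' 2 0).add (tendsto_inv_pow' 12 1)).sub (tendsto_inv_pow' 120 3)).add
      (tendsto_inv_pow' 252 5)).sub (tendsto_inv_pow' 240 7))

theorem deHi_le_psi {x : ℝ} (hx : 0 < x) : Real.log x - deHi x ≤ psi x := by
  have := nonneg_of_tele (f := fun y => deHi y - (Real.log y - psi y)) (fun y hy => ?_) hx ?_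
  · linarith
  · have h1 := log_lo hy 5
    have h2 : (deHi y - deHi (y + 1)) - (1 / y - 2 * ∑ i ∈ Finset.range 5,
        (1 / (2 * y + 1)) ^ (2 * i + 1) / (2 * i + 1)) =
        (10 + 240 * y + 2649 * y ^ 2 + 17756 * y ^ 3 + 80433 * y ^ 4 + 259074 * y ^ 5 +
          608306 * y ^ 6 + 1049088 * y ^ 7 + 1318530 * y ^ 8 + 1177260 * y ^ 9 + 708540 * y ^ 10 +
          258048 * y ^ 11 + 43008 * y ^ 12) / (2520 * y ^ 6 * (y + 1) ^ 6 * (2 * y + 1) ^ 9) := by
      simp only [Finset.sum_range_succ, Finset.range_zero, Finset.sum_empty, deHi]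
      push_cast; field_simp; ring
    have h3 := h2 ▸ (by positivity : 0 ≤ (10 + 240 * y + 2649 * y ^ 2 + 17756 * y ^ 3 +
      80433 * y ^ 4 + 259074 * y ^ 5 +
          608306 * y ^ 6 + 1049088 * y ^ 7 + 1318530 * y ^ 8 + 1177260 * y ^ 9 + 708540 * y ^ 10 +
          258048 * y ^ 11 + 43008 * y ^ 12) / (2520 * y ^ 6 * (y + 1) ^ 6 * (2 * y + 1) ^ 9))
    linarith [psi_add_one hy]
  · simpa [deHi, -one_div, -pow_one] using
      ((((tendsto_inv_pow' 2 0).add (tendsto_inv_pow' 12 1)).sub (tendsto_inv_pow' 120 3)).add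
      (tendsto_inv_pow' 252 5)).sub (tendsto_delta hx)

theorem exp_C0_le : Real.exp C0 ≤ 3 := by
  have h1 : √Real.pi ≤ 2 := Real.sqrt_le_iff.2 ⟨by norm_num, by linarith [Real.pi_lt_four]⟩
  have h2 : Real.exp (1 / 2 * Real.log 2) ≤ 3 / 2 := by
    refine (sq_le_sq₀ (Real.exp_pos _).le (by norm_num)).1 ?_
    rw [← Real.exp_nat_mul, show ((2 : ℕ) : ℝ) * (1 / 2 * Real.log 2) = Real.log 2 by
      push_cast; ring, Real.exp_log two_pos]
    norm_num
  rw [C0, Real.exp_add, Real.exp_log (Real.sqrt_pos.2 Real.pi_pos)]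
  nlinarith [Real.exp_pos (1 / 2 * Real.log 2), Real.sqrt_nonneg Real.pi]

end Pool.Agent.Lib.MP_70615d_an
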