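import Mathlib
import Pool.Agent.Lib.MP_70615d_an.Stirling

/-!
Rational interval arithmetic for the density series.
-/

set_option autoImplicit false

namespace Pool.Agent.Lib.MP_70615d_an

open Filter Topology Set

def rd (q : ℚ) : ℚ := ⌊q * 2 ^ 120⌋ / 2 ^ 120

def ru (q : ℚ) : ℚ := -rd (-q)

theorem rd_le (q : ℚ) : rd q ≤ q := by
  rw [rd, div_le_iff₀ (by positivity)]; exact Int.floor_le _

theorem le_ru (q : ℚ) : q ≤ ru q := by
  have := rd_le (-q); rw [ru]; linarith

theorem rd_nonneg {q : ℚ} (h : 0 ≤ q) : 0 ≤ rd q :=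
  div_nonneg (by exact_mod_cast Int.floor_nonneg.2 (by positivity)) (by positivity)

def ath (n : ℕ) (w : ℚ) : ℚ := ∑ i ∈ Finset.range n, w ^ (2 * i + 1) / (2 * i + 1)

def lv (v : ℚ) : ℚ := rd (2 * ath 30 (rd ((v - 1) / (v + 1))))

theorem lv_le {v : ℚ} (hv : 1 ≤ v) : (lv v : ℝ) ≤ Real.log v := by
  set w := rd ((v - 1) / (v + 1)) with hw
  have h0 : 0 ≤ w := rd_nonneg (div_nonneg (by linarith) (by linarith))
  have h1 : w * (v + 1) ≤ v - 1 := (le_div_iff₀ (by linarith)).1 (rd_le _)
  have h0' : (0 : ℝ) ≤ w := by exact_mod_cast h0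
  have h1' : (w : ℝ) * (v + 1) ≤ v - 1 := by exact_mod_cast h1
  have hv' : (1 : ℝ) ≤ v := by exact_mod_cast hv
  have h2 : (w : ℝ) < 1 := by nlinarith
  have h3 := Real.sum_range_le_log_div h0' h2 30
  have h4 : Real.log ((1 + w) / (1 - w)) ≤ Real.log v :=
    Real.log_le_log (div_pos (by linarith) (by linarith))
      (by rw [div_le_iff₀ (by linarith)]; linarith)
  have h5 : (lv v : ℝ) ≤ (2 * ath 30 w : ℚ) := Rat.cast_le.2 (rd_le _)
  simp only [ath] at h5
  push_cast at h5
  linarith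

def l2lo : ℚ := 693147180559945309417232121457 / 10 ^ 30

def l2hi : ℚ := 693147180559945309417232121459 / 10 ^ 30

theorem l2lo_le : (l2lo : ℝ) ≤ Real.log 2 := by
  have h : l2lo ≤ lv 2 := by decide +kernel
  exact (Rat.cast_le.2 h).trans (by exact_mod_cast lv_le (v := 2) (by norm_num))

theorem le_l2hi : Real.log 2 ≤ l2hi := by
  have h : 2 * (ath 32 (1 / 3) + (1 / 3) ^ 65 / (1 - (1 / 3) ^ 2)) ≤ l2hi := by decide +kernel
  have h1 := Real.log_div_le_sum_range_add (x := 1 / 3) (by norm_num) (by norm_num) 32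
  have h2 := (Rat.cast_le (K := ℝ)).2 h
  simp only [ath] at h2
  push_cast at h2
  rw [show (1 + 1 / 3 : ℝ) / (1 - 1 / 3) = 2 by norm_num] at h1
  linarith

def logLo (q : ℚ) : ℚ := ⌊q⌋₊.log2 * l2lo + lv (q / 2 ^ ⌊q⌋₊.log2)

def logHi (q : ℚ) : ℚ := (⌊q⌋₊.log2 + 1) * l2hi - lv (2 ^ (⌊q⌋₊.log2 + 1) / q)

theorem logLo_le {q : ℚ} (hq : 1 ≤ q) : (logLo q : ℝ) ≤ Real.log q := by
  have h1 : 2 ^ ⌊q⌋₊.log2 ≤ ⌊q⌋₊ := Nat.log2_self_le (Nat.floor_pos.2 hq).ne'
  have h2 : (2 : ℚ) ^ ⌊q⌋₊.log2 ≤ q :=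
    le_trans (by exact_mod_cast h1) (Nat.floor_le (by linarith))
  have h3 := lv_le ((one_le_div (by positivity)).2 h2)
  have hq' : (1 : ℝ) ≤ q := by exact_mod_cast hq
  rw [logLo]
  push_cast at h3 ⊢
  rw [Real.log_div (by positivity) (by positivity), Real.log_pow] at h3
  nlinarith [l2lo_le, Nat.cast_nonneg (α := ℝ) ⌊q⌋₊.log2]

theorem le_logHi {q : ℚ} (hq : 0 < q) : Real.log q ≤ logHi q := by
  have h1 : ⌊q⌋₊ + 1 ≤ 2 ^ (⌊q⌋₊.log2 + 1) := Nat.lt_log2_self
  have h2 : q ≤ (2 : ℚ) ^ (⌊q⌋₊.log2 + 1) :=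
    (Nat.lt_floor_add_one q).le.trans (by exact_mod_cast h1)
  have h3 := lv_le ((one_le_div hq).2 h2)
  have hq' : (0 : ℝ) < q := by exact_mod_cast hq
  rw [logHi]
  push_cast at h3 ⊢
  rw [Real.log_div (by positivity) (by positivity), Real.log_pow] at h3
  push_cast at h3
  nlinarith [le_l2hi, Nat.cast_nonneg (α := ℝ) ⌊q⌋₊.log2]

def dl : ℚ := 1 / 10 ^ 20

def pr (x : ℚ) : ℚ := ∏ k ∈ Finset.range 256, (x + k)

def hs (x : ℚ) : ℚ := ∑ k ∈ Finset.range 256, 1 / (x + k)

def ok1 (x c p : ℚ) : Bool :=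
  0 < c && 1 ≤ pr x / (c * (1 - dl)) && dl ≤ p &&
  (x + 256 - 1 / 2) * logHi (x + 256) - (x + 256) + muHi (x + 256) ≤ logLo (pr x / (c * (1 - dl))) &&
  logHi (pr x / (c * (1 + dl))) ≤ (x + 256 - 1 / 2) * logLo (x + 256) - (x + 256) + muLo (x + 256) &&
  p - dl ≤ logLo (x + 256) - deHi (x + 256) - hs x &&
  logHi (x + 256) - deLo (x + 256) - hs x ≤ p + dl

theorem ok1_sound {x c p : ℚ} (hx : 0 < x) (h : ok1 x c p = true) :
    (0 : ℝ) ≤ c * (1 - dl) ∧ (0 : ℝ) ≤ p - dl ∧
    c * (1 - dl) ≤ Real.exp C0 / Real.Gamma x ∧ Real.exp C0 / Real.Gamma x ≤ c * (1 + dl) ∧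
    p - dl ≤ psi x ∧ psi x ≤ p + dl := by
  simp only [ok1, Bool.and_eq_true, decide_eq_true_eq] at h
  obtain ⟨⟨⟨⟨⟨⟨h0, h1⟩, h2⟩, h3⟩, h4⟩, h5⟩, h6⟩ := h
  have hx' : (0 : ℝ) < x := by exact_mod_cast hx
  have hc : (0 : ℝ) < c := by exact_mod_cast h0
  have hd : ((dl : ℚ) : ℝ) = 1 / 10 ^ 20 := by simp [dl]
  have hd1 : (0 : ℝ) < 1 - dl := by rw [hd]; norm_num
  have hd2 : (0 : ℝ) < 1 + dl := by rw [hd]; norm_num
  have hP : 0 < pr x := Finset.prod_pos fun k _ => by positivity
  have hP' : (0 : ℝ) < pr x := by exact_mod_cast hP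
  have hG := Real.Gamma_pos_of_pos hx'
  have hy : (0 : ℝ) < x + 256 := by positivity
  have e1 : Real.log (pr x) = ∑ k ∈ Finset.range 256, Real.log (x + k) := by
    rw [pr]; push_cast
    exact Real.log_prod fun k _ => by positivity
  have e2 := logGamma_add_nat hx' 256
  have e3 := psi_add_nat hx' 256
  have e4 : ((hs x : ℚ) : ℝ) = ∑ k ∈ Finset.range 256, 1 / ((x : ℝ) + k) := by
    rw [hs]; push_cast; rfl
  have l1 := logLo_le (q := x + 256) (by linarith)
  have l2 := le_logHi (q := x + 256) (by linarith)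
  have l3 := logLo_le h1
  have l4 := le_logHi (q := pr x / (c * (1 + dl))) (by have : 0 < dl := by norm_num [dl]
                                                       positivity)
  have m1 := muLo_le hy
  have m2 := mu_le_muHi hy
  have m3 := psi_le_deLo hy
  have m4 := deHi_le_psi hy
  have k2 := (Rat.cast_le (K := ℝ)).2 h2
  have k3 := (Rat.cast_le (K := ℝ)).2 h3
  have k4 := (Rat.cast_le (K := ℝ)).2 h4
  have k5 := (Rat.cast_le (K := ℝ)).2 h5
  have k6 := (Rat.cast_le (K := ℝ)).2 h6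
  simp only [muLo, muHi, deLo, deHi, mu] at m1 m2 m3 m4 k3 k4 k5 k6
  push_cast at l1 l2 l3 l4 k3 k4 k5 k6 e2 e3
  rw [Real.log_div hP'.ne' (by positivity)] at l3 l4
  have hy' : (0 : ℝ) ≤ x + 256 - 1 / 2 := by linarith
  have n1 := mul_le_mul_of_nonneg_left l1 hy'
  have n2 := mul_le_mul_of_nonneg_left l2 hy'
  refine ⟨by positivity, by linarith, ?_, ?_, by linarith, by linarith⟩
  · rw [← Real.log_le_log_iff (by positivity) (by positivity),
      Real.log_div (Real.exp_pos _).ne' hG.ne', Real.log_exp]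
    linarith
  · rw [← Real.log_le_log_iff (by positivity) (by positivity),
      Real.log_div (Real.exp_pos _).ne' hG.ne', Real.log_exp]
    linarith

def pe : List ℚ → ℝ → ℝ
  | [], _ => 0
  | a :: l, y => a + y * pe l y

def pa : List ℚ → List ℚ → List ℚ
  | [], q => q
  | a :: p, [] => a :: p
  | a :: p, b :: q => (a + b) :: pa p q

theorem pe_pa (y : ℝ) : ∀ p q, pe (pa p q) y = pe p y + pe q y
  | [], q => by simp [pa, pe]
  | a :: p, [] => by simp [pa, pe]
  | a :: p, b :: q => by simp only [pa, pe, pe_pa y p q]; push_cast; ring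

theorem pe_map (c : ℚ) (y : ℝ) : ∀ p : List ℚ, pe (p.map (c * ·)) y = c * pe p y
  | [] => by simp [pe]
  | a :: p => by simp only [List.map, pe, pe_map c y p]; push_cast; ring

def absb (r : ℚ) : List ℚ → ℚ
  | [] => 0
  | a :: l => |a| + r * absb r l

theorem abs_pe_le {r : ℚ} {y : ℝ} (hy : |y| ≤ r) : ∀ l, |pe l y| ≤ absb r l
  | [] => by simp [pe, absb]
  | a :: l => by
    simp only [pe, absb]
    push_cast
    refine (abs_add_le _ _).trans (add_le_add le_rfl ?_)
    rw [abs_mul]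
    exact mul_le_mul hy (abs_pe_le hy l) (abs_nonneg _) ((abs_nonneg _).trans hy)

def test (r : ℚ) : List ℚ → Bool
  | p0 :: p1 :: p2 :: l => (0 ≤ p2 - r * absb r l && 0 ≤ p0 && p1 ^ 2 ≤ 4 * p0 * (p2 - r * absb r l)) ||
      0 ≤ p0 - |p1| * r + min (p2 - r * absb r l) 0 * r ^ 2
  | _ => false

theorem test_sound {r : ℚ} {y : ℝ} (hy : |y| ≤ r) : ∀ l, test r l = true → 0 ≤ pe l y
  | [], h => by simp [test] at h
  | [_], h => by simp [test] at h
  | [_, _], h => by simp [test] at h
  | p0 :: p1 :: p2 :: l, h => by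
    set q : ℚ := p2 - r * absb r l with hq
    have h1 : (q : ℝ) ≤ p2 + y * pe l y := by
      have := mul_le_mul hy (abs_pe_le hy l) (abs_nonneg _) ((abs_nonneg _).trans hy)
      rw [← abs_mul] at this
      rw [hq]; push_cast
      linarith [neg_abs_le (y * pe l y)]
    have h2 : p0 + p1 * y + q * y ^ 2 ≤ pe (p0 :: p1 :: p2 :: l) y := by
      simp only [pe]; nlinarith [sq_nonneg y]
    refine le_trans ?_ h2
    simp only [test, ← hq, Bool.or_eq_true, Bool.and_eq_true, decide_eq_true_eq] at h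
    rcases h with ⟨⟨h3, h4⟩, h5⟩ | h
    · have k3 : (0 : ℝ) ≤ q := by exact_mod_cast h3
      have k4 : (0 : ℝ) ≤ p0 := by exact_mod_cast h4
      have k5 : (p1 : ℝ) ^ 2 ≤ 4 * p0 * q := by exact_mod_cast h5
      refine le_of_not_gt fun hc => ?_
      have : (p0 + q * y ^ 2) ^ 2 < (p1 * y) ^ 2 := by
        have : 0 ≤ p0 + q * y ^ 2 := by positivity
        nlinarith
      nlinarith [mul_le_mul_of_nonneg_right k5 (sq_nonneg y), sq_nonneg (p0 - q * y ^ 2)]
    · have k : (0 : ℝ) ≤ p0 - |(p1 : ℝ)| * r + min (q : ℝ) 0 * r ^ 2 := by exact_mod_cast h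
      have a1 : |p1 * y| ≤ |(p1 : ℝ)| * r := by
        rw [abs_mul]; exact mul_le_mul_of_nonneg_left hy (abs_nonneg _)
      have a2 : y ^ 2 ≤ (r : ℝ) ^ 2 := by
        rw [← sq_abs y]; exact pow_le_pow_left₀ (abs_nonneg _) hy 2
      nlinarith [neg_abs_le (p1 * y), min_le_left (q : ℝ) 0, min_le_right (q : ℝ) 0, sq_nonneg y]

def hor : List (List ℚ) → List ℚ
  | [] => []
  | t :: ts => pa t (pa (hor ts) (0 :: (hor ts).map (-1 * ·)))

theorem pe_hor (y : ℝ) : ∀ (n : ℕ) (t : ℕ → List ℚ), pe (hor ((List.range n).map t)) y =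
    ∑ j ∈ Finset.range n, pe (t j) y * (1 - y) ^ j
  | 0, t => by simp [hor, pe]
  | n + 1, t => by
    rw [List.range_succ_eq_map, List.map_cons, List.map_map, Finset.sum_range_succ']
    simp only [hor, pe_pa, pe, pe_map, pe_hor y n, Function.comp_def, pow_succ, ← mul_assoc,
      ← Finset.sum_mul]
    push_cast; ring

def lg (z r : ℚ) : List ℚ :=
  [logHi z, -1, -1 / 2, -1 / 3, -1 / 4, -1 / 5, -1 / 6, -1 / 7, -1 / 8, -1 / 9, 1 / (1 - r)]

theorem log_le_lg {z r : ℚ} (hz : 0 < z) (hr : r < 1) {y : ℝ} (hy : |y| ≤ r) :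
    Real.log (z * (1 - y)) ≤ pe (lg z r) y := by
  have hr' : (r : ℝ) < 1 := by exact_mod_cast hr
  have hz' : (0 : ℝ) < z := by exact_mod_cast hz
  have h1 := (abs_le.1 (Real.abs_log_sub_add_sum_range_le (hy.trans_lt hr') 9)).2
  have h2 : |y| ^ (9 + 1) / (1 - |y|) ≤ y ^ 10 * (1 / (1 - r)) := by
    rw [show |y| ^ (9 + 1) = y ^ 10 from Even.pow_abs (by decide) y, mul_one_div]
    exact div_le_div_of_nonneg_left (by positivity) (by linarith) (by linarith)
  rw [Real.log_mul hz'.ne' (by linarith [le_abs_self y] : 0 < 1 - y).ne']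
  simp only [Finset.sum_range_succ, Finset.range_zero, Finset.sum_empty] at h1
  simp only [lg, pe]
  push_cast at h1 ⊢
  linarith [le_logHi hz]

def cc (cs : List (ℕ × ℕ × ℕ)) (j : ℕ) : ℚ := (cs.getD j 0).1 / 10 ^ (cs.getD j 0).2.1

def pp (cs : List (ℕ × ℕ × ℕ)) (j : ℕ) : ℚ := (cs.getD j 0).2.2 / 10 ^ 24

def okAll (b : ℚ) (cs : List (ℕ × ℕ × ℕ)) : Bool :=
  (List.range 18).all fun j => ok1 ((j + 1) * b) (cc cs j) (pp cs j)

def chk (b : ℚ) (cs : List (ℕ × ℕ × ℕ)) (u v : ℚ) : Bool :=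
  0 < u && u < v && test ((v - u) / (v + u)) (hor ((List.range 18).map fun j =>
    pa [rd (cc cs j * (1 - dl) * (b * (pp cs j - dl)) * ((u + v) / 2) ^ j)]
      ((lg ((u + v) / 2) ((v - u) / (v + u))).map
        (-ru (cc cs j * (1 + dl) * ((u + v) / 2) ^ j) * ·))))

def cover (f : ℚ → ℚ → Bool) (top : ℚ) : ℚ → List ℚ → Bool
  | u, [] => top ≤ u
  | u, v :: l => f u v && cover f top v l

noncomputable def tm (b z : ℝ) (j : ℕ) : ℝ :=
  Real.exp C0 / Real.Gamma ((j + 1) * b) * z ^ j * (b * psi ((j + 1) * b) - Real.log z)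

def blo : ℚ := 33183685622702705 / 10 ^ 16

def bhi : ℚ := 3318368562270275 / 10 ^ 15

def clo : List (ℕ × ℕ × ℕ) := [
  (9164683415882739812385303, 25, 1041295015325543155091759),
  (6803460106079237879010643, 27, 1815394520587942994798774),
  (7641594982031202886107749, 30, 2247020048078179622651276),
  (2614902722261778256749319, 33, 2547625793855226844088032),
  (3742934528768860593743096, 37, 2778473285229205960996729),
  (2689924712667842947581392, 41, 2965909828908029781051473),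
  (1093278756584561168179409, 45, 3123703790681346379510738),
  (2732718403059189655709204, 50, 3259962020407665321432558),
  (4470747572877281088053572, 55, 3379862595497876372238683),
  (5023180803245658748556794, 60, 3486915041975544000537047),
  (4027327675833336253982638, 65, 3583608139720438160497006),
  (2377069721903733876849273, 70, 3671770993232490529329566),
  (1059999807959117358165614, 75, 3752787348970617565549225),
  (3650091413421196751681236, 81, 3827729381753651962048125),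
  (9889083377497151330367021, 87, 3897444736277885754902224),
  (2142331579832956699696404, 92, 3962615148601591081717752),
  (3763843420288335652936343, 98, 4023797103293388750900318),
  (5429962589190923050257363, 104, 4081450752420607279424338)]

def chi : List (ℕ × ℕ × ℕ) := [
  (9164683415882696868259092, 25, 1041295015325544735684371),
  (6803460106079126720332864, 27, 1815394520587944458160473),
  (7641594982030971080076577, 30, 2247020048078181049125528),
  (2614902722261658344464093, 33, 2547625793855228252540106),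
  (3742934528768626601762173, 37, 2778473285229207358771314),
  (2689924712667627539579496, 41, 2965909828908031171764484),
  (1093278756584453593191028, 45, 3123703790681347765207605),
  (2732718403058868947613772, 50, 3259962020407666703382554),
  (4470747572876669112297505, 55, 3379862595497877751283481),
  (5023180803244870555345231, 60, 3486915041975545377263380),
  (4027327675832621851952736, 65, 3583608139720439535330178),
  (2377069721903262561843969, 70, 3671770993232491902587693),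
  (1059999807958884647864265, 75, 3752787348970618937476461),
  (3650091413420316543265834, 81, 3827729381753653332835938),
  (9889083377494549734839975, 87, 3897444736277887124703540),
  (2142331579832345474735251, 92, 3962615148601592450656646),
  (3763843420287177064854080, 98, 4023797103293390119078843),
  (5429962589189127918140846, 104, 4081450752420608646927445)]

theorem okAll_lo : okAll blo clo = true := by decide +kernel

theorem okAll_hi : okAll bhi chi = true := by decide +kernel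

theorem cover_lo : cover (chk blo clo) 2155 8
    [21, 70, 176, 2858674263 / 10 ^ 7, 5258674263 / 10 ^ 7, 1030, 2035, 2155] = true := by
  decide +kernel

theorem sum_hi : ∑ j ∈ Finset.range 18, (cc chi j * (1 + dl) * (bhi * (pp chi j + dl)) -
    cc chi j * (1 - dl) * logLo (4058674263 / 10 ^ 7)) * (4058674263 / 10 ^ 7) ^ j ≤
    -1 / 10 ^ 16 := by decide +kernel

end Pool.Agent.Lib.MP_70615d_an
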