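import Mathlib
import Pool.Agent.Lib.MP_70615d_an.Num

/-!
The two numerical facts about the density.
-/

set_option autoImplicit false

namespace Pool.Agent.Lib.MP_70615d_an

open Filter Topology Set

theorem okAll_sound {b : ℚ} {cs : List (ℕ × ℕ × ℕ)} (hb : 0 < b) (h : okAll b cs = true) {j : ℕ}
    (hj : j ∈ Finset.range 18) :
    (0 : ℝ) ≤ cc cs j * (1 - dl) ∧ (0 : ℝ) ≤ pp cs j - dl ∧
    cc cs j * (1 - dl) ≤ Real.exp C0 / Real.Gamma ((j + 1) * b) ∧
    Real.exp C0 / Real.Gamma ((j + 1) * b) ≤ cc cs j * (1 + dl) ∧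
    pp cs j - dl ≤ psi ((j + 1) * b) ∧ psi ((j + 1) * b) ≤ pp cs j + dl := by
  have := ok1_sound (by positivity) (List.all_eq_true.1 h j (by simpa using hj))
  push_cast at this
  exact this

theorem chk_sound {b : ℚ} {cs : List (ℕ × ℕ × ℕ)} (hb : 0 < b) (h : okAll b cs = true) {u v : ℚ}
    (hc : chk b cs u v = true) {z : ℝ} (h1 : 1 ≤ z) (hu : u ≤ z) (hv : z ≤ v) :
    0 ≤ ∑ j ∈ Finset.range 18, tm b z j := by
  simp only [chk, Bool.and_eq_true, decide_eq_true_eq] at hc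
  obtain ⟨⟨hu0, huv⟩, hc⟩ := hc
  set z0 : ℚ := (u + v) / 2 with hz0
  set r : ℚ := (v - u) / (v + u) with hr
  have hu0' : (0 : ℝ) < u := by exact_mod_cast hu0
  have huv' : (u : ℝ) < v := by exact_mod_cast huv
  have hz0p : 0 < z0 := by rw [hz0]; linarith
  have hz0' : (0 : ℝ) < z0 := by exact_mod_cast hz0p
  have hb' : (0 : ℝ) < b := by exact_mod_cast hb
  set y : ℝ := 1 - z / z0 with hy
  have hz : z = z0 * (1 - y) := by rw [hy]; field_simp; ring
  have hyr : |y| ≤ r := by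
    have e : y = (u + v - 2 * z) / (v + u) := by
      have : (v : ℝ) + u ≠ 0 := by linarith
      have : (u : ℝ) + v ≠ 0 := by linarith
      rw [hy, hz0]; push_cast; field_simp; ring
    rw [e, hr, abs_div, abs_of_pos (by linarith : (0 : ℝ) < v + u)]
    push_cast
    exact div_le_div_of_nonneg_right (abs_le.2 ⟨by linarith, by linarith⟩) (by linarith)
  have hr1 : r < 1 := by rw [hr, div_lt_one (by linarith)]; linarith
  have hy1 : 0 < 1 - y := by rw [hy]; have := div_pos (by linarith : 0 < z) hz0'; linarith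
  have hL := log_le_lg hz0p hr1 hyr
  rw [← hz] at hL
  have hl0 := Real.log_nonneg h1
  refine (test_sound hyr _ hc).trans ?_
  rw [pe_hor]
  refine Finset.sum_le_sum fun j hj => ?_
  obtain ⟨a1, a2, a3, a4, a5, -⟩ := okAll_sound hb h hj
  have r1 := (Rat.cast_le (K := ℝ)).2 (rd_le (cc cs j * (1 - dl) * (b * (pp cs j - dl)) * z0 ^ j))
  have r2 := (Rat.cast_le (K := ℝ)).2 (le_ru (cc cs j * (1 + dl) * z0 ^ j))
  rw [pe_pa, pe_map, tm]
  set γ := Real.exp C0 / Real.Gamma ((j + 1) * b)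
  set ψ := psi ((j + 1) * b)
  simp only [pe]
  push_cast at r1 r2 ⊢
  have hp : (0 : ℝ) ≤ z0 ^ j := by positivity
  have r3 : (cc cs j : ℝ) * (1 - dl) * (b * (pp cs j - dl)) * z0 ^ j ≤ γ * (b * ψ) * z0 ^ j :=
    mul_le_mul_of_nonneg_right (mul_le_mul a3 (mul_le_mul_of_nonneg_left a5 hb'.le)
      (by positivity) (a1.trans a3)) hp
  have r4 : γ * z0 ^ j * Real.log z ≤ ru (cc cs j * (1 + dl) * z0 ^ j) * pe (lg z0 r) y := by
    have := (mul_le_mul_of_nonneg_right a4 hp).trans r2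
    exact mul_le_mul this hL hl0 ((mul_nonneg (a1.trans a3) hp).trans this)
  have e : γ * z ^ j * (b * ψ - Real.log z) =
      (γ * (b * ψ) * z0 ^ j - γ * z0 ^ j * Real.log z) * (1 - y) ^ j := by
    rw [show z ^ j = z0 ^ j * (1 - y) ^ j by rw [← mul_pow, ← hz]]; ring
  rw [e]
  exact mul_le_mul_of_nonneg_right (by linarith) (by positivity)

theorem cover_sound {f : ℚ → ℚ → Bool} {top : ℚ} {z : ℝ} {P : Prop}
    (hf : ∀ u v, f u v = true → u ≤ z → z ≤ v → P) (hz : z < top) :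
    ∀ (l : List ℚ) (u : ℚ), cover f top u l = true → u ≤ z → P
  | [], u, h, hu => by
    simp only [cover, decide_eq_true_eq] at h
    have : (top : ℝ) ≤ u := by exact_mod_cast h
    linarith
  | v :: l, u, h, hu => by
    simp only [cover, Bool.and_eq_true] at h
    rcases le_total z v with hv | hv
    · exact hf u v h.1 hu hv
    · exact cover_sound hf hz l v h.2 hv

theorem term_eq {b s : ℝ} (hb : 0 < b) (hs : 0 < s) (j : ℕ) :
    gam s ((j + 1) * b) * (psi ((j + 1) * b) - Real.log s) =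
      s ^ (b - 1) / (b * Real.exp C0) * tm b (s ^ b) j := by
  have := (Real.Gamma_pos_of_pos (by positivity : 0 < ((j : ℝ) + 1) * b)).ne'
  rw [gam, tm, Real.log_rpow hs, ← Real.rpow_mul_natCast hs.le,
    show (j + 1) * b - 1 = (b - 1) + b * j by ring, Real.rpow_add hs]
  field_simp

theorem num_lo {s : ℝ} (h2 : 2 ≤ s) (h10 : s ≤ 10) : 0 ≤ dens blo s := by
  have b1 : (3 : ℝ) ≤ blo := by norm_num [blo]
  have b2 : (blo : ℝ) ≤ 10 / 3 := by norm_num [blo]
  have hs : 0 < s := by linarith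
  have z1 : (8 : ℝ) ≤ s ^ (blo : ℝ) := by
    calc (8 : ℝ) = 2 ^ (3 : ℝ) := by norm_num
      _ ≤ s ^ (3 : ℝ) := Real.rpow_le_rpow (by norm_num) h2 (by norm_num)
      _ ≤ _ := Real.rpow_le_rpow_of_exponent_le (by linarith) b1
  have z2 : s ^ (blo : ℝ) < (2155 : ℚ) := by
    have : (10 : ℝ) ^ (10 / 3 : ℝ) < 2155 := by
      refine lt_of_pow_lt_pow_left₀ 3 (by norm_num) ?_
      rw [← Real.rpow_mul_natCast (by norm_num)]; norm_num
    calc s ^ (blo : ℝ) ≤ s ^ (10 / 3 : ℝ) := Real.rpow_le_rpow_of_exponent_le (by linarith) b2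
      _ ≤ 10 ^ (10 / 3 : ℝ) := Real.rpow_le_rpow hs.le h10 (by norm_num)
      _ < _ := by exact_mod_cast this
  have h := cover_sound (fun u v hc => chk_sound (by norm_num [blo]) okAll_lo hc (by linarith))
    z2 _ _ cover_lo (by exact_mod_cast z1)
  rw [dens_eq_tsum]
  refine le_trans ?_ ((summable_dens (by linarith) (by linarith) hs).sum_le_tsum
    (Finset.range 18) fun j hj => ?_)
  · simp only [term_eq (by linarith : (0 : ℝ) < blo) hs, ← Finset.mul_sum]
    have := Real.exp_pos C0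
    positivity
  · have hj' : (18 : ℝ) ≤ j := by exact_mod_cast (by simpa using hj : 18 ≤ j)
    have := le_psi (x := (j + 1) * blo - 1) (by nlinarith)
    rw [sub_add_cancel] at this
    exact mul_nonneg (gam_pos hs (by positivity)).le
      (by linarith [Real.log_le_log hs (by nlinarith : s ≤ (j + 1) * blo - 1)])

theorem fact_ge {j : ℕ} (hj : 18 ≤ j) : (j + 1) * 1024 ^ j * 10 ^ 19 ≤ (3 * j + 2).factorial := by
  induction j, hj using Nat.le_induction with
  | base => decide +kernel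
  | succ j hj ih =>
    rw [show 3 * (j + 1) + 2 = 3 * j + 2 + 1 + 1 + 1 by ring]
    simp only [Nat.factorial_succ (3 * j + 2 + 1 + 1), Nat.factorial_succ (3 * j + 2 + 1),
      Nat.factorial_succ (3 * j + 2), ← mul_assoc]
    refine le_trans ?_ (Nat.mul_le_mul_left _ ih)
    have : (j + 1 + 1) * 1024 ≤
        (3 * j + 2 + 1 + 1 + 1) * (3 * j + 2 + 1 + 1) * (3 * j + 2 + 1) * (j + 1) := by
      have : 2048 ≤ (3 * j + 2 + 1 + 1 + 1) * (3 * j + 2 + 1 + 1) * (3 * j + 2 + 1) :=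
        le_trans (by norm_num : 2048 ≤ 16 * 16 * 8)
          (Nat.mul_le_mul (Nat.mul_le_mul (by omega) (by omega)) (by omega))
      nlinarith
    calc (j + 1 + 1) * 1024 ^ (j + 1) * 10 ^ 19 = (j + 1 + 1) * 1024 * (1024 ^ j * 10 ^ 19) := by ring
      _ ≤ _ := (Nat.mul_le_mul_right _ this).trans (le_of_eq (by ring))

theorem tm_le {b z : ℝ} (hb : 3 ≤ b) (hb4 : b ≤ 4) (hz : 1 ≤ z) (hz' : z ≤ 512) {j : ℕ}
    (hj : 18 ≤ j) : tm b z j ≤ 48 / 10 ^ 19 * (1 / 2) ^ j := by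
  have hj0 : (0 : ℝ) ≤ j := by positivity
  have hx : 0 < ((j : ℝ) + 1) * b := by positivity
  have h1 : ((3 * j + 2).factorial : ℝ) ≤ Real.Gamma ((j + 1) * b) := by
    rw [← Real.Gamma_nat_eq_factorial]
    refine Real.Gamma_strictMonoOn_Ici.monotoneOn ?_ ?_ (by push_cast; nlinarith) <;>
      simp only [mem_Ici] <;> push_cast <;> nlinarith
  have h2 : ((j : ℝ) + 1) * 1024 ^ j * 10 ^ 19 ≤ Real.Gamma ((j + 1) * b) :=
    le_trans (by exact_mod_cast fact_ge hj) h1
  have h3 : b * psi ((j + 1) * b) - Real.log z ≤ 16 * (j + 1) := by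
    have := psi_le hx
    have := Real.log_le_sub_one_of_pos hx
    have := Real.log_nonneg hz
    nlinarith
  have h4 := Real.exp_pos C0
  have h5 := Real.Gamma_pos_of_pos hx
  refine (mul_le_mul_of_nonneg_left h3 (by positivity)).trans ?_
  refine (mul_le_mul_of_nonneg_right (mul_le_mul (div_le_div₀ (by norm_num) exp_C0_le
    (by positivity) h2) (pow_le_pow_left₀ (by linarith) hz' j) (by positivity) (by positivity))
    (by positivity)).trans (le_of_eq ?_)
  rw [show (1024 : ℝ) = 512 * 2 by norm_num, mul_pow, one_div, inv_pow]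
  field_simp
  norm_num

theorem num_hi : ∃ s, 0 < s ∧ dens bhi s < 0 := by
  have b1 : (3 : ℝ) ≤ bhi := by norm_num [bhi]
  have b2 : (bhi : ℝ) < 4 := by norm_num [bhi]
  have b0 : (0 : ℝ) < bhi := by linarith
  set z : ℝ := 4058674263 / 10 ^ 7 with hz
  have z1 : 1 ≤ z := by norm_num [hz]
  have hs : 0 < z ^ (bhi : ℝ)⁻¹ := by positivity
  refine ⟨_, hs, ?_⟩
  have hsum := summable_dens (by linarith) b2 hs
  rw [dens_eq_tsum]
  simp only [term_eq b0 hs, Real.rpow_inv_rpow (by positivity : 0 ≤ z) b0.ne'] at hsum ⊢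
  have hk : 0 < (z ^ (bhi : ℝ)⁻¹) ^ ((bhi : ℝ) - 1) / (bhi * Real.exp C0) := by
    have := Real.exp_pos C0
    positivity
  rw [summable_mul_left_iff hk.ne'] at hsum
  rw [tsum_mul_left]
  refine mul_neg_of_pos_of_neg hk ?_
  rw [← hsum.sum_add_tsum_nat_add 18]
  have t1 : ∑' j, tm bhi z (j + 18) ≤ ∑' j : ℕ, 48 / 10 ^ 19 * (1 / 2) ^ 18 * (1 / 2 : ℝ) ^ j :=
    ((summable_nat_add_iff 18).2 hsum).tsum_le_tsum (fun j =>
      (tm_le b1 b2.le z1 (by norm_num [hz]) (by omega)).trans_eq (by ring))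
      (summable_geometric_two.mul_left _)
  rw [tsum_mul_left, tsum_geometric_two] at t1
  have t2 := (Rat.cast_le (K := ℝ)).2 sum_hi
  have t3 := logLo_le (q := 4058674263 / 10 ^ 7) (by norm_num)
  have t4 : (0 : ℝ) ≤ logLo (4058674263 / 10 ^ 7) := by
    exact_mod_cast (by decide +kernel : (0 : ℚ) ≤ logLo (4058674263 / 10 ^ 7))
  push_cast at t2 t3
  rw [← hz] at t2 t3
  refine lt_of_le_of_lt (add_le_add (le_trans (Finset.sum_le_sum fun j hj => ?_) t2) t1)
    (by norm_num)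
  obtain ⟨a1, a2, a3, a4, a5, a6⟩ := okAll_sound (by norm_num [bhi]) okAll_hi hj
  rw [tm, mul_right_comm]
  refine mul_le_mul_of_nonneg_right ?_ (by positivity)
  rw [mul_sub]
  exact sub_le_sub (mul_le_mul a4 (mul_le_mul_of_nonneg_left a6 b0.le)
    (mul_nonneg b0.le (a2.trans a5)) ((a1.trans a3).trans a4)) (mul_le_mul a3 t3 t4 (a1.trans a3))

end Pool.Agent.Lib.MP_70615d_an
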