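import Mathlib
import Pool.Agent.Lib.MP_70615d_an.Kern

/-!
Positive definiteness in high dimension forces complete monotonicity in the limit.
-/

set_option autoImplicit false

namespace Pool.Agent.Lib.MP_70615d_an

open Filter Topology Set MeasureTheory

def PDf (n : ℕ) (f : ℝ → ℝ) : Prop :=
  ∀ (ι : Type) [Fintype ι] (x : ι → Fin n → ℝ) (c : ι → ℝ),
    0 ≤ ∑ i, ∑ j, c i * c j * f (∑ k, (x i k - x j k) ^ 2)

theorem norm_toLp_sub {n : ℕ} (x y : EuclideanSpace ℝ (Fin n)) :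
    ‖x - y‖ = √(∑ k, (x k - y k) ^ 2) := by
  simp [EuclideanSpace.norm_eq]

theorem PDf_of_posDef {n : ℕ} {α β : ℝ} (h : PosDef n α β) : PDf n fun t => kern α β √t := by
  intro ι _ x c
  set e := (Fintype.equivFin ι).symm
  have := h _ (fun i => WithLp.toLp 2 (x (e i))) fun i => (c (e i) : ℂ)
  simp only [norm_toLp_sub, Complex.conj_ofReal] at this
  have h2 : 0 ≤ ∑ i, ∑ j, c (e i) * c (e j) * kern α β √(∑ k, (x (e i) k - x (e j) k) ^ 2) := by
    exact_mod_cast this
  rw [← e.sum_comp]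
  refine h2.trans_eq (Finset.sum_congr rfl fun i _ => ?_)
  exact e.sum_comp fun j => c (e i) * c j * kern α β √(∑ k, (x (e i) k - x j k) ^ 2)

theorem posDef_of_PDf {n : ℕ} {α β : ℝ} (h : PDf n fun t => kern α β √t) : PosDef n α β := by
  intro m x c
  have h1 := h _ (fun i k => x i k) fun i => (c i).re
  have h2 := h _ (fun i k => x i k) fun i => (c i).im
  simp only [← norm_toLp_sub] at h1 h2
  rw [Complex.le_def]
  simp only [Complex.re_sum, Complex.im_sum, Complex.mul_re, Complex.mul_im, Complex.ofReal_re,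
    Complex.ofReal_im, Complex.conj_re, Complex.conj_im, mul_zero, sub_zero, zero_add,
    Complex.zero_re, Complex.zero_im]
  constructor
  · refine (add_nonneg h1 h2).trans_eq ?_
    rw [← Finset.sum_add_distrib]
    refine Finset.sum_congr rfl fun i _ => ?_
    rw [← Finset.sum_add_distrib]
    exact Finset.sum_congr rfl fun j _ => by ring
  · simp only [add_mul, Finset.sum_add_distrib]
    rw [Finset.sum_comm (f := fun i j => (c i).im * (c j).re * kern α β ‖x i - x j‖),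
      ← Finset.sum_add_distrib]
    refine (Finset.sum_eq_zero fun i _ => ?_).symm
    rw [← Finset.sum_add_distrib]
    exact Finset.sum_eq_zero fun j _ => by rw [norm_sub_rev (x j)]; ring

theorem PDf.step {n : ℕ} {f : ℝ → ℝ} (h : PDf (n + 1) f) {κ : Type} [Fintype κ] (w u : κ → ℝ) :
    PDf n fun t => ∑ p, ∑ q, w p * w q * f (t + (u p - u q) ^ 2) := by
  intro ι _ x c
  have := h (ι × κ) (fun ip => Fin.cons (u ip.2) (x ip.1)) fun ip => c ip.1 * w ip.2
  refine this.trans_eq ?_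
  simp only [Fintype.sum_prod_type, Fin.sum_univ_succ, Fin.cons_zero, Fin.cons_succ,
    Finset.mul_sum]
  refine Finset.sum_congr rfl fun i _ => ?_
  rw [Finset.sum_comm]
  refine Finset.sum_congr rfl fun j _ => Finset.sum_congr rfl fun p _ =>
    Finset.sum_congr rfl fun q _ => ?_
  rw [add_comm]; ring

theorem PDf.pred {n : ℕ} {f : ℝ → ℝ} (h : PDf (n + 1) f) : PDf n f := by
  simpa using h.step (κ := Unit) (fun _ => 1) fun _ => 0

theorem PDf.mono {n m : ℕ} {f : ℝ → ℝ} (h : PDf m f) (hnm : n ≤ m) : PDf n f := by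
  induction hnm with
  | refl => exact h
  | step _ ih => exact ih h.pred

theorem PDf.smul {n : ℕ} {f : ℝ → ℝ} (h : PDf n f) {a : ℝ} (ha : 0 ≤ a) :
    PDf n fun t => a * f t := by
  intro ι _ x c
  refine (mul_nonneg ha (h ι x c)).trans_eq ?_
  simp only [Finset.mul_sum]
  exact Finset.sum_congr rfl fun i _ => Finset.sum_congr rfl fun j _ => by ring

theorem PDf.nd {n : ℕ} {f : ℝ → ℝ} (h : PDf (n + 1) f) {v : ℝ} (hv : 0 < v) : PDf n (nd v f) := by
  have := (h.step (κ := Bool) (fun p => if p then 1 else -1) fun p => if p then 0 else √v).smul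
    (by norm_num : (0 : ℝ) ≤ 1 / 2)
  have e : (fun t => 1 / 2 * ∑ p : Bool, ∑ q : Bool, (if p then 1 else -1) * (if q then 1 else -1) *
      f (t + ((if p then 0 else √v) - if q then 0 else √v) ^ 2)) = MP_70615d_an.nd v f := by
    funext t
    simp [MP_70615d_an.nd, Real.sq_sqrt hv.le]; ring
  rwa [e] at this

theorem PDf.simplex {n : ℕ} {f : ℝ → ℝ} (h : PDf (n + 1) f) {t : ℝ} (ht : 0 < t) :
    0 ≤ f 0 + n * f t := by
  have := h (Fin (n + 1)) (fun i => Pi.single i √(t / 2)) fun _ => 1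
  have e : ∀ i j : Fin (n + 1), f (∑ k, ((Pi.single i √(t / 2) : Fin (n + 1) → ℝ) k -
      (Pi.single j √(t / 2) : Fin (n + 1) → ℝ) k) ^ 2) =
      f t + if i = j then f 0 - f t else 0 := fun i j => by
    split_ifs with hij
    · simp [hij]
    · rw [add_zero]
      congr 1
      have : ∀ k, ((Pi.single i √(t / 2) : Fin (n + 1) → ℝ) k -
          (Pi.single j √(t / 2) : Fin (n + 1) → ℝ) k) ^ 2 =
          (if i = k then t / 2 else 0) + if j = k then t / 2 else 0 := fun k => by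
        have hs := Real.sq_sqrt (by positivity : 0 ≤ t / 2)
        by_cases a : i = k
        · subst a; simp [Ne.symm hij, hs, -Real.sqrt_div', -Real.sqrt_div]
        · by_cases b : j = k
          · subst b; simp [hij, hs, -Real.sqrt_div', -Real.sqrt_div]
          · simp [a, b]
      simp only [this]
      simp [Finset.sum_add_distrib]
  simp only [e, one_mul, Finset.sum_add_distrib, Finset.sum_ite_eq, Finset.mem_univ, if_true,
    Finset.sum_const, Finset.card_univ, Fintype.card_fin, nsmul_eq_mul] at this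
  push_cast at this
  have hn : (0 : ℝ) < n + 1 := by positivity
  refine le_of_mul_le_mul_left ?_ hn
  linarith

theorem Dn_of_PD {ι : Type*} {l : Filter ι} [l.NeBot] (k : ℕ) :
    ∀ {F : ι → ℝ → ℝ} {f : ℝ → ℝ} {N : ι → ℕ} {B : ι → ℝ}, Tendsto N l atTop →
      (∀ᶠ i in l, PDf (N i) (F i) ∧ ∀ t, 0 ≤ t → |F i t| ≤ B i) →
      (∀ ε : ℝ, 0 < ε → ∀ᶠ i in l, B i ≤ ε * N i) →
      (∀ t, 0 < t → Tendsto (fun i => F i t) l (𝓝 (f t))) → Dn k f := by
  have base : ∀ {F : ι → ℝ → ℝ} {f : ℝ → ℝ} {N : ι → ℕ} {B : ι → ℝ}, Tendsto N l atTop →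
      (∀ᶠ i in l, PDf (N i) (F i) ∧ ∀ t, 0 ≤ t → |F i t| ≤ B i) →
      (∀ ε : ℝ, 0 < ε → ∀ᶠ i in l, B i ≤ ε * N i) →
      (∀ t, 0 < t → Tendsto (fun i => F i t) l (𝓝 (f t))) → ∀ t, 0 < t → 0 ≤ f t := by
    intro F f N B hN hF hB hl t ht
    refine le_of_forall_pos_le_add fun ε hε => ?_
    have : -ε ≤ f t := by
      refine ge_of_tendsto (hl t ht) ?_
      filter_upwards [hF, hB (ε / 2) (by positivity), hN.eventually_ge_atTop 2] with i h1 h2 h3
      obtain ⟨n, hn⟩ : ∃ n, N i = n + 1 := ⟨N i - 1, by omega⟩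
      rw [hn] at h1 h2
      have h4 := h1.1.simplex ht
      have h5 := (abs_le.1 (h1.2 0 le_rfl)).2
      have h6 : (1 : ℝ) ≤ n := by exact_mod_cast (by omega : 1 ≤ n)
      push_cast at h2
      refine le_of_mul_le_mul_left ?_ (by linarith : (0 : ℝ) < n)
      nlinarith
    linarith
  induction k with
  | zero => exact base
  | succ k ih =>
    intro F f N B hN hF hB hl
    refine ⟨base hN hF hB hl, fun h hh => ih (F := fun i => nd h (F i)) (N := fun i => N i - 1)
      (B := fun i => 2 * B i) ((tendsto_sub_atTop_nat 1).comp hN) ?_ (fun ε hε => ?_)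
      fun t ht => (hl t ht).sub (hl _ (by linarith))⟩
    · filter_upwards [hF, hN.eventually_ge_atTop 1] with i h1 h2
      refine ⟨PDf.nd (by rw [Nat.sub_add_cancel h2]; exact h1.1) hh, fun t ht => ?_⟩
      refine (abs_sub _ _).trans ?_
      linarith [h1.2 t ht, h1.2 (t + h) (by linarith)]
    · filter_upwards [hB (ε / 4) (by positivity), hN.eventually_ge_atTop 2] with i h1 h2
      have h3 : (2 : ℝ) ≤ N i := by exact_mod_cast h2
      rw [Nat.cast_sub (by omega)]
      push_cast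
      nlinarith

theorem sum_inv_sqrt (n : ℕ) : ∑ d ∈ Finset.range n, 1 / √((d : ℝ) + 1) ≤ 2 * √n := by
  induction n with
  | zero => simp
  | succ n ih =>
    rw [Finset.sum_range_succ]
    push_cast
    have h0 : (0 : ℝ) ≤ n := by positivity
    have h1 : 0 < √((n : ℝ) + 1) := Real.sqrt_pos.2 (by linarith)
    have h2 := Real.sq_sqrt h0
    have h3 := Real.sq_sqrt (by linarith : (0 : ℝ) ≤ n + 1)
    have : 1 / √((n : ℝ) + 1) ≤ 2 * √((n : ℝ) + 1) - 2 * √n := by
      rw [div_le_iff₀ h1]; nlinarith [sq_nonneg (√((n : ℝ) + 1) - √n)]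
    linarith

theorem sum_inv_sqrt_abs {M p : ℕ} (hp : p < M) :
    ∑ q ∈ Finset.range M, 1 / √|(p : ℝ) - q| ≤ 4 * √M := by
  obtain ⟨r, rfl⟩ := Nat.exists_eq_add_of_lt hp
  rw [add_assoc, Finset.sum_range_add, Finset.sum_range_succ', ← Finset.sum_range_reflect]
  have h1 : ∑ j ∈ Finset.range p, 1 / √|(p : ℝ) - (p - 1 - j : ℕ)| ≤ 2 * √p := by
    refine le_of_eq_of_le (Finset.sum_congr rfl fun j hj => ?_) (sum_inv_sqrt p)
    have := Finset.mem_range.1 hj
    rw [Nat.cast_sub (by omega), Nat.cast_sub (by omega), abs_of_pos] <;> push_cast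
    · ring_nf
    · linarith [Nat.cast_nonneg (α := ℝ) j]
  have h2 : ∑ j ∈ Finset.range r, 1 / √|(p : ℝ) - (p + (j + 1) : ℕ)| ≤ 2 * √r := by
    refine le_of_eq_of_le (Finset.sum_congr rfl fun j _ => ?_) (sum_inv_sqrt r)
    rw [abs_of_neg] <;> push_cast
    · ring_nf
    · linarith [Nat.cast_nonneg (α := ℝ) j]
  have h3 : √(p : ℝ) ≤ √(p + (r + 1) : ℕ) := Real.sqrt_le_sqrt (by exact_mod_cast (by omega))
  have h4 : √(r : ℝ) ≤ √(p + (r + 1) : ℕ) := Real.sqrt_le_sqrt (by exact_mod_cast (by omega))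
  simp only [add_zero, sub_self, abs_zero, Real.sqrt_zero, div_zero]
  linarith

noncomputable def kf (a b t : ℝ) : ℝ := a⁻¹ * kern (2 * a) (2 * b) √t

theorem kf_eq {a b t : ℝ} (ha : a ≠ 0) (hb : b ≠ 0) (ht : 0 < t) : kf a b t = K a b t := by
  rw [kf, kern_eq hb (Real.sqrt_pos.2 ht), Real.sq_sqrt ht.le]; field_simp

theorem kf_zero {a b : ℝ} (ha : a ≠ 0) (hb : b ≠ 0) : kf a b 0 = a⁻¹ := by
  rw [kf, Real.sqrt_zero, kern_zero (by positivity) (by positivity), mul_one]

noncomputable def avg (M : ℕ) (δ : ℝ) (f : ℝ → ℝ) (t : ℝ) : ℝ :=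
  ∑ p : Fin M, ∑ q : Fin M, (1 / M) * (1 / M) * f (t + (δ * p / M - δ * q / M) ^ 2)

theorem PDf.avg {n : ℕ} {f : ℝ → ℝ} (h : PDf (n + 1) f) (M : ℕ) (δ : ℝ) : PDf n (avg M δ f) :=
  h.step (κ := Fin M) (fun _ => 1 / (M : ℝ)) fun p => δ * p / M

theorem avg_bound {a b δ t : ℝ} {M : ℕ} (ha : 0 < a) (ha1 : a ≤ 1) (hb : 1 ≤ b) (hδ : 0 < δ)
    (hM : a⁻¹ ≤ M) (ht : 0 ≤ t) : |avg M δ (kf a b) t| ≤ 2 + 16 / √δ := by
  have hM0 : (0 : ℝ) < M := (inv_pos.2 ha).trans_le hM
  have hb0 : 0 < b := by linarith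
  have hk : ∀ t, 0 ≤ t → 0 ≤ kf a b t ∧ kf a b t ≤ M := fun t ht => by
    rcases ht.eq_or_lt with rfl | ht
    · rw [kf_zero ha.ne' hb0.ne']; exact ⟨by positivity, hM⟩
    · rw [kf_eq ha.ne' hb0.ne' ht]
      refine ⟨(K_pos hb0 t).le, le_trans ?_ hM⟩
      rw [← one_div, le_div_iff₀' ha]
      exact mul_K_le_one ha (by linarith) ht
  have hs := Real.sqrt_pos.2 hδ
  have hsM := Real.sqrt_pos.2 hM0
  have h1 : ∀ p q : Fin M, kf a b (t + (δ * p / M - δ * q / M) ^ 2) ≤
      (if p = q then (M : ℝ) else 0) + (1 + 4 * √M / √δ * (1 / √|(p : ℝ) - q|)) := fun p q => by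
    split_ifs with h
    · have : 0 ≤ 1 + 4 * √M / √δ * (1 / √|(p : ℝ) - q|) := by positivity
      linarith [(hk (t + (δ * p / M - δ * q / M) ^ 2) (by positivity)).2]
    · have h2 : (0 : ℝ) < |(p : ℝ) - q| := abs_pos.2 (sub_ne_zero.2 fun e => h (Fin.ext (by
        exact_mod_cast e)))
      have h3 := Real.sqrt_pos.2 h2
      have h4 : (√δ * √|(p : ℝ) - q| / √M) ^ 4 = (δ * p / M - δ * q / M) ^ 2 := by
        rw [show 4 = 2 * 2 from rfl, pow_mul, div_pow, mul_pow, Real.sq_sqrt hδ.le,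
          Real.sq_sqrt h2.le, Real.sq_sqrt hM0.le, div_pow, mul_pow, sq_abs]
        field_simp
      have h5 : 0 < √δ * √|(p : ℝ) - q| / √M := by positivity
      rw [kf_eq ha.ne' hb0.ne' (by rw [← h4]; positivity), zero_add]
      refine (K_le_sing ha.le ha1 hb h5 (by linarith)).trans (le_of_eq ?_)
      field_simp
  rw [avg, abs_of_nonneg (Finset.sum_nonneg fun p _ => Finset.sum_nonneg fun q _ =>
    mul_nonneg (by positivity) (hk _ (by positivity)).1)]
  have h2 : ∀ p : Fin M, ∑ q : Fin M, (1 / M) * (1 / M) * kf a b (t + (δ * p / M - δ * q / M) ^ 2) ≤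
      1 / M * (2 + 16 / √δ) := fun p => by
    rw [← Finset.mul_sum, mul_assoc]
    refine mul_le_mul_of_nonneg_left ?_ (by positivity)
    rw [one_div_mul_eq_div, div_le_iff₀ hM0]
    refine (Finset.sum_le_sum fun q _ => h1 p q).trans ?_
    simp only [Finset.sum_add_distrib, Finset.sum_ite_eq, Finset.mem_univ, if_true,
      Finset.sum_const, Finset.card_univ, Fintype.card_fin, nsmul_eq_mul, ← Finset.mul_sum]
    rw [Fin.sum_univ_eq_sum_range (fun q => 1 / √|(p : ℝ) - q|)]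
    have := mul_le_mul_of_nonneg_left (sum_inv_sqrt_abs p.2) (by positivity : 0 ≤ 4 * √M / √δ)
    have e : 4 * √M / √δ * (4 * √M) = 16 / √δ * M := by
      have := Real.mul_self_sqrt hM0.le
      field_simp; nlinarith
    linarith
  refine (Finset.sum_le_sum fun p _ => h2 p).trans (le_of_eq ?_)
  simp only [Finset.sum_const, Finset.card_univ, Fintype.card_fin, nsmul_eq_mul]
  field_simp

theorem avg_near {M : ℕ} (hM : 0 < M) {δ t y ε : ℝ} {f : ℝ → ℝ}
    (h : ∀ v, 0 ≤ v → v ≤ δ ^ 2 → |f (t + v) - y| ≤ ε) : |avg M δ f t - y| ≤ ε := by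
  have hM0 : (0 : ℝ) < M := by exact_mod_cast hM
  have e : ∀ z : ℝ, ∑ _p : Fin M, ∑ _q : Fin M, (1 / M : ℝ) * (1 / M) * z = z := fun z => by
    simp only [Finset.sum_const, Finset.card_univ, Fintype.card_fin, nsmul_eq_mul]
    field_simp
  rw [avg, ← e y, ← e ε, ← Finset.sum_sub_distrib]
  refine (Finset.abs_sum_le_sum_abs _ _).trans (Finset.sum_le_sum fun p _ => ?_)
  rw [← Finset.sum_sub_distrib]
  refine (Finset.abs_sum_le_sum_abs _ _).trans (Finset.sum_le_sum fun q _ => ?_)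
  rw [← mul_sub, abs_mul, abs_of_nonneg (by positivity)]
  refine mul_le_mul_of_nonneg_left (h _ (by positivity) ?_) (by positivity)
  have hp : (p : ℝ) ≤ M := by exact_mod_cast p.2.le
  have hq : (q : ℝ) ≤ M := by exact_mod_cast q.2.le
  have : δ * p / M - δ * q / M = δ * ((p - q) / M) := by ring
  rw [this, mul_pow]
  refine mul_le_of_le_one_right (by positivity) ?_
  rw [div_pow, div_le_one (by positivity)]
  nlinarith [Nat.cast_nonneg (α := ℝ) p, Nat.cast_nonneg (α := ℝ) q]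

theorem DC_of_limit {l : Filter ℕ} [l.NeBot] (hl : l ≤ atTop) {a b : ℕ → ℝ} {f : ℝ → ℝ}
    (h : ∀ᶠ n in l, 0 < a n ∧ a n ≤ 1 ∧ 1 ≤ b n ∧ PosDef n (2 * a n) (2 * b n))
    (hf : ∀ t, 0 < t → Tendsto (fun p : ℕ × ℝ => K (a p.1) (b p.1) (t + p.2)) (l ×ˢ 𝓝[≥] 0)
      (𝓝 (f t))) : DC f := by
  intro k
  have hN : Tendsto (fun n : ℕ => (n : ℝ)) l atTop := tendsto_natCast_atTop_atTop.mono_left hl
  refine Dn_of_PD (l := l) k (F := fun n => avg ⌈(a n)⁻¹⌉₊ (1 / n) (kf (a n) (b n)))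
    (N := fun n => n - 1) (B := fun n => 2 + 16 / √(1 / n))
    ((tendsto_sub_atTop_nat 1).mono_left hl) ?_ (fun ε hε => ?_) fun t ht => ?_
  · filter_upwards [h, hl (eventually_ge_atTop 1)] with n hn h1
    have h1' : 1 ≤ n := h1
    refine ⟨?_, fun t ht => avg_bound hn.1 hn.2.1 hn.2.2.1 (by positivity) (Nat.le_ceil _) ht⟩
    have := (PDf_of_posDef hn.2.2.2).smul (inv_pos.2 hn.1).le
    exact PDf.avg (f := kf (a n) (b n)) (this.mono (by omega)) _ _
  · filter_upwards [(Real.tendsto_sqrt_atTop.comp hN).eventually_ge_atTop (36 / ε + 2),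
      hl (eventually_ge_atTop 1)] with n h1 h2
    have h2' : 1 ≤ n := h2
    simp only [Function.comp] at h1
    rw [Nat.cast_sub h2', one_div, Real.sqrt_inv, div_inv_eq_mul]
    have h3 := Real.mul_self_sqrt (Nat.cast_nonneg (α := ℝ) n)
    have h4 : 0 < 36 / ε := by positivity
    have h5 : ε * (36 / ε) = 36 := by field_simp
    push_cast
    generalize √(n : ℝ) = r at *
    rw [← h3]
    have h6 : 36 + 2 * ε ≤ ε * r := by nlinarith
    nlinarith
  · rw [Metric.tendsto_nhds]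
    intro ε hε
    have := Metric.tendsto_nhds.1 (hf t ht) (ε / 2) (by positivity)
    obtain ⟨pa, hpa, pb, hpb, hab⟩ := eventually_prod_iff.1 this
    obtain ⟨ρ, hρ, hρ'⟩ := Metric.mem_nhdsWithin_iff.1 hpb
    have h2 : Tendsto (fun n : ℕ => (1 / (n : ℝ)) ^ 2) l (𝓝 0) := by
      simpa using (tendsto_inv_atTop_zero.comp hN).pow 2
    filter_upwards [h, hpa, h2.eventually_lt_const hρ] with n hn h1 h3
    rw [Real.dist_eq]
    refine lt_of_le_of_lt (avg_near (ε := ε / 2) (Nat.ceil_pos.2 (inv_pos.2 hn.1))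
      fun v v0 v1 => ?_) (by linarith)
    rw [kf_eq hn.1.ne' (by linarith [hn.2.2.1]) (by linarith)]
    have := hab h1 (hρ' ⟨by simp [abs_of_nonneg v0]; linarith, v0⟩)
    exact le_of_lt this

theorem alpha_le {n : ℕ} {α β : ℝ} (hn : 1 ≤ n) (hα : 0 < α) (hβ : 0 < β) (hne : α ≠ β)
    (h : PosDef n α β) : α < β ∧ α ≤ 2 := by
  have h1 := (PDf_of_posDef h).mono hn
  have k0 := kern_zero hα.ne' hβ.ne'
  have hlt : α < β := by
    refine lt_of_le_of_ne (le_of_not_gt fun hc => ?_) hne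
    have := h1.simplex (n := 0) one_pos
    have h2 := h1 Bool (fun p _ => if p then 0 else 2) fun p => if p then 1 else -1
    simp [k0, show √(2 ^ 2 : ℝ) = 2 from Real.sqrt_sq (by norm_num)] at h2
    have h3 : (2 : ℝ) ^ β < 2 ^ α := Real.rpow_lt_rpow_of_exponent_lt one_lt_two hc
    have h4 : (1 : ℝ) < 2 ^ β := Real.one_lt_rpow one_lt_two hβ
    have h5 : 1 < kern α β 2 := by
      rw [kern, if_neg (by norm_num), ← neg_div_neg_eq, one_lt_div (by linarith)]; linarith
    linarith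
  refine ⟨hlt, ?_⟩
  have h3 : ∀ r, 0 < r → 1 - kern α β (2 * r) ≤ 4 * (1 - kern α β r) := fun r hr => by
    have := h1 (Fin 3) (fun p _ => ![0, r, 2 * r] p) ![1, -2, 1]
    have e1 : √(r ^ 2) = r := Real.sqrt_sq hr.le
    have e2 : √((2 * r) ^ 2) = 2 * r := Real.sqrt_sq (by positivity)
    have e3 : r - 2 * r = -r := by ring
    have e4 : 2 * r - r = r := by ring
    simp [Fin.sum_univ_three, k0, e1, e2, e3, e4] at this
    linarith
  have hd : 0 < β - α := by linarith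
  have c : ∀ x : ℝ, 0 < x → Tendsto (fun r : ℝ => r ^ x) (𝓝[>] 0) (𝓝 0) := fun x hx => by
    have := (Real.continuousAt_rpow_const 0 x (Or.inr hx.le)).tendsto
    rw [Real.zero_rpow hx.ne'] at this
    exact this.mono_left nhdsWithin_le_nhds
  have l1 : Tendsto (fun r : ℝ => ((2 : ℝ) ^ α - 2 ^ β * r ^ (β - α)) / (1 - 2 ^ β * r ^ β))
      (𝓝[>] 0) (𝓝 (2 ^ α)) := by
    have := (((c _ hd).const_mul ((2 : ℝ) ^ β)).const_sub ((2 : ℝ) ^ α)).div
      (((c _ hβ).const_mul ((2 : ℝ) ^ β)).const_sub 1) (by simp)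
    simp only [mul_zero, sub_zero, div_one] at this
    exact this
  have l2 : Tendsto (fun r : ℝ => 4 * ((1 - r ^ (β - α)) / (1 - r ^ β))) (𝓝[>] 0) (𝓝 4) := by
    simpa using (((c _ hd).const_sub 1).div ((c _ hβ).const_sub 1) (by simp)).const_mul 4
  have h4 : (2 : ℝ) ^ α ≤ 4 := by
    refine le_of_tendsto_of_tendsto l1 l2 ?_
    have : ∀ᶠ r in 𝓝[>] (0 : ℝ), r < 1 / 2 := nhdsWithin_le_nhds (Iio_mem_nhds (by norm_num))
    filter_upwards [this, self_mem_nhdsWithin] with r r1 r0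
    have r0' : 0 < r := r0
    have := h3 r r0'
    rw [kern, kern, if_neg (by linarith), if_neg (by linarith), Real.mul_rpow two_pos.le r0'.le,
      Real.mul_rpow two_pos.le r0'.le] at this
    have q1 : r ^ β < 1 := Real.rpow_lt_one r0'.le (by linarith) hβ
    have q2 : 2 ^ β * r ^ β < 1 := by
      rw [← Real.mul_rpow two_pos.le r0'.le]
      exact Real.rpow_lt_one (by positivity) (by linarith) hβ
    have q3 : r ^ β = r ^ α * r ^ (β - α) := by rw [← Real.rpow_add r0']; ring_nf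
    have q4 := Real.rpow_pos_of_pos r0' α
    refine le_of_mul_le_mul_left ?_ q4
    have q5 : 1 - r ^ β ≠ 0 := by linarith
    have q6 : 1 - 2 ^ β * r ^ β ≠ 0 := by linarith
    have e1 : r ^ α * ((2 ^ α - 2 ^ β * r ^ (β - α)) / (1 - 2 ^ β * r ^ β)) =
        1 - (1 - 2 ^ α * r ^ α) / (1 - 2 ^ β * r ^ β) := by
      field_simp; linear_combination (2 : ℝ) ^ β * q3
    have e2 : r ^ α * (4 * ((1 - r ^ (β - α)) / (1 - r ^ β))) =
        4 * (1 - (1 - r ^ α) / (1 - r ^ β)) := by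
      field_simp; linear_combination q3
    rw [e1, e2]; exact this
  rw [show (4 : ℝ) = 2 ^ (2 : ℝ) by norm_num] at h4
  exact (Real.rpow_le_rpow_left_iff one_lt_two).1 h4

theorem eventually_not_posDef {b₁ : ℝ} (hb₁ : 1 ≤ b₁) (h : ¬ DC (K 0 b₁)) :
    ∀ᶠ n in atTop, ∀ α β : ℝ, 0 < α → α ≠ β → 2 * b₁ ≤ β → ¬ PosDef n α β := by
  by_contra hc
  rw [not_eventually] at hc
  have h1 : ∀ n : ℕ, ∃ p : ℝ × ℝ, (¬ ∀ α β : ℝ, 0 < α → α ≠ β → 2 * b₁ ≤ β → ¬ PosDef n α β) →
      0 < p.1 ∧ p.1 ≠ p.2 ∧ b₁ ≤ p.2 ∧ PosDef n (2 * p.1) (2 * p.2) := fun n => by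
    by_cases hn : ∀ α β : ℝ, 0 < α → α ≠ β → 2 * b₁ ≤ β → ¬ PosDef n α β
    · exact ⟨0, fun h => absurd hn h⟩
    · push Not at hn
      obtain ⟨α, β, h1, h2, h3, h4⟩ := hn
      exact ⟨(α / 2, β / 2), fun _ => ⟨by positivity, fun e => h2 (by linarith), by linarith,
        by simpa [mul_div_cancel₀] using h4⟩⟩
  choose p hp using h1
  obtain ⟨U, hU⟩ := @Ultrafilter.exists_le _ _ (frequently_iff_neBot.1 hc)
  have hU1 : (U : Filter ℕ) ≤ atTop := hU.trans inf_le_left
  have hU2 : ∀ᶠ n in (U : Filter ℕ), (0 < (p n).1 ∧ (p n).1 ≤ 1 ∧ 1 ≤ (p n).2 ∧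
      PosDef n (2 * (p n).1) (2 * (p n).2)) ∧ b₁ ≤ (p n).2 := by
    filter_upwards [le_principal_iff.1 (hU.trans inf_le_right), hU1 (eventually_ge_atTop 1)]
      with n hn h1
    obtain ⟨a1, a2, a3, a4⟩ := hp n hn
    have := alpha_le h1 (by linarith) (by linarith) (fun e => a2 (by linarith)) a4
    exact ⟨⟨a1, by linarith [this.2], by linarith, a4⟩, a3⟩
  obtain ⟨a, ha, hal⟩ := (isCompact_Icc (a := (0 : ℝ)) (b := 1)).ultrafilter_le_nhds
    (U.map fun n => (p n).1) (le_principal_iff.2 (hU2.mono fun n hn => ⟨hn.1.1.le, hn.1.2.1⟩))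
  obtain ⟨τ, hτ, hτl⟩ := (isCompact_Icc (a := (0 : ℝ)) (b := b₁⁻¹)).ultrafilter_le_nhds
    (U.map fun n => (p n).2⁻¹) (le_principal_iff.2 (hU2.mono fun n hn =>
      ⟨inv_nonneg.2 (by linarith [hn.2]), inv_anti₀ (by linarith) hn.2⟩))
  have ta : Tendsto (fun q : ℕ × ℝ => (p q.1).1) (U ×ˢ 𝓝[≥] 0) (𝓝 a) :=
    Tendsto.comp (g := fun n => (p n).1) hal tendsto_fst
  have tτ : Tendsto (fun n => (p n).2⁻¹) U (𝓝 τ) := hτl
  have tv : ∀ t : ℝ, Tendsto (fun q : ℕ × ℝ => t + q.2) (U ×ˢ 𝓝[≥] 0) (𝓝 t) := fun t => by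
    simpa using (tendsto_snd.mono_right nhdsWithin_le_nhds :
      Tendsto (fun q : ℕ × ℝ => q.2) (U ×ˢ 𝓝[≥] 0) (𝓝 0)).const_add t
  rcases hτ.1.eq_or_lt with rfl | hτ0
  · have tb : Tendsto (fun n => (p n).2) U atTop := by
      have : Tendsto (fun n => (p n).2⁻¹) U (𝓝[>] 0) := tendsto_nhdsWithin_iff.2
        ⟨tτ, hU2.mono fun n hn => inv_pos.2 (by linarith [hn.2] : 0 < (p n).2)⟩
      exact this.inv_tendsto_nhdsGT_zero.congr fun n => inv_inv _
    have hD := DC_of_limit (f := fun t => if t < 1 then -(Real.log t * E (a * Real.log t)) else 0)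
      hU1 (hU2.mono fun n hn => hn.1) fun t ht => ?_
    · have h2 := ((((hD 3).2 (12 / 100) (by norm_num)).2 (12 / 100) (by norm_num)).2 (12 / 100)
        (by norm_num)) (79 / 100) (by norm_num)
      norm_num [nd] at h2
      have l1 : Real.log (79 / 100) < 0 := Real.log_neg (by norm_num) (by norm_num)
      have l2 : Real.log (91 / 100) < 0 := Real.log_neg (by norm_num) (by norm_num)
      have e1 : E (a * Real.log (79 / 100)) ≤ 1 := E_zero ▸ E_mono (by nlinarith [ha.1])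
      have e2 : E (1 * Real.log (91 / 100)) ≤ E (a * Real.log (91 / 100)) :=
        E_mono (by nlinarith [ha.2])
      have e3 := log_mul_E 1 (by norm_num : (0 : ℝ) < 91 / 100)
      have e4 := Real.one_sub_inv_le_log_of_pos (by norm_num : (0 : ℝ) < 79 / 100)
      rw [Real.rpow_one] at e3
      norm_num at e2 e3 e4
      nlinarith
    · split_ifs with h1
      · have t1 : Tendsto (fun q : ℕ × ℝ => (t + q.2) ^ (p q.1).2) (U ×ˢ 𝓝[≥] 0) (𝓝 0) := by
          have t2 := (tendsto_rpow_atTop_of_base_lt_one ((1 + t) / 2) (by linarith)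
            (by linarith)).comp (tb.comp (tendsto_fst (f := (U : Filter ℕ)) (g := 𝓝[≥] (0 : ℝ))))
          refine squeeze_zero' ?_ ?_ t2
          · filter_upwards [(tv t).eventually_const_lt ht] with q hq
            positivity
          · filter_upwards [(tv t).eventually_const_lt ht,
              (tv t).eventually_lt_const (by linarith : t < (1 + t) / 2),
              tendsto_fst.eventually hU2] with q hq hq' hq2
            exact Real.rpow_le_rpow hq.le hq'.le (by linarith [hq2.2])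
        have t2 := (tv t).log ht.ne'
        have t3 := (t2.mul ((E_cont.tendsto _).comp (ta.mul t2))).div (t1.sub_const 1) (by simp)
        rw [zero_sub, div_neg, div_one] at t3
        refine t3.congr' ?_
        filter_upwards [(tv t).eventually_const_lt ht, (tv t).eventually_lt_const h1,
          tendsto_fst.eventually hU2] with q hq hq' hq2
        exact (K_eq (by linarith [hq2.2]) hq hq'.ne).symm
      · refine squeeze_zero' ?_ ?_ (tτ.comp tendsto_fst)
        · filter_upwards [tendsto_fst.eventually hU2] with q hq2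
          exact (K_pos (by linarith [hq2.2]) _).le
        · filter_upwards [tendsto_fst.eventually hU2,
            tendsto_snd.eventually self_mem_nhdsWithin] with q hq2 hq
          have hq' : 0 ≤ q.2 := hq
          simpa using K_le_inv (by linarith [hq2.2]) (hq2.1.2.1.trans hq2.1.2.2.1)
            (by linarith : 1 ≤ t + q.2)
  · have tb : Tendsto (fun n => (p n).2) U (𝓝 τ⁻¹) := by simpa using tτ.inv₀ hτ0.ne'
    have hD := DC_of_limit (f := K a τ⁻¹) hU1 (hU2.mono fun n hn => hn.1) fun t ht => by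
      have t1 : Tendsto (fun q : ℕ × ℝ => ((p q.1).1, (p q.1).2, t + q.2)) (U ×ˢ 𝓝[≥] 0)
          (𝓝 (a, τ⁻¹, t)) := ta.prodMk_nhds ((tb.comp tendsto_fst).prodMk_nhds (tv t))
      have t2 := (K_contAt (a := a) (inv_pos.2 hτ0).ne' ht).tendsto.comp t1
      exact t2
    exact h (DC_K0_down (DC_K0_of hD ha.1 ha.2) (by linarith)
      ((le_inv_comm₀ (by linarith) hτ0).2 hτ.2))

theorem PDf_gauss (n : ℕ) {s : ℝ} (hs : 0 ≤ s) : PDf n fun t => Real.exp (-(t * s)) := by
  intro ι _ x c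
  set d : ι → ℝ := fun i => c i * Real.exp (-(s * ∑ k, x i k ^ 2))
  have e : ∀ i j, c i * c j * Real.exp (-((∑ k, (x i k - x j k) ^ 2) * s)) =
      d i * d j * Real.exp (2 * s * ∑ k, x i k * x j k) := fun i j => by
    have : -((∑ k, (x i k - x j k) ^ 2) * s) = -(s * ∑ k, x i k ^ 2) + -(s * ∑ k, x j k ^ 2) +
        2 * s * ∑ k, x i k * x j k := by
      simp only [Finset.mul_sum, Finset.sum_mul, ← Finset.sum_neg_distrib, ← Finset.sum_add_distrib]
      exact Finset.sum_congr rfl fun k _ => by ring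
    rw [this, Real.exp_add, Real.exp_add]; simp only [d]; ring
  simp only [e]
  have hs' : HasSum (fun m : ℕ => ∑ i, ∑ j, d i * d j *
      ((2 * s * ∑ k, x i k * x j k) ^ m / m.factorial))
      (∑ i, ∑ j, d i * d j * Real.exp (2 * s * ∑ k, x i k * x j k)) :=
    hasSum_sum fun i _ => hasSum_sum fun j _ => by
      have := NormedSpace.expSeries_div_hasSum_exp (2 * s * ∑ k, x i k * x j k)
      rw [← Real.exp_eq_exp_ℝ] at this
      exact this.mul_left _
  refine hs'.nonneg fun m => ?_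
  have e2 : ∑ i, ∑ j, d i * d j * ((2 * s * ∑ k, x i k * x j k) ^ m / m.factorial) =
      (2 * s) ^ m / m.factorial * ∑ q : Fin m → Fin n, (∑ i, d i * ∏ l, x i (q l)) ^ 2 := by
    have e3 : ∀ i j, (∑ k, x i k * x j k) ^ m =
        ∑ q : Fin m → Fin n, (∏ l, x i (q l)) * ∏ l, x j (q l) := fun i j => by
      simp only [Fintype.sum_pow, Finset.prod_mul_distrib]
    simp only [mul_pow (2 * s), e3, sq, Finset.sum_mul_sum]
    simp only [Finset.mul_sum, Finset.sum_div]
    rw [Finset.sum_comm (s := (Finset.univ : Finset (Fin m → Fin n)))]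
    refine Finset.sum_congr rfl fun i _ => ?_
    rw [Finset.sum_comm (s := (Finset.univ : Finset (Fin m → Fin n)))]
    exact Finset.sum_congr rfl fun j _ => Finset.sum_congr rfl fun q _ => by ring
  rw [e2]; positivity

end Pool.Agent.Lib.MP_70615d_an
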