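import Mathlib
import Pool.Agent.Lib.MP_70615d_an.Series

/-!
Below a good exponent the density is strictly positive (subordination).
-/

set_option autoImplicit false

namespace Pool.Agent.Lib.MP_70615d_an

open Filter Topology Set MeasureTheory

theorem DC_phi' {c : ℝ} (hc : 0 < c) (hc1 : c < 1) :
    DC fun t => c * t ^ (c - 1) - c / (2 * Real.Gamma (1 - c)) * ((1 + t)⁻¹ * (1 + t)⁻¹) := by
  set κ := c / (2 * Real.Gamma (1 - c)) with hκ
  have hG := Real.Gamma_pos_of_pos (by linarith : 0 < 1 - c)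
  have e : ∀ t s : ℝ, Real.exp (-(t * s)) * (c * gam s (1 - c) - κ * (Real.exp (-s) * gam s 2)) =
      c * (Real.exp (-(t * s)) * gam s (1 - c)) - κ * (Real.exp (-((1 + t) * s)) * gam s 2) :=
    fun t s => by
      rw [show -((1 + t) * s) = -(t * s) + -s by ring, Real.exp_add]; ring
  refine (DC.integral (μ := volume.restrict (Ioi 0))
    (F := fun s t => Real.exp (-(t * s)) * (c * gam s (1 - c) - κ * (Real.exp (-s) * gam s 2))) ?_
    fun t ht => ?_).congr fun t ht => ?_
  · filter_upwards [ae_restrict_mem measurableSet_Ioi] with s hs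
    have hs0 : 0 < s := hs
    refine (DC.exp_neg hs0.le).mul (DC.const ?_)
    have h1 : s ^ (1 + c) ≤ 2 * Real.exp s := by
      have h2 := Real.quadratic_le_exp_of_nonneg hs0.le
      rcases le_total s 1 with h | h
      · have := Real.rpow_le_one hs0.le h (by linarith : 0 ≤ 1 + c)
        nlinarith
      · have := Real.rpow_le_rpow_of_exponent_le h (by linarith : 1 + c ≤ 2)
        rw [Real.rpow_two] at this
        nlinarith
    have h2 : s ^ (1 + c) * s ^ (1 - c - 1) = s := by
      rw [← Real.rpow_add hs0]; simp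
    have h3 : 0 < s ^ (1 - c - 1) := Real.rpow_pos_of_pos hs0 _
    have h4 : gam s 2 = s := by norm_num [gam]
    have h5 := Real.exp_pos s
    rw [h4, gam, hκ, Real.exp_neg, sub_nonneg]
    generalize s ^ (1 - c - 1) = v at *
    have : c * (v / Real.Gamma (1 - c)) - c / (2 * Real.Gamma (1 - c)) * ((Real.exp s)⁻¹ * s) =
        c / (2 * Real.Gamma (1 - c) * Real.exp s) * (2 * Real.exp s * v - s) := by
      field_simp
    have h6 : 0 ≤ c / (2 * Real.Gamma (1 - c) * Real.exp s) * (2 * Real.exp s * v - s) :=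
      mul_nonneg (by positivity) (by nlinarith)
    linarith
  · simp only [e]
    exact ((lap_gam ht (by linarith)).1.const_mul _).sub
      ((lap_gam (by linarith) two_pos).1.const_mul _)
  · simp only [e]
    rw [integral_sub ((lap_gam ht (by linarith)).1.const_mul _)
      ((lap_gam (by linarith) two_pos).1.const_mul _), integral_const_mul, integral_const_mul,
      (lap_gam ht (by linarith)).2, (lap_gam (by linarith) two_pos).2, neg_sub,
      Real.rpow_neg (by linarith), Real.rpow_two, sq, mul_inv]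

theorem DC_exp_sub {k : ℝ} (hk : 0 ≤ k) :
    DC fun t => Real.exp (k * (1 + t)⁻¹) - k * (1 + t)⁻¹ := by
  have hi : DC fun t : ℝ => (1 + t)⁻¹ := by
    simpa using DC.inv_affine zero_le_one zero_le_one (by norm_num)
  have hg : DC fun t : ℝ => k * ((1 + t)⁻¹ * (1 + t)⁻¹) := (DC.const hk).mul (hi.mul hi)
  have hy : ∀ t : ℝ, 0 < t → HasDerivAt (fun t : ℝ => k * (1 + t)⁻¹)
      (-(k * ((1 + t)⁻¹ * (1 + t)⁻¹))) t := fun t ht => by
    refine ((((hasDerivAt_id t).const_add 1).inv (by simp only [id]; linarith)).const_mul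
      k).congr_deriv ?_
    simp only [id]; field_simp
  have h1 : DC fun t => Real.exp (k * (1 + t)⁻¹) :=
    DC.of_deriv_mul (fun t _ => (Real.exp_pos _).le)
      (fun t ht => (hy t ht).exp.congr_deriv (by ring)) hg
  have h2 : DC fun t => Real.exp (k * (1 + t)⁻¹) - 1 :=
    DC.of_deriv (fun t ht => sub_nonneg.2 (Real.one_le_exp (by positivity)))
      (fun t ht => ((hy t ht).exp.sub_const 1).congr_deriv (by ring)) (hg.mul h1)
  exact DC.of_deriv (fun t _ => by linarith [Real.add_one_le_exp (k * (1 + t)⁻¹)])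
    (fun t ht => ((hy t ht).exp.sub (hy t ht)).congr_deriv (by ring)) (hg.mul h2)

theorem exists_subexp {c θ B η : ℝ} (hc1 : c < 1) (hθ : 0 < θ) (hθ1 : θ < 1) (hη : 0 < η) :
    ∃ J : ℕ, θ ^ J * B < Real.exp (-((1 + J : ℝ) ^ c)) * η := by
  set L := -Real.log θ
  have hL : 0 < L := by simp only [L]; linarith [Real.log_neg hθ hθ1]
  have t0 : Tendsto (fun J : ℕ => (1 + J : ℝ)) atTop atTop :=
    tendsto_atTop_add_const_left _ _ tendsto_natCast_atTop_atTop
  have t1 : ∀ᶠ J : ℕ in atTop, (1 + J : ℝ) ^ (-(1 - c)) < L / 2 :=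
    ((tendsto_rpow_neg_atTop (by linarith : 0 < 1 - c)).comp t0).eventually_lt_const (by linarith)
  have t2 : Tendsto (fun J : ℕ => Real.exp (L - L / 2 * (1 + J)) * |B|) atTop (𝓝 0) := by
    have := (Real.tendsto_exp_atBot.comp (tendsto_atBot_add_const_left _ L
      (tendsto_neg_atTop_atBot.comp (t0.const_mul_atTop (by linarith : 0 < L / 2))))).mul_const |B|
    simpa [sub_eq_add_neg] using this
  obtain ⟨J, h1, h2⟩ := (t1.and (t2.eventually_lt_const hη)).exists
  refine ⟨J, ?_⟩
  have hJ : (0 : ℝ) < 1 + J := by positivity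
  have h3 : (1 + J : ℝ) ^ c ≤ L / 2 * (1 + J) := by
    have : (1 + J : ℝ) ^ c = (1 + J : ℝ) ^ (-(1 - c)) * (1 + J) := by
      rw [← Real.rpow_add_one hJ.ne']; ring_nf
    rw [this]; exact mul_le_mul_of_nonneg_right h1.le hJ.le
  have h4 : θ ^ J ≤ Real.exp (-((1 + J : ℝ) ^ c)) * Real.exp (L - L / 2 * (1 + J)) := by
    rw [← Real.exp_add, ← Real.exp_log (pow_pos hθ J), Real.log_pow]
    refine Real.exp_le_exp.2 ?_
    have : Real.log θ = -L := by simp [L]
    rw [this]; linarith
  calc θ ^ J * B ≤ θ ^ J * |B| := mul_le_mul_of_nonneg_left (le_abs_self _) (by positivity)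
    _ ≤ Real.exp (-((1 + J : ℝ) ^ c)) * Real.exp (L - L / 2 * (1 + J)) * |B| := by gcongr
    _ < _ := by rw [mul_assoc]; exact mul_lt_mul_of_pos_left h2 (Real.exp_pos _)

theorem mm_pos_of_lt {b b' : ℝ} (h : DC (K 0 b)) (hb' : 2 < b') (hbb : b' < b) (hb4 : b < 4)
    {s : ℝ} (hs : 0 < s) : 0 < mm 0 b' s := by
  have hb : 2 < b := by linarith
  set c := b' / b with hc
  have hc0 : 0 < c := by positivity
  have hc1 : c < 1 := (div_lt_one (by linarith)).2 hbb
  have hcb : c * b = b' := by rw [hc]; field_simp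
  set κ := c / (2 * Real.Gamma (1 - c)) with hκ
  have hκ0 : 0 < κ := div_pos hc0 (mul_pos two_pos (Real.Gamma_pos_of_pos (by linarith)))
  set M := mm 0 b
  have hM : ∀ u, 0 < u → 0 ≤ M u := fun u hu => mm_nonneg_of_DC le_rfl zero_le_one hb hb4 h hu
  have hMc : ContinuousOn M (Ioi 0) := fun u hu =>
    (mm_cont_s le_rfl zero_le_one hb hb4 hu).continuousWithinAt
  set φ : ℝ → ℝ := fun t => t ^ c - κ * (1 - (1 + t)⁻¹) with hφ
  have hφd : ∀ t, 0 < t → HasDerivAt φ (c * t ^ (c - 1) - κ * ((1 + t)⁻¹ * (1 + t)⁻¹)) t :=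
    fun t ht => by
      refine ((Real.hasDerivAt_rpow_const (p := c) (Or.inl ht.ne')).sub
        (((((hasDerivAt_id t).const_add 1).inv (by simp only [id]; linarith)).const_sub
          1).const_mul κ)).congr_deriv ?_
      simp only [id]; field_simp
  have hE : ∀ u, 0 < u → DC fun t => Real.exp (-(u * φ t)) := fun u hu =>
    DC.of_deriv_mul (fun t _ => (Real.exp_pos _).le)
      (fun t ht => ((hφd t ht).const_mul u).neg.exp.congr_deriv (by simp only [Pi.neg_apply]; ring))
      ((DC.const hu.le).mul (DC_phi' hc0 hc1))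
  have hid : ∀ u t, Real.exp (-(t ^ c * u)) =
      Real.exp (-(u * φ t)) * (Real.exp (-(u * κ)) * Real.exp (u * κ * (1 + t)⁻¹)) := fun u t => by
    rw [← Real.exp_add, ← Real.exp_add]; simp only [hφ]; ring_nf
  set G : ℝ → ℝ → ℝ := fun u t => Real.exp (-(u * φ t)) * (Real.exp (-(u * κ)) * (u * κ) * M u)
    with hG
  have hG0 : ∀ u t, 0 < u → 0 ≤ G u t := fun u t hu =>
    mul_nonneg (Real.exp_pos _).le (mul_nonneg (by positivity) (hM u hu))
  have hL := fun t (ht : 0 < t) => laplace le_rfl zero_le_one hb hb4 (Real.rpow_pos_of_pos ht c)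
  have hGi : ∀ t, 0 < t → IntegrableOn (fun u => G u t) (Ioi 0) := fun t ht => by
    refine Integrable.mono' ((hL t ht).1.const_mul (1 + t))
      (ContinuousOn.aestronglyMeasurable (by simp only [hG]; fun_prop) measurableSet_Ioi) ?_
    filter_upwards [ae_restrict_mem measurableSet_Ioi] with u hu
    rw [Real.norm_of_nonneg (hG0 u t hu), hid]
    have h1 : u * κ ≤ (1 + t) * Real.exp (u * κ * (1 + t)⁻¹) := by
      have h2 := Real.add_one_le_exp (u * κ * (1 + t)⁻¹)
      have h3 : u * κ = (1 + t) * (u * κ * (1 + t)⁻¹) := by field_simp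
      nlinarith
    have := mul_le_mul_of_nonneg_left h1 (mul_nonneg (mul_nonneg (Real.exp_pos (-(u * φ t))).le
      (Real.exp_pos (-(u * κ))).le) (hM u hu))
    simp only [hG]
    nlinarith
  have hL' := fun t (ht : 0 < t) => laplace le_rfl zero_le_one hb' (by linarith) ht
  have key := lap_pos (m := fun s => c * mm 0 b' s) (f := fun t => c * K 0 b' t)
    (g := fun t => ∫ u in Ioi 0, G u t) (s₀ := s) ?_ (fun j => ?_) ?_ ?_ (fun θ h0 h1 => ?_) hs
    ((mm_cont_s le_rfl zero_le_one hb' (by linarith) hs).const_mul c)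
  · exact (mul_pos_iff_of_pos_left hc0).1 key
  · simpa [mul_left_comm, IntegrableOn] using (hL' 1 one_pos).1.const_mul c
  · rw [(hL' (1 + j) (by positivity)).2, ← integral_const_mul]
    simp only [mul_left_comm]
  · refine DC.integral ?_ hGi
    filter_upwards [ae_restrict_mem measurableSet_Ioi] with u hu
    have hu0 : 0 < u := hu
    exact (hE u hu).mul (DC.const (mul_nonneg (by positivity) (hM u hu)))
  · have e : ∀ u t, Real.exp (-(u * φ t)) * ((Real.exp (u * κ * (1 + t)⁻¹) - u * κ * (1 + t)⁻¹) *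
        (Real.exp (-(u * κ)) * M u)) = Real.exp (-(t ^ c * u)) * M u - G u t / (1 + t) :=
      fun u t => by rw [hid]; simp only [hG]; ring
    refine (DC.integral (μ := volume.restrict (Ioi 0)) (F := fun u t => Real.exp (-(u * φ t)) *
      ((Real.exp (u * κ * (1 + t)⁻¹) - u * κ * (1 + t)⁻¹) * (Real.exp (-(u * κ)) * M u))) ?_
      fun t ht => ?_).congr fun t ht => ?_
    · filter_upwards [ae_restrict_mem measurableSet_Ioi] with u hu
      have hu0 : 0 < u := hu
      exact (hE u hu).mul ((DC_exp_sub (by positivity)).mul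
        (DC.const (mul_nonneg (Real.exp_pos _).le (hM u hu))))
    · simp only [e]
      exact (hL t ht).1.sub ((hGi t ht).div_const _)
    · simp only [e]
      rw [integral_sub (hL t ht).1 ((hGi t ht).div_const _), ← (hL t ht).2, integral_div,
        K_rpow hc0.ne' ht, hcb]
  · have hsub : Ioc (0 : ℝ) 1 ⊆ Ioi 0 := Ioc_subset_Ioi_self
    have hη : 0 < ∫ u in Ioc 0 1, G u 1 := by
      rw [← intervalIntegral.integral_of_le zero_le_one]
      refine intervalIntegral.intervalIntegral_pos_of_pos_on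
        ((intervalIntegrable_iff_integrableOn_Ioc_of_le zero_le_one).2
          ((hGi 1 one_pos).mono_set hsub)) (fun u hu => ?_) one_pos
      have h2 : 0 < M u := by
        simp only [M]
        rw [mm_zero_eq hb hb4 hu.1]
        exact dens_pos_small hb hb4 hu.1 (by linarith [hu.2])
      have := hu.1
      simp only [hG]; positivity
    obtain ⟨J, hJ⟩ := exists_subexp (B := ∫ u in Ioi 0, G u 1) hc1 h0 h1
      (mul_pos (Real.exp_pos (-κ)) hη)
    refine ⟨J, hJ.trans_le ?_⟩
    have hJ0 : (0 : ℝ) < 1 + J := by positivity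
    refine le_trans ?_ (setIntegral_mono_set (hGi _ hJ0) ?_ hsub.eventuallyLE)
    · rw [← mul_assoc, ← integral_const_mul]
      refine setIntegral_mono_on (((hGi 1 one_pos).mono_set hsub).const_mul _)
        ((hGi _ hJ0).mono_set hsub) measurableSet_Ioc fun u hu => ?_
      simp only [hG]
      rw [← mul_assoc]
      have := hu.1
      refine mul_le_mul_of_nonneg_right ?_ (mul_nonneg (by positivity) (hM u hu.1))
      rw [← Real.exp_add, ← Real.exp_add]
      refine Real.exp_le_exp.2 ?_
      simp only [hφ, Real.one_rpow]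
      have h2 : 0 < (1 + J : ℝ) ^ c := Real.rpow_pos_of_pos hJ0 _
      have h3 : (1 + (1 + J : ℝ))⁻¹ ≤ 1 := inv_le_one_of_one_le₀ (by linarith)
      have h4 : 0 ≤ u * κ * (1 - (1 + (1 + J : ℝ))⁻¹) := by
        have := sub_nonneg.2 h3; positivity
      nlinarith [hu.2, mul_nonneg (sub_nonneg.2 hu.2) h2.le, mul_nonneg (sub_nonneg.2 hu.2) hκ0.le]
    · filter_upwards [ae_restrict_mem measurableSet_Ioi] with u hu
      exact hG0 u _ hu

end Pool.Agent.Lib.MP_70615d_an
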