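import Mathlib
import Pool.Agent.Lib.MP_70615d_an.Num2
import Pool.Agent.Lib.MP_70615d_an.Strict
import Pool.Agent.Lib.MP_70615d_an.Large
import Pool.Agent.Lib.MP_70615d_an.PDlim

/-!
The limit of the support endpoints.
-/

set_option autoImplicit false

namespace Pool.Agent.Lib.MP_70615d_an

open Filter Topology Set MeasureTheory

theorem posDef_of_mm {a b : ℝ} (ha : 0 < a) (ha1 : a ≤ 1) (hb : 2 < b) (hb4 : b < 4)
    (h : ∀ s, 0 < s → 0 ≤ mm a b s) (n : ℕ) : PosDef n (2 * a) (2 * b) := by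
  have hb0 : b ≠ 0 := by linarith
  refine posDef_of_PDf fun ι _ x c => ?_
  have lim : ∀ t, 0 ≤ t → Tendsto (fun ε => a * K a b (t + ε)) (𝓝[>] 0)
      (𝓝 (kern (2 * a) (2 * b) √t)) := fun t ht => by
    rcases ht.eq_or_lt with rfl | ht
    · rw [Real.sqrt_zero, kern_zero (by positivity) (by positivity)]
      have h1 : ContinuousAt (fun ε : ℝ => (1 - ε ^ a) / (1 - ε ^ b)) 0 :=
        (continuousAt_const.sub (Real.continuousAt_rpow_const _ _ (Or.inr ha.le))).div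
          (continuousAt_const.sub (Real.continuousAt_rpow_const _ _ (Or.inr (by linarith))))
          (by simp [Real.zero_rpow hb0])
      have h2 := h1.tendsto.mono_left (nhdsWithin_le_nhds (s := Ioi 0))
      simp only [Real.zero_rpow hb0, Real.zero_rpow ha.ne', sub_zero, div_one] at h2
      refine h2.congr' ?_
      filter_upwards [Ioo_mem_nhdsGT one_pos] with ε hε
      rw [zero_add, mul_K hb0 hε.1 hε.2.ne]
    · rw [kern_eq hb0 (Real.sqrt_pos.2 ht), Real.sq_sqrt ht.le]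
      have := (ContinuousAt.comp (f := fun ε : ℝ => (a, b, t + ε)) (x := 0)
        (by simpa using K_contAt (a := a) hb0 ht) (by fun_prop)).tendsto
      simp only [Function.comp_def, add_zero] at this
      exact (this.mono_left nhdsWithin_le_nhds).const_mul a
  refine ge_of_tendsto (tendsto_finsetSum _ fun i _ => tendsto_finsetSum _ fun j _ =>
    (lim _ (by positivity)).const_mul (c i * c j)) ?_
  filter_upwards [self_mem_nhdsWithin] with ε hε
  have hp : ∀ i j, 0 < ∑ k, (x i k - x j k) ^ 2 + ε := fun i j =>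
    add_pos_of_nonneg_of_pos (by positivity) hε
  have l := fun i j => laplace ha.le ha1 hb hb4 (hp i j)
  simp only [fun i j => (l i j).2, ← integral_const_mul]
  have hi : ∀ i j, IntegrableOn (fun s => c i * c j * (a * (Real.exp
      (-((∑ k, (x i k - x j k) ^ 2 + ε) * s)) * mm a b s))) (Ioi 0) := fun i j =>
    ((l i j).1.const_mul a).const_mul _
  simp only [← fun i => integral_finsetSum Finset.univ fun j _ => hi i j]
  rw [← integral_finsetSum _ fun i _ => integrable_finsetSum _ fun j _ => hi i j]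
  refine setIntegral_nonneg measurableSet_Ioi fun s hs => ?_
  refine (mul_nonneg (mul_nonneg (mul_pos ha (Real.exp_pos (-(ε * s)))).le (h s hs))
    (PDf_gauss n (le_of_lt hs) ι x c)).trans_eq ?_
  simp only [Finset.mul_sum, add_mul, neg_add, Real.exp_add]
  exact Finset.sum_congr rfl fun i _ => Finset.sum_congr rfl fun j _ => by ring

theorem tube {l : Filter ℝ} {f g : ℝ → ℝ} {a b : ℝ} (hb : 2 < b) (hb4 : b < 4)
    (hf : Tendsto f l (𝓝 a)) (hg : Tendsto g l (𝓝 b)) (hI : ∀ᶠ x in l, f x ∈ Icc (0 : ℝ) 1)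
    (h : ∀ s, 0 < s → 0 < mm a b s) : ∀ᶠ x in l, ∀ s ∈ Icc (2 : ℝ) 10, 0 < mm (f x) (g x) s := by
  have : ∀ᶠ z in l ×ˢ 𝓝ˢ (Icc (2 : ℝ) 10), 0 < mm (f z.1) (g z.1) z.2 := by
    refine isCompact_Icc.mem_prod_nhdsSet_of_forall fun s hs => ?_
    have hs0 : 0 < s := by linarith [hs.1]
    refine (Tendsto.comp (f := fun z : ℝ × ℝ => (f z.1, g z.1, z.2))
      (mm_cont (a := a) hb hb4 hs0).tendsto ?_).eventually (lt_mem_nhds (h s hs0))
    refine tendsto_nhdsWithin_iff.2 ⟨(hf.comp tendsto_fst).prodMk_nhds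
      ((hg.comp tendsto_fst).prodMk_nhds tendsto_snd), ?_⟩
    exact (tendsto_fst.eventually hI).mono fun z hz => ⟨hz, mem_univ _⟩
  exact this.curry.mono fun _ h => h.self_of_nhdsSet

theorem exists_small {b : ℝ} (hb : 33 / 10 ≤ b) (hb' : b ≤ 332 / 100)
    (h : ∀ s, 0 < s → 0 < mm 0 b s) : ∃ a, 0 < a ∧ a ≤ 1 ∧ ∀ s, 0 < s → 0 ≤ mm a b s := by
  have e1 : ∀ᶠ a in 𝓝[>] (0 : ℝ), ∀ s ∈ Icc (2 : ℝ) 10, 0 < mm a b s :=
    tube (f := fun a => a) (g := fun _ => b) (by linarith) (by linarith) nhdsWithin_le_nhds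
      tendsto_const_nhds (mem_of_superset (Ioo_mem_nhdsGT one_pos) Ioo_subset_Icc_self) h
  have e2 : ∀ᶠ a in 𝓝[>] (0 : ℝ), 95 / 100 < Real.Gamma (a + 1) := by
    have := (ContinuousAt.comp (f := fun a : ℝ => a + 1) (x := 0)
      (diff_Gamma (by norm_num)).continuousAt (by fun_prop)).tendsto
    simp only [Function.comp_def, zero_add, Real.Gamma_one] at this
    exact nhdsWithin_le_nhds (this.eventually (lt_mem_nhds (by norm_num)))
  obtain ⟨a, h1, h2, h3⟩ := (e1.and (e2.and (Ioo_mem_nhdsGT (by norm_num : (0 : ℝ) < 1 / 100)))).exists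
  refine ⟨a, h3.1, by linarith [h3.2], fun s hs => ?_⟩
  rcases le_total s 2 with h4 | h4
  · exact mm_nonneg_small h3.1 (by linarith [h3.2]) (by linarith [h3.2]) (by linarith) hs h4
  rcases le_total s 10 with h5 | h5
  · exact (h1 s ⟨h4, h5⟩).le
  · exact (mm_pos_large h3.1.le h3.2.le h2.le hb hb' h5).le

theorem pos_outside {b s : ℝ} (hb : 33 / 10 ≤ b) (hb' : b ≤ 332 / 100) (hs : 0 < s)
    (h : s ∉ Icc (2 : ℝ) 10) : 0 < mm 0 b s := by
  rcases lt_or_ge s 2 with h2 | h2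
  · rw [mm_zero_eq (by linarith) (by linarith) hs]
    exact dens_pos_small (by linarith) (by linarith) hs (by linarith)
  · exact mm_pos_large le_rfl (by norm_num) (by norm_num) hb hb'
      (le_of_not_ge fun h3 => h ⟨h2, h3⟩)

theorem blo_bhi : (33 / 10 : ℝ) < blo ∧ (bhi : ℝ) < 332 / 100 := by norm_num [blo, bhi]

theorem DC_blo : DC (K 0 blo) := by
  have h1 := blo_bhi.1
  have h2 : (blo : ℝ) < 332 / 100 := by norm_num [blo]
  refine DC_of_mm le_rfl zero_le_one (by linarith) (by linarith) fun s hs => ?_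
  by_cases h : s ∈ Icc (2 : ℝ) 10
  · rw [mm_zero_eq (by linarith) (by linarith) hs]; exact num_lo h.1 h.2
  · exact (pos_outside h1.le h2.le hs h).le

theorem lt_bhi {b : ℝ} (h : DC (K 0 b)) : b < bhi := by
  have h1 := blo_bhi.2
  have h2 : (3 : ℝ) < bhi := by norm_num [bhi]
  obtain ⟨s, hs, h3⟩ := num_hi
  refine lt_of_not_ge fun hc => h3.not_ge ?_
  rw [← mm_zero_eq (by linarith) (by linarith) hs]
  exact mm_nonneg_of_DC le_rfl zero_le_one (by linarith) (by linarith)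
    (DC_K0_down h (by linarith) hc) hs

noncomputable def bs : ℝ := sSup {b | DC (K 0 b)}

theorem le_bs {b : ℝ} (h : DC (K 0 b)) : b ≤ bs := le_csSup ⟨_, fun _ hb => (lt_bhi hb).le⟩ h

theorem DC_bs : DC (K 0 bs) := fun n => by
  have h0 : 0 < bs := by linarith [le_bs DC_blo, blo_bhi.1]
  refine Dn.lim (l := 𝓝[<] bs) (F := fun b => K 0 b) ?_ fun t ht => ?_
  · filter_upwards [Ioo_mem_nhdsLT h0] with b hb
    obtain ⟨c, hc, hbc⟩ := exists_lt_of_lt_csSup ⟨_, DC_blo⟩ hb.2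
    exact DC_K0_down hc hb.1 hbc.le n
  · exact (ContinuousAt.comp (f := fun b : ℝ => ((0 : ℝ), b, t)) (K_contAt h0.ne' ht)
      (by fun_prop)).tendsto.mono_left nhdsWithin_le_nhds

theorem bs_bounds : 33 / 10 < bs ∧ bs < 332 / 100 :=
  ⟨blo_bhi.1.trans_le (le_bs DC_blo), (lt_bhi DC_bs).trans blo_bhi.2⟩

theorem exists_zero : ∃ s, 0 < s ∧ mm 0 bs s = 0 := by
  obtain ⟨h1, h2⟩ := bs_bounds
  by_contra hc
  have h : ∀ s, 0 < s → 0 < mm 0 bs s := fun s hs =>
    (mm_nonneg_of_DC le_rfl zero_le_one (by linarith) (by linarith) DC_bs hs).lt_of_ne'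
      fun h => hc ⟨s, hs, h⟩
  have e1 : ∀ᶠ b in 𝓝[>] bs, ∀ s ∈ Icc (2 : ℝ) 10, 0 < mm 0 b s :=
    tube (f := fun _ => 0) (g := fun b => b) (by linarith) (by linarith) tendsto_const_nhds
      nhdsWithin_le_nhds (by simp) h
  obtain ⟨b, h3, h4⟩ := (e1.and (Ioo_mem_nhdsGT h2)).exists
  refine h4.1.not_ge (le_bs (DC_of_mm le_rfl zero_le_one (by linarith [h4.1]) (by linarith [h4.2])
    fun s hs => ?_))
  by_cases h5 : s ∈ Icc (2 : ℝ) 10
  · exact (h3 s h5).le
  · exact (pos_outside (by linarith [h4.1]) h4.2.le hs h5).le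

theorem mem_supp {n : ℕ} (hn : 1 ≤ n) {b : ℝ} (hb : 33 / 10 ≤ b) (hb' : b < bs) :
    2 * b ∈ supp n := by
  have h2 := bs_bounds.2
  obtain ⟨a, ha, ha1, h⟩ := exists_small hb (by linarith) fun s hs =>
    mm_pos_of_lt DC_bs (by linarith) hb' (by linarith) hs
  refine ⟨by linarith, lt_of_lt_of_le (by linarith : 0 < 2 * a) (le_csSup ⟨2, fun α hα => ?_⟩ ?_)⟩
  · exact (alpha_le hn hα.1 (by linarith) hα.2.1 hα.2.2).2
  · exact ⟨by linarith, by linarith, posDef_of_mm ha ha1 (by linarith) (by linarith) h n⟩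

theorem supp_le {b : ℝ} (hb : bs < b) : ∀ᶠ n in atTop, 2 * b ∈ upperBounds (supp n) := by
  filter_upwards [eventually_not_posDef (b₁ := b) (by linarith [bs_bounds.1])
    fun h => hb.not_ge (le_bs h)] with n hn β hβ
  refine le_of_not_ge fun hc => hβ.2.ne' ?_
  exact (congrArg _ (eq_empty_of_forall_notMem fun α hα =>
    hn α β hα.1 hα.2.1 hc hα.2.2)).trans Real.sSup_empty

theorem main : ∃ b : ℝ, (∀ᶠ n in atTop, BddAbove (supp n)) ∧
    Tendsto (fun n => sSup (supp n)) atTop (𝓝 (2 * b)) ∧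
    IsGreatest {c | 0 < c ∧ ComplMono (logKern c)} b ∧
    (∀ c ∈ Ioo (2 : ℝ) 4,
      ((∀ s, 0 < s → 0 ≤ dens c s) ∧ ∃ s, 0 < s ∧ dens c s = 0) ↔ c = b) ∧
    6.63673712454054 < 2 * b ∧ 2 * b < 6.63673712454055 := by
  obtain ⟨h1, h2⟩ := bs_bounds
  have hB : ∀ᶠ n in atTop, BddAbove (supp n) :=
    (supp_le (lt_add_one _)).mono fun n hn => ⟨_, hn⟩
  have hC : ∀ c, 0 < c → (ComplMono (logKern c) ↔ DC (K 0 c)) := fun c hc => by
    rw [complMono_iff ((K_contDiffOn 0 hc.ne').congr fun t ht => logKern_eq hc.ne' ht)]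
    exact ⟨fun h => h.congr fun t ht => (logKern_eq hc.ne' ht).symm,
      fun h => h.congr fun t ht => logKern_eq hc.ne' ht⟩
  refine ⟨bs, hB, tendsto_order.2 ⟨fun c hc => ?_, fun c hc => ?_⟩,
    ⟨⟨by linarith, (hC _ (by linarith)).2 DC_bs⟩, fun c hc => le_bs ((hC _ hc.1).1 hc.2)⟩,
    fun c hc => ⟨fun h => ?_, ?_⟩, ?_, ?_⟩
  · obtain ⟨b, hb, hb'⟩ := exists_between (max_lt h1 (by linarith : c / 2 < bs))
    filter_upwards [hB, eventually_ge_atTop 1] with n hn hn1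
    exact lt_of_lt_of_le (by linarith [le_max_right (33 / 10) (c / 2)])
      (le_csSup hn (mem_supp hn1 ((le_max_left _ _).trans hb.le) hb'))
  · filter_upwards [supp_le (by linarith : bs < (2 * bs + c) / 4)] with n hn
    exact lt_of_le_of_lt (Real.sSup_le hn (by linarith)) (by linarith)
  · obtain ⟨s, hs, h3⟩ := h.2
    refine (le_bs (DC_of_mm le_rfl zero_le_one hc.1 hc.2 fun s hs => ?_)).eq_of_not_lt fun h4 => ?_
    · rw [mm_zero_eq hc.1 hc.2 hs]; exact h.1 s hs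
    · have := mm_pos_of_lt DC_bs hc.1 h4 (by linarith) hs
      rw [mm_zero_eq hc.1 hc.2 hs] at this
      exact this.ne' h3
  · rintro rfl
    obtain ⟨s, hs, h3⟩ := exists_zero
    refine ⟨fun s hs => ?_, s, hs, by rwa [← mm_zero_eq hc.1 hc.2 hs]⟩
    rw [← mm_zero_eq hc.1 hc.2 hs]
    exact mm_nonneg_of_DC le_rfl zero_le_one hc.1 hc.2 DC_bs hs
  · have := le_bs DC_blo
    norm_num [blo] at this ⊢
    linarith
  · have := lt_bhi DC_bs
    norm_num [bhi] at this ⊢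
    linarith

end Pool.Agent.Lib.MP_70615d_an
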